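import Pool.Agent.H378R2.LSBV7
import Pool.Agent.W5h25.PR.N1

/-! Primes in progressions to one large modulus `g W`, with a fixed factor `g`. -/

set_option autoImplicit false

open Finset Filter Topology

namespace Pool.Agent.W5h25.PR

open Pool.Agent.H378R2 Pool.Agent.H378R2.LSBV Pool.Agent.Helper112 Pool.Agent.H398R2.BV

/-- the exceptional prime -/
theorem exists_ps2 (Z g fs : ℕ) (hgZ : g ≤ Z) (h : fs = 0 ∨ g * primorial Z < fs) :
    ∃ ps, GoodP Z ps ∧ ∀ (X : ℝ) (S : Finset ℕ) (f : ℕ), 0 < g → f ∣ g * WW X S ps → f ≠ fs := by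
  by_cases hc : ∃ p, p.Prime ∧ p ∣ fs ∧ Z < p ∧ 0 < fs
  · obtain ⟨p, hp, hpf, hpZ, hfs0⟩ := hc
    refine ⟨p, Or.inr ⟨hp, hpZ⟩, fun X S f hg hf hfs => ?_⟩
    subst hfs
    rcases (Nat.Prime.dvd_mul hp).1 (hpf.trans hf) with h1 | h1
    · have := Nat.le_of_dvd hg h1
      omega
    · have h2 : p ∈ (WW X S p).primeFactors := Nat.mem_primeFactors.2 ⟨hp, h1, by have := WW_pos X S p; omega⟩
      rw [WW_primeFactors] at h2
      unfold PW at h2
      rw [mem_filter] at h2
      exact h2.2.2.2 rfl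
  · refine ⟨1, Or.inl rfl, fun X S f hg hf hfs => ?_⟩
    have hW := WW_pos X S 1
    have hf0 : 0 < f := Nat.pos_of_dvd_of_pos hf (Nat.mul_pos hg hW)
    subst hfs
    have h1 : g * primorial Z < f := by
      rcases h with h | h
      · omega
      · exact h
    have h2 : f ∣ g * Nat.gcd f (WW X S 1) := by
      rw [← Nat.gcd_mul_left]
      exact Nat.dvd_gcd (dvd_mul_left f g) hf
    set a := Nat.gcd f (WW X S 1) with ha
    have hsq : Squarefree a := (WW_squarefree X S 1).squarefree_of_dvd (Nat.gcd_dvd_right _ _)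
    have h4 : a ∣ primorial Z := by
      rw [← Nat.prod_primeFactors_of_squarefree hsq]
      unfold primorial
      apply prod_dvd_prod_of_subset
      intro p hp
      rw [mem_filter, mem_range]
      have hp' := Nat.prime_of_mem_primeFactors hp
      have hpf : p ∣ f := (Nat.dvd_of_mem_primeFactors hp).trans (Nat.gcd_dvd_left _ _)
      have : ¬ Z < p := fun h5 => hc ⟨p, hp', hpf, h5, hf0⟩
      exact ⟨by omega, hp'⟩
    have h5 := Nat.le_of_dvd (primorial_pos Z) h4
    have ha0 : 0 < a := Nat.gcd_pos_of_pos_left _ hf0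
    have h6 := Nat.le_of_dvd (Nat.mul_pos hg ha0) h2
    have h7 : g * a ≤ g * primorial Z := Nat.mul_le_mul_left g h5
    omega

theorem single_gen (g : ℕ) (hg : 0 < g) (A Z0 : ℕ) : ∀ᶠ X : ℝ in atTop, ∃ (ps : ℕ) (S : Finset ℕ), GoodP Z0 ps ∧ GoodS X S ∧
    ∀ b : ℕ, b.Coprime (g * WW X S ps) →
      |EPhi X (g * WW X S ps) b| ≤ X / ((Nat.totient (g * WW X S ps) : ℝ) * (Real.log X) ^ A) := by
  classical
  set Z := max Z0 g with hZ
  set N := A + 2 with hN
  set k := N + 8 with hk
  obtain ⟨C0, X1, hls⟩ := ls_sum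
  set C1 := max C0 1 with hC1
  have hC1p : 1 ≤ C1 := le_max_right _ _
  obtain ⟨X2, hX2⟩ := small_conductor_all (g * primorial Z)
  have hlog : Tendsto Real.log atTop atTop := Real.tendsto_log_atTop
  have hloglog : Tendsto (fun X : ℝ => Real.log (Real.log X)) atTop atTop := hlog.comp hlog
  have hgr : (1 : ℝ) ≤ g := by exact_mod_cast hg
  have hg0 : (0 : ℝ) < g := by linarith
  filter_upwards [eventually_ge_atTop X1, eventually_ge_atTop X2, eventually_ge_atTop (4:ℝ),
    hloglog.eventually_ge_atTop (6 * k + 20 : ℝ),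
    hlog.eventually_ge_atTop (10 * C1),
    ev_log (16 * g) (A + 2) (1 / 4) (by norm_num), hloglog.eventually_ge_atTop (g : ℝ),
    (tendsto_rpow_atTop (show (0 : ℝ) < 1 / 100 by norm_num)).eventually_ge_atTop (g : ℝ)] with X h1 h2 h3 h4 h5 h6 h7' h8'
  have hX0 : 0 < X := by linarith
  have hX1 : 1 ≤ X := by linarith
  have hL1 : 1 ≤ Real.log X := by
    rw [Real.le_log_iff_exp_le hX0]
    have := Real.exp_one_lt_d9
    linarith
  set L := Real.log X with hL
  set l := Real.log L with hl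
  have hL0 : 0 < L := by linarith
  have hl20 : 20 ≤ l := by
    have : (0:ℝ) ≤ k := by positivity
    linarith
  have hexpl : Real.exp l = L := Real.exp_log hL0
  have hkr : (0:ℝ) ≤ k := by positivity
  -- exceptional prime
  obtain ⟨fs, hfs, hsc⟩ := hX2 X h2
  obtain ⟨ps, hps, hps2⟩ := exists_ps2 Z g fs (le_max_right _ _) hfs
  -- parameters
  set F := ⌊X ^ (1 / 50 : ℝ)⌋₊ with hF
  set Ω := ⌈(k : ℝ) * l ^ 4⌉₊ with hΩ
  set κ := 1 / l ^ 3 with hκ
  set P := (Icc 1 (yy X)).filter (fun p => p.Prime ∧ z2 X < p) with hP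
  set M := C1 * X / L ^ N with hM
  have hM0 : 0 < M := by positivity
  have hl3 : (1:ℝ) ≤ l ^ 3 := one_le_pow₀ (by linarith)
  have hκ0 : 0 ≤ κ := by positivity
  have hκ1 : κ ≤ 1 := by
    rw [hκ, div_le_one (by positivity)]
    exact hl3
  have hgz : g ≤ z2 X := by
    have e1 : (g : ℝ) ≤ z2 X := by
      unfold z2
      refine le_trans ?_ (Nat.le_ceil _)
      calc (g : ℝ) ≤ l := h7'
        _ = l ^ 1 := (pow_one _).symm
        _ ≤ l ^ 3 := pow_le_pow_right₀ (by linarith) (by norm_num)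
    exact_mod_cast e1
  have hVR : ((g * primorial (yy X) : ℕ) : ℝ) ≤ X ^ (1 / 50 : ℝ) := by
    push_cast
    calc (g : ℝ) * (primorial (yy X) : ℝ) ≤ X ^ (1 / 100 : ℝ) * X ^ (1 / 500 : ℝ) :=
          mul_le_mul h8' (primorial_yy_le X hX1) (by positivity) (by positivity)
      _ = X ^ (1 / 100 + 1 / 500 : ℝ) := by rw [Real.rpow_add hX0]
      _ ≤ _ := Real.rpow_le_rpow_of_exponent_le hX1 (by norm_num)
  have hFle : g * primorial (yy X) ≤ F := Nat.le_floor hVR
  have hall : ∑ f ∈ Icc 2 F, TT X f ≤ M * L ^ k := by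
    have h7 := hls X h1
    have h8 : ∑ f ∈ Icc 2 F, TT X f ≤ C0 * X * L ^ 8 := h7
    refine h8.trans ?_
    have hLk : L ^ k = L ^ N * L ^ 8 := by rw [hk, pow_add]
    have hLN0 : L ^ N ≠ 0 := by positivity
    have : M * L ^ k = C1 * X * L ^ 8 := by
      rw [hM, hLk]
      field_simp
    rw [this]
    have : C0 ≤ C1 := le_max_left _ _
    gcongr
  have hyL : (yy X : ℝ) ≤ L := by
    have : (yy X : ℝ) ≤ L / 1000 := Nat.floor_le (by positivity)
    linarith
  -- random set
  have hE1 : ∑ S ∈ P.powerset, ww P κ S * ∑ q ∈ S, (1:ℝ) / q ≤ 2 / l ^ 2 := by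
    rw [sum_ww_inv]
    have h7 : ∑ q ∈ P, (1:ℝ) / q ≤ 1 + l := by
      calc ∑ q ∈ P, (1:ℝ) / q ≤ ∑ q ∈ Icc 1 (yy X), (1:ℝ) / q := by
            apply sum_le_sum_of_subset_of_nonneg (filter_subset _ _)
            intro i _ _
            positivity
        _ ≤ 1 + Real.log (yy X) := harm_le' _
        _ ≤ 1 + l := by
            rcases Nat.eq_zero_or_pos (yy X) with h | h
            · rw [h]; simp; linarith
            · have : Real.log (yy X) ≤ l :=
                Real.log_le_log (by exact_mod_cast h) hyL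
              linarith
    calc κ * ∑ q ∈ P, (1:ℝ) / q ≤ κ * (1 + l) := mul_le_mul_of_nonneg_left h7 hκ0
      _ ≤ κ * (2 * l) := mul_le_mul_of_nonneg_left (by linarith) hκ0
      _ = 2 / l ^ 2 := by
          rw [hκ]
          have : l ≠ 0 := by linarith
          field_simp
  -- divisors with many prime factors
  set FB : Finset ℕ → Finset ℕ := fun S => (g * WW X S ps).divisors.filter
    (fun f => f ≠ 1 ∧ Ω ≤ (P ∩ f.primeFactors).card) with hFB
  have hdle : ∀ (S : Finset ℕ) (f : ℕ), f ∣ g * WW X S ps → 0 < f ∧ f ≤ F := by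
    intro S f hf
    have hW := WW_pos X S ps
    have h9 : g * WW X S ps ≤ g * primorial (yy X) :=
      Nat.mul_le_mul_left g (Nat.le_of_dvd (primorial_pos _) (WW_dvd_primorial X S ps))
    have h10 : 0 < g * WW X S ps := Nat.mul_pos hg hW
    exact ⟨Nat.pos_of_dvd_of_pos hf h10, (Nat.le_of_dvd h10 hf).trans (h9.trans hFle)⟩
  have hE2 : ∑ S ∈ P.powerset, ww P κ S * ∑ f ∈ FB S, TT X f ≤ M := by
    set G := (Icc 2 F).filter (fun f => Ω ≤ (P ∩ f.primeFactors).card) with hG
    have s1 : ∀ S ∈ P.powerset, ww P κ S * ∑ f ∈ FB S, TT X f ≤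
        ∑ f ∈ G, TT X f * (ww P κ S * (if Disjoint S f.primeFactors then (1:ℝ) else 0)) := by
      intro S hSP
      rw [mem_powerset] at hSP
      have hw := ww_nonneg P κ hκ0 hκ1 S
      rw [mul_sum]
      have hsub : FB S ⊆ G := by
        intro f hf
        rw [hFB, mem_filter, Nat.mem_divisors] at hf
        obtain ⟨e1, e2⟩ := hdle S f hf.1.1
        rw [hG, mem_filter, mem_Icc]
        exact ⟨⟨by have := hf.2.1; omega, e2⟩, hf.2.2⟩
      calc ∑ f ∈ FB S, ww P κ S * TT X f =
          ∑ f ∈ FB S, TT X f * (ww P κ S * (if Disjoint S f.primeFactors then (1:ℝ) else 0)) := by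
            apply sum_congr rfl
            intro f hf
            rw [hFB, mem_filter, Nat.mem_divisors] at hf
            have hd : Disjoint S f.primeFactors := by
              rw [Finset.disjoint_right]
              intro p hp hpS
              have hpp := Nat.prime_of_mem_primeFactors hp
              have hpd := (Nat.dvd_of_mem_primeFactors hp).trans hf.1.1
              rcases (Nat.Prime.dvd_mul hpp).1 hpd with h9 | h9
              · have e1 := Nat.le_of_dvd hg h9
                have e2 := (mem_filter.1 (hSP hpS)).2.2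
                omega
              · have h10 : p ∈ (WW X S ps).primeFactors :=
                  Nat.mem_primeFactors.2 ⟨hpp, h9, by have := WW_pos X S ps; omega⟩
                rw [WW_primeFactors] at h10
                unfold PW at h10
                rw [mem_filter] at h10
                exact h10.2.2.1 hpS
            rw [if_pos hd]
            ring
        _ ≤ _ := by
            apply sum_le_sum_of_subset_of_nonneg hsub
            intro p _ _
            apply mul_nonneg (TT_nonneg X _)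
            apply mul_nonneg hw
            split_ifs <;> norm_num
    refine (sum_le_sum s1).trans ?_
    rw [sum_comm]
    have s2 : ∀ f ∈ G, ∑ S ∈ P.powerset, TT X f *
          (ww P κ S * (if Disjoint S f.primeFactors then (1:ℝ) else 0)) ≤ (1 - κ) ^ Ω * TT X f := by
      intro f hf
      rw [hG, mem_filter] at hf
      rw [← mul_sum, sum_ww_disjoint, mul_comm]
      apply mul_le_mul_of_nonneg_right _ (TT_nonneg X _)
      exact pow_le_pow_of_le_one (by linarith) (by linarith) hf.2
    refine (sum_le_sum s2).trans ?_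
    rw [← mul_sum]
    have h7 : (1 - κ) ^ Ω ≤ 1 / L ^ k := by
      have e1 : (1 - κ) ^ Ω ≤ Real.exp (-(k * l)) := by
        apply pow_le_exp κ l k Ω hκ1
        have h8 : (k : ℝ) * l ^ 4 ≤ Ω := Nat.le_ceil _
        calc (k : ℝ) * l = κ * ((k : ℝ) * l ^ 4) := by
              rw [hκ]
              have : l ≠ 0 := by linarith
              field_simp
          _ ≤ κ * Ω := mul_le_mul_of_nonneg_left h8 hκ0
      rw [Real.exp_neg, Real.exp_nat_mul, hexpl, ← one_div] at e1
      exact e1
    have h8 : ∑ f ∈ G, TT X f ≤ ∑ f ∈ Icc 2 F, TT X f :=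
      sum_le_sum_of_subset_of_nonneg (filter_subset _ _) fun f _ _ => TT_nonneg X f
    calc (1 - κ) ^ Ω * ∑ f ∈ G, TT X f ≤ 1 / L ^ k * (M * L ^ k) := by
          apply mul_le_mul h7 (h8.trans hall) (sum_nonneg fun f _ => TT_nonneg X f) (by positivity)
      _ = M := by field_simp
  obtain ⟨S, hSP, hS1, hS2⟩ := exists_good P κ hκ0 hκ1 (fun S => ∑ q ∈ S, (1:ℝ) / q)
    (fun S => ∑ f ∈ FB S, TT X f)
    (fun S => sum_nonneg fun _ _ => by positivity)
    (fun S => sum_nonneg fun _ _ => TT_nonneg X _) (2 / l ^ 2) M (by positivity) hM0 hE1 hE2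
  refine ⟨ps, S, ?_, ⟨?_, ?_⟩, ?_⟩
  · rcases hps with h9 | h9
    · exact Or.inl h9
    · exact Or.inr ⟨h9.1, lt_of_le_of_lt (le_max_left _ _) h9.2⟩
  · intro q hq
    have := hSP hq
    rw [hP, mem_filter, mem_Icc] at this
    exact ⟨this.2.1, this.2.2, this.1.2⟩
  · calc ∑ q ∈ S, (1:ℝ) / q ≤ 3 * (2 / l ^ 2) := hS1
      _ = 6 / l ^ 2 := by ring
  intro b hb
  set W := WW X S ps with hW
  have hW1 : 1 ≤ W := WW_pos X S ps
  have hgW : 0 < g * W := Nat.mul_pos hg hW1
  -- case A
  have hA : ∑ f ∈ (g * W).divisors.filter (fun f => f ≠ 1 ∧ (P ∩ f.primeFactors).card < Ω), TT X f ≤ M := by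
    set GA := Icc 2 ⌊Real.exp (l ^ 6)⌋₊ with hGA
    have hmem : ∀ f ∈ (g * W).divisors.filter (fun f => f ≠ 1 ∧ (P ∩ f.primeFactors).card < Ω), f ∈ GA ∧ f ≠ fs := by
      intro f hf
      rw [mem_filter, Nat.mem_divisors] at hf
      obtain ⟨⟨hfd, _⟩, hf1, hfΩ⟩ := hf
      have hf0 := (hdle S f hfd).1
      refine ⟨?_, hps2 X S f hg hfd⟩
      rw [hGA, mem_Icc]
      refine ⟨by omega, Nat.le_floor ?_⟩
      have h9 : f ∣ g * Nat.gcd f W := by
        rw [← Nat.gcd_mul_left]
        exact Nat.dvd_gcd (dvd_mul_left f g) hfd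
      set a := Nat.gcd f W with ha
      have ha0 : 0 < a := Nat.gcd_pos_of_pos_left _ hf0
      have h10 : (P ∩ a.primeFactors).card < Ω := by
        refine lt_of_le_of_lt (card_le_card ?_) hfΩ
        exact inter_subset_inter_left (Nat.primeFactors_mono (Nat.gcd_dvd_left _ _) hf0.ne')
      have h11 := size_caseA X ps Ω S a (Nat.gcd_dvd_right _ _) h10 L hL1 hyL
      have h12 : (f : ℝ) ≤ g * a := by exact_mod_cast Nat.le_of_dvd (Nat.mul_pos hg ha0) h9
      have hz : (z2 X : ℝ) ≤ l ^ 3 + 1 := (Nat.ceil_lt_add_one (by positivity)).le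
      have hΩle : (Ω : ℝ) ≤ (k : ℝ) * l ^ 4 + 1 := (Nat.ceil_lt_add_one (by positivity)).le
      have h4e : (4:ℝ) ≤ Real.exp 2 := by
        have h := Real.exp_one_gt_d9
        have : Real.exp 2 = Real.exp 1 * Real.exp 1 := by rw [← Real.exp_add]; norm_num
        rw [this]
        nlinarith
      have hgL : (g : ℝ) ≤ Real.exp l := by
        have := Real.add_one_le_exp l
        linarith
      calc (f : ℝ) ≤ g * a := h12
        _ ≤ Real.exp l * ((Real.exp 2) ^ (z2 X) * L ^ Ω) := by
            apply mul_le_mul hgL _ (by positivity) (by positivity)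
            refine h11.trans ?_
            gcongr
        _ = Real.exp (2 * z2 X + Ω * l + l) := by
            rw [← Real.exp_nat_mul, ← hexpl, ← Real.exp_nat_mul, ← Real.exp_add, ← Real.exp_add]
            congr 1; ring
        _ ≤ Real.exp (l ^ 6) := by
            apply Real.exp_le_exp.mpr
            have hp1 := poly1 l (k : ℝ) 1 hkr (by norm_num) (by linarith)
            have : (Ω : ℝ) * l ≤ l * ((k : ℝ) * l ^ 4 + 1) := by
              rw [mul_comm]
              exact mul_le_mul_of_nonneg_left hΩle (by linarith)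
            linarith
    have hstep : ∀ f ∈ (g * W).divisors.filter (fun f => f ≠ 1 ∧ (P ∩ f.primeFactors).card < Ω),
        TT X f ≤ Real.exp (l ^ 6) * (X * Real.exp (-l ^ 7)) := by
      intro f hf
      obtain ⟨hf1, hf2⟩ := hmem f hf
      rw [hGA, mem_Icc] at hf1
      have hfe : (f:ℝ) ≤ Real.exp (l ^ 6) := (Nat.le_floor_iff (by positivity)).mp hf1.2
      refine (TT_le X f (by omega) (X * Real.exp (-l ^ 7)) (by positivity)
        (hsc f (by omega) hfe hf2)).trans ?_
      exact mul_le_mul_of_nonneg_right hfe (by positivity)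
    refine (sum_le_sum hstep).trans ?_
    rw [sum_const, nsmul_eq_mul]
    have hcard : ((((g * W).divisors.filter (fun f => f ≠ 1 ∧ (P ∩ f.primeFactors).card < Ω)).card : ℕ) : ℝ) ≤ Real.exp (l ^ 6) := by
      have e1 : ((g * W).divisors.filter (fun f => f ≠ 1 ∧ (P ∩ f.primeFactors).card < Ω)).card ≤ ⌊Real.exp (l ^ 6)⌋₊ := by
        refine (card_le_card (fun f hf => (hmem f hf).1)).trans ?_
        rw [hGA, Nat.card_Icc]
        omega
      calc _ ≤ ((⌊Real.exp (l ^ 6)⌋₊ : ℕ) : ℝ) := by exact_mod_cast e1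
        _ ≤ _ := Nat.floor_le (by positivity)
    have hp2 := poly2 l (N:ℝ) (by positivity) (by
      have : (N:ℝ) ≤ k := by rw [hk]; push_cast; linarith
      linarith)
    have h7 : Real.exp (2 * l ^ 6 - l ^ 7) ≤ 1 / L ^ N := by
      have : 1 / L ^ N = Real.exp (-(N * l)) := by
        rw [Real.exp_neg, Real.exp_nat_mul, hexpl, one_div]
      rw [this]
      exact Real.exp_le_exp.mpr (by linarith)
    calc _ ≤ Real.exp (l ^ 6) * (Real.exp (l ^ 6) * (X * Real.exp (-l ^ 7))) :=
          mul_le_mul_of_nonneg_right hcard (by positivity)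
      _ = X * (Real.exp (l ^ 6) * Real.exp (l ^ 6) * Real.exp (-l ^ 7)) := by ring
      _ = X * Real.exp (2 * l ^ 6 - l ^ 7) := by
          rw [← Real.exp_add, ← Real.exp_add]
          congr 2
          ring
      _ ≤ X * (1 / L ^ N) := mul_le_mul_of_nonneg_left h7 hX0.le
      _ = 1 * X / L ^ N := by ring
      _ ≤ C1 * X / L ^ N := by gcongr
  have hsplit : ∑ f ∈ (g * W).divisors.filter (fun f => f ≠ 1), TT X f ≤ 4 * M := by
    have e1 : ∑ f ∈ (g * W).divisors.filter (fun f => f ≠ 1), TT X f =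
        ∑ f ∈ FB S, TT X f + ∑ f ∈ (g * W).divisors.filter (fun f => f ≠ 1 ∧ (P ∩ f.primeFactors).card < Ω), TT X f := by
      rw [← sum_filter_add_sum_filter_not ((g * W).divisors.filter (fun f => f ≠ 1)) (fun f => Ω ≤ (P ∩ f.primeFactors).card),
        filter_filter, filter_filter]
      simp only [not_le]
      rfl
    rw [e1]
    linarith
  have hmain := EPhi_le X hX1 (g * W) b hgW hb
  have hWV : W ≤ primorial (yy X) := Nat.le_of_dvd (primorial_pos _) (WW_dvd_primorial X S ps)
  have hWX : (W:ℝ) ≤ X ^ (1 / 500 : ℝ) := le_trans (by exact_mod_cast hWV) (primorial_yy_le X hX1)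
  have hφ : (0:ℝ) < Nat.totient (g * W) := by exact_mod_cast Nat.totient_pos.mpr hgW
  have s2 : (1 / (Nat.totient (g * W) : ℝ)) * ∑ f ∈ (g * W).divisors.filter (fun f => f ≠ 1), TT X f ≤
      (1 / 2) * (X / ((Nat.totient (g * W) : ℝ) * L ^ A)) := by
    calc _ ≤ (1 / (Nat.totient (g * W) : ℝ)) * (4 * M) := mul_le_mul_of_nonneg_left hsplit (by positivity)
      _ = (4 * C1 / L ^ 2) * (X / ((Nat.totient (g * W) : ℝ) * L ^ A)) := by
          rw [hM, hN, pow_add]; field_simp
      _ ≤ (1 / 2) * (X / ((Nat.totient (g * W) : ℝ) * L ^ A)) := by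
          apply mul_le_mul_of_nonneg_right _ (by positivity)
          rw [div_le_iff₀ (by positivity)]
          nlinarith
  have s3 : 2 * (((g * W).primeFactors.card : ℝ) * Real.log (3 * X)) ≤
      (1 / 2) * (X / ((Nat.totient (g * W) : ℝ) * L ^ A)) := by
    have u2 : ((g * W).primeFactors.card : ℝ) ≤ 2 * L := by
      refine (omega_le_log (g * W) hgW).trans ?_
      have v1 : ((g * W : ℕ) : ℝ) ≤ X := by
        calc ((g * W : ℕ) : ℝ) ≤ ((g * primorial (yy X) : ℕ) : ℝ) := by
              exact_mod_cast Nat.mul_le_mul_left g hWV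
          _ ≤ X ^ (1 / 50 : ℝ) := hVR
          _ ≤ X ^ (1:ℝ) := Real.rpow_le_rpow_of_exponent_le hX1 (by norm_num)
          _ = X := Real.rpow_one X
      have := log_natCast_le (g * W) X hX1 v1
      linarith
    have u3 : Real.log (3 * X) ≤ 2 * L := by
      calc Real.log (3 * X) ≤ Real.log (X * X) :=
            Real.log_le_log (by positivity) (by nlinarith)
        _ = 2 * L := by rw [Real.log_mul hX0.ne' hX0.ne']; ring
    have u4 : 0 ≤ Real.log (3 * X) := Real.log_nonneg (by linarith)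
    have t3 : (Nat.totient (g * W) : ℝ) ≤ g * X ^ (1 / 500 : ℝ) := by
      calc (Nat.totient (g * W) : ℝ) ≤ ((g * W : ℕ) : ℝ) := by exact_mod_cast Nat.totient_le _
        _ = g * W := by push_cast; ring
        _ ≤ _ := mul_le_mul_of_nonneg_left hWX hg0.le
    rw [← mul_div_assoc, le_div_iff₀ (by positivity)]
    calc 2 * (((g * W).primeFactors.card : ℝ) * Real.log (3 * X)) * ((Nat.totient (g * W) : ℝ) * L ^ A) ≤
        2 * ((2 * L) * (2 * L)) * ((g * X ^ (1 / 500 : ℝ)) * L ^ A) := by gcongr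
      _ = (1 / 2) * ((16 * g * L ^ (A + 2)) * X ^ (1 / 500 : ℝ)) := by
          rw [pow_add]; ring
      _ ≤ (1 / 2) * (X ^ (1 / 4 : ℝ) * X ^ (1 / 500 : ℝ)) := by
          apply mul_le_mul_of_nonneg_left _ (by norm_num)
          apply mul_le_mul_of_nonneg_right h6 (by positivity)
      _ ≤ (1 / 2) * X := by
          apply mul_le_mul_of_nonneg_left _ (by norm_num)
          rw [← Real.rpow_add hX0]
          calc X ^ (1 / 4 + 1 / 500 : ℝ) ≤ X ^ (1 : ℝ) := Real.rpow_le_rpow_of_exponent_le hX1 (by norm_num)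
            _ = X := Real.rpow_one X
  linarith

end Pool.Agent.W5h25.PR
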