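import Pool.Agent.W5h22.JM.B
import Pool.Agent.W5h25.PR.N2

/-! The mean value of `th (n + h)` over the multiples `n` of `Q`, for dense sets of primes. -/

set_option autoImplicit false

open Finset Filter Topology
open Pool.Agent.H378R2 Pool.Agent.H510R2.Maier
open Pool.Agent.W5h22.JM

namespace Pool.Agent.W5h25.PR

theorem PP_prod (s : Finset ℕ) (hs : ∀ p ∈ s, p.Prime) : PP s = ∏ p ∈ s, (1 - 1 / (p : ℝ)) := by
  induction s using Finset.induction_on with
  | empty => simp [PP]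
  | insert a s ha ih =>
    have h1 := ih fun p hp => hs p (mem_insert_of_mem hp)
    have hap : a.Prime := hs a (mem_insert_self _ _)
    have hc : a.Coprime (∏ p ∈ s, p) := by
      apply Nat.Coprime.prod_right
      intro p hp
      rw [Nat.coprime_primes hap (hs p (mem_insert_of_mem hp))]
      rintro rfl
      exact ha hp
    rw [prod_insert ha, ← h1]
    unfold PP
    rw [prod_insert ha, Nat.totient_mul hc, Nat.totient_prime hap]
    have h2 : (0 : ℝ) < ((∏ p ∈ s, p : ℕ) : ℝ) := by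
      exact_mod_cast prod_ne s (fun p hp => hs p (mem_insert_of_mem hp)) (Subset.refl s)
    have h3 : (0 : ℝ) < a := by exact_mod_cast hap.pos
    rw [Nat.cast_mul, Nat.cast_mul, Nat.cast_pred hap.pos]
    field_simp

theorem PP_ge (s : Finset ℕ) (hs : ∀ p ∈ s, p.Prime) (N : ℕ) (hN : 1 ≤ N) (h : ∀ p ∈ s, p ≤ N) : 1 / (N : ℝ) ≤ PP s := by
  rw [PP_prod s hs]
  have h1 : ∀ n : ℕ, 1 ≤ n → ∏ p ∈ Icc 2 n, (1 - 1 / (p : ℝ)) = 1 / n := by
    intro n hn
    induction n, hn using Nat.le_induction with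
    | base => simp
    | succ n hn ih =>
      rw [Finset.prod_Icc_succ_top (by omega), ih]
      have : (0 : ℝ) < n := by exact_mod_cast hn
      push_cast
      field_simp
      ring
  rw [← h1 N hN]
  have hsub : s ⊆ Icc 2 N := by
    intro p hp
    rw [mem_Icc]
    exact ⟨(hs p hp).two_le, h p hp⟩
  rw [← prod_sdiff hsub]
  have h2 : 0 ≤ ∏ p ∈ s, (1 - 1 / (p : ℝ)) := prod_nonneg fun p hp => by
    have : (1 : ℝ) ≤ p := by exact_mod_cast (hs p hp).one_lt.le
    rw [sub_nonneg, div_le_one (by linarith)]; exact this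
  have h3 : ∏ p ∈ Icc 2 N \ s, (1 - 1 / (p : ℝ)) ≤ 1 := by
    apply prod_le_one
    · intro p hp
      have : (2 : ℝ) ≤ p := by exact_mod_cast (mem_Icc.1 (Finset.mem_sdiff.1 hp).1).1
      rw [sub_nonneg, div_le_one (by linarith)]; linarith
    · intro p hp
      have : (0 : ℝ) ≤ 1 / p := by positivity
      linarith
  calc _ ≤ 1 * ∏ p ∈ s, (1 - 1 / (p : ℝ)) := mul_le_mul_of_nonneg_right h3 h2
    _ = _ := one_mul _

theorem tot_ratio (n : ℕ) (hn : 0 < n) : (n.totient : ℝ) / n = ∏ p ∈ n.primeFactors, (1 - 1 / (p : ℝ)) := by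
  have h11 := Nat.totient_eq_mul_prod_factors n
  have h12 : ((n.totient : ℚ) : ℝ) = ((n * ∏ p ∈ n.primeFactors, (1 - (p : ℚ)⁻¹) : ℚ) : ℝ) := by rw [h11]
  push_cast at h12
  rw [h12]
  have : (0 : ℝ) < n := by exact_mod_cast hn
  rw [mul_div_cancel_left₀ _ this.ne']
  simp only [one_div]

theorem pf_mul (g : ℕ) (hg : 0 < g) (s : Finset ℕ) (hs : ∀ p ∈ s, p.Prime) (hgs : ∀ p : ℕ, p.Prime → p ∣ g → p ∈ s) :
    (g * ∏ p ∈ s, p).primeFactors = s := by
  have h1 : (∏ p ∈ s, p) ≠ 0 := (prod_ne s hs (Subset.refl s)).ne'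
  rw [Nat.primeFactors_mul hg.ne' h1, Nat.primeFactors_prod hs]
  apply Finset.union_eq_right.2
  intro p hp
  exact hgs p (Nat.prime_of_mem_primeFactors hp) (Nat.dvd_of_mem_primeFactors hp)

theorem cop_mul (g : ℕ) (hg : 0 < g) (s : Finset ℕ) (hs : ∀ p ∈ s, p.Prime) (hgs : ∀ p : ℕ, p.Prime → p ∣ g → p ∈ s) (h : ℕ) :
    h.Coprime (g * ∏ p ∈ s, p) ↔ h.Coprime (∏ p ∈ s, p) := by
  rw [Nat.coprime_mul_iff_right]
  constructor
  · exact fun h1 => h1.2
  · intro h1
    refine ⟨?_, h1⟩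
    by_contra hcon
    obtain ⟨p, hpp, hp1, hp2⟩ := Nat.Prime.not_coprime_iff_dvd.1 hcon
    have h2 : p ∣ ∏ p ∈ s, p := Finset.dvd_prod_of_mem (fun p => p) (hgs p hpp hp2)
    have h3 := Nat.dvd_gcd hp1 h2
    rw [h1] at h3
    exact hpp.one_lt.ne' (Nat.dvd_one.1 h3)

/-- the mean value -/
theorem mean_th2 (g Z B : ℕ) (hg : 0 < g) (ε : ℝ) (hε : 0 < ε) : ∀ᶠ X : ℝ in atTop, ∃ (ps : ℕ) (S : Finset ℕ), GoodP Z ps ∧ GoodS X S ∧
    ∀ s : Finset ℕ, s ⊆ PW X S ps → (∀ p : ℕ, p.Prime → p ∣ g → p ∈ s) → 0 < NQ X (g * ∏ p ∈ s, p) ∧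
      X / (40 * ((g * ∏ p ∈ s, p : ℕ) : ℝ)) ≤ NQ X (g * ∏ p ∈ s, p) ∧
      ∀ h : ℕ, (h : ℝ) ≤ (2 * Real.log X) ^ B →
        |EX X (g * ∏ p ∈ s, p) (fun n => th (n + h)) - (if h.Coprime (∏ p ∈ s, p) then (PP s)⁻¹ else 0)| ≤
          ε * (1 + (if h.Coprime (∏ p ∈ s, p) then (PP s)⁻¹ else 0)) := by
  have hgr : (1 : ℝ) ≤ g := by exact_mod_cast hg
  have hg0 : (0 : ℝ) < g := by linarith
  have ev1 := lphi_mphi (ε / 400) (by positivity)
  have ev2 := ev_err B (min (ε / 160) (1 / 2) / g) (by positivity)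
  have ev3 := ev_err 0 (min (ε / 1600) (1 / 200) / g) (by positivity)
  have ev4 : ∀ᶠ X : ℝ in atTop, 400 / ε ≤ Real.log X := Real.tendsto_log_atTop.eventually_ge_atTop _
  filter_upwards [ev1, ev2, ev3, ev4, single_gen g hg 2 Z, eventually_ge_atTop (40 : ℝ),
    Real.tendsto_log_atTop.eventually_ge_atTop (2 : ℝ)] with X h1 h2 h3 h4 h5 h6 h7
  obtain ⟨ps, S, hGP, hS, hbv⟩ := h5
  refine ⟨ps, S, hGP, hS, fun s hs hgs => ?_⟩
  have hXpos : 0 < X := by linarith
  have hsp : ∀ p ∈ s, p.Prime := fun p hp => (mem_PW.1 (hs hp)).2.1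
  have hcopeq : ∀ h : ℕ, h.Coprime (∏ p ∈ s, p) ↔ h.Coprime (g * ∏ p ∈ s, p) := fun h => (cop_mul g hg s hsp hgs h).symm
  simp only [hcopeq]
  set Q := g * ∏ p ∈ s, p with hQ
  set M := ∏ p ∈ PW X S ps \ s, p with hM
  have hQM : Q * M = g * WW X S ps := by
    rw [hQ, hM, mul_assoc]
    congr 1
    rw [mul_comm]
    exact prod_sdiff hs
  have hQ0 : 0 < Q := Nat.mul_pos hg (prod_ne s hsp (Subset.refl s))
  have hM0 : 0 < M := prod_pos fun p hp => (mem_PW.1 (Finset.mem_sdiff.1 hp).1).2.1.pos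
  have hc : Q.Coprime M := by
    rw [Nat.coprime_comm, cop_mul g hg s hsp hgs, Nat.coprime_comm]
    apply Nat.Coprime.prod_left
    intro p hp
    apply Nat.Coprime.prod_right
    intro r hr
    rw [Finset.mem_sdiff] at hr
    rw [Nat.coprime_primes (hsp p hp) (mem_PW.1 hr.1).2.1]
    rintro rfl
    exact hr.2 hp
  have hWle : (WW X S ps : ℝ) ≤ Real.exp (Real.log X / 700) := WW_le X (by linarith) S ps
  set L := Real.log X with hL
  have hL0 : 0 < L := by linarith
  set E := X / ((Nat.totient (g * WW X S ps) : ℝ) * L ^ 2) with hE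
  have hEb : ∀ b : ℕ, b.Coprime (g * WW X S ps) → |EPhi X (g * WW X S ps) b| ≤ E := hbv
  have hWp : ∀ p : ℕ, p.Prime → p ∣ Q * M → (p : ℝ) ≤ X := by
    intro p hp hpW
    rw [hQM] at hpW
    have h8 : p ≤ yy X := by
      rcases (Nat.Prime.dvd_mul hp).1 hpW with hpg | hpW
      · exact (mem_PW.1 (hs (hgs p hp hpg))).1
      · exact (mem_PW.1 ((prime_dvd_WW hp).1 hpW)).1
    have h9 : (p : ℝ) ≤ yy X := by exact_mod_cast h8
    have h10 : (yy X : ℝ) ≤ L / 1000 := Nat.floor_le (by positivity)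
    have h11 : L ≤ X := by
      have := Real.add_one_le_exp L
      rw [hL, Real.exp_log hXpos] at this
      linarith
    linarith
  have hexpL : Real.exp L = X := Real.exp_log hXpos
  have hsqrt : Real.sqrt X = Real.exp (L / 2) := by
    rw [← hexpL, Real.sqrt_eq_iff_mul_self_eq (Real.exp_pos _).le (Real.exp_pos _).le, ← Real.exp_add]
    congr 1; ring
  have hl4 : Real.log (4 * X) ≤ 2 * L := by
    rw [Real.log_mul (by norm_num) hXpos.ne']
    have : Real.log 4 ≤ 2 := by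
      rw [show (4 : ℝ) = 2 ^ 2 by norm_num, Real.log_pow]
      have := Real.log_two_lt_d9
      push_cast; linarith
    linarith
  have hl40 : 0 ≤ Real.log (4 * X) := Real.log_nonneg (by linarith)
  have hqr : (0 : ℝ) < Q := by exact_mod_cast hQ0
  have hMr : (0 : ℝ) < M := by exact_mod_cast hM0
  have hM1 : (1 : ℝ) ≤ M := by exact_mod_cast hM0
  have hφ0 : (0 : ℝ) < Q.totient := by exact_mod_cast Nat.totient_pos.2 hQ0
  have hφM0 : (0 : ℝ) < M.totient := by exact_mod_cast Nat.totient_pos.2 hM0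
  have hWr : ((g * WW X S ps : ℕ) : ℝ) = Q * M := by rw [← hQM]; push_cast; ring
  have hφW : ((g * WW X S ps).totient : ℝ) = Q.totient * M.totient := by
    rw [← hQM, Nat.totient_mul hc]; push_cast; ring
  have hPPeq : PP s = (Q.totient : ℝ) / Q := by
    rw [tot_ratio Q hQ0, hQ, pf_mul g hg s hsp hgs, PP_prod s hsp]
  have hPP : (PP s)⁻¹ = Q / Q.totient := by
    rw [hPPeq, inv_div]
  have hPs : 1 / L ≤ PP s := by
    rcases Nat.eq_zero_or_pos (yy X) with h0 | h0
    · have : s = ∅ := by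
        rw [Finset.eq_empty_iff_forall_notMem]
        intro p hp
        have h1 := (mem_PW.1 (hs hp)).1
        have h2 := (hsp p hp).pos
        omega
      rw [this]
      unfold PP
      rw [prod_empty, Nat.totient_one, Nat.cast_one, div_one, div_le_one hL0]
      linarith
    · refine le_trans ?_ (PP_ge s hsp (yy X) h0 fun p hp => (mem_PW.1 (hs hp)).1)
      apply one_div_le_one_div_of_le (by exact_mod_cast h0)
      have h10 : (yy X : ℝ) ≤ L / 1000 := Nat.floor_le (by positivity)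
      linarith
  have hP0 : 0 < PP s := PP_pos s hsp
  have h2' : g * (Real.exp (L / 700) * (4 * (2 * L) ^ B * (2 * L) + 4 * Real.exp (L / 2) * (2 * L))) ≤ min (ε / 160) (1 / 2) * X := by
    have := mul_le_mul_of_nonneg_left h2 hg0.le
    refine this.trans (le_of_eq ?_)
    field_simp
  have h3' : g * (Real.exp (L / 700) * (4 * (2 * L) ^ 0 * (2 * L) + 4 * Real.exp (L / 2) * (2 * L))) ≤ min (ε / 1600) (1 / 200) * X := by
    have := mul_le_mul_of_nonneg_left h3 hg0.le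
    refine this.trans (le_of_eq ?_)
    field_simp
  have hgWle : ((g * WW X S ps : ℕ) : ℝ) ≤ g * Real.exp (L / 700) := by
    push_cast
    exact mul_le_mul_of_nonneg_left hWle hg0.le
  have hQW : (Q : ℝ) ≤ g * Real.exp (L / 700) := by
    refine le_trans ?_ hgWle
    rw [hWr]
    nlinarith
  have hexp1 : 1 ≤ 4 * (2 * L) ^ 0 * (2 * L) + 4 * Real.exp (L / 2) * (2 * L) := by
    have : 0 ≤ 4 * Real.exp (L / 2) * (2 * L) := by positivity
    rw [pow_zero]; linarith
  have hQX : (Q : ℝ) ≤ min (ε / 1600) (1 / 200) * X := by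
    refine hQW.trans (le_trans ?_ h3')
    apply mul_le_mul_of_nonneg_left _ hg0.le
    exact le_mul_of_one_le_right (Real.exp_pos _).le hexp1
  have hQX1 : (Q : ℝ) ≤ ε / 1600 * X := hQX.trans (mul_le_mul_of_nonneg_right (min_le_left _ _) hXpos.le)
  have hQX2 : (Q : ℝ) ≤ 1 / 200 * X := hQX.trans (mul_le_mul_of_nonneg_right (min_le_right _ _) hXpos.le)
  have hMPhi := MPhi_ge X h6
  have hnu := sum_nu X (by linarith) Q 0 hQ0 (by linarith)
  set N1 := NQ X Q with hN1
  have hnu' : |N1 - MPhi X * (1 / (Q : ℝ))| ≤ 5 := hnu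
  rw [abs_le] at hnu'
  have hMq : X / (20 * Q) ≤ MPhi X * (1 / (Q : ℝ)) := by
    rw [mul_one_div, div_le_div_iff₀ (by positivity) hqr]
    nlinarith
  have h5q : 5 ≤ X / (40 * Q) := by
    rw [le_div_iff₀ (by positivity)]
    linarith
  have hN1lo : X / (40 * Q) ≤ N1 := by
    have : X / (20 * (Q : ℝ)) = X / (40 * Q) + X / (40 * Q) := by field_simp; norm_num
    linarith [hnu'.1]
  have hXq : 0 < X / (40 * (Q : ℝ)) := by positivity
  have hN10 : 0 < N1 := lt_of_lt_of_le hXq hN1lo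
  refine ⟨hN10, hN1lo, fun h hh => ?_⟩
  have hhX : (h : ℝ) ≤ X / 2 := by
    have e1 : (2 * L) ^ B ≤ Real.exp (L / 700) * (4 * (2 * L) ^ B * (2 * L) + 4 * Real.exp (L / 2) * (2 * L)) := by
      have a1 : 1 ≤ Real.exp (L / 700) := Real.one_le_exp (by positivity)
      have a2 : 0 ≤ 4 * Real.exp (L / 2) * (2 * L) := by positivity
      have a3 : (0 : ℝ) < (2 * L) ^ B := by positivity
      have a4 : (2 * L) ^ B ≤ 4 * (2 * L) ^ B * (2 * L) := by nlinarith
      calc (2 * L) ^ B ≤ 1 * (4 * (2 * L) ^ B * (2 * L) + 4 * Real.exp (L / 2) * (2 * L)) := by linarith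
        _ ≤ _ := by apply mul_le_mul_of_nonneg_right a1; positivity
    have e2 : min (ε / 160) (1 / 2) * X ≤ 1 / 2 * X := mul_le_mul_of_nonneg_right (min_le_right _ _) hXpos.le
    have e3 : Real.exp (L / 700) * (4 * (2 * L) ^ B * (2 * L) + 4 * Real.exp (L / 2) * (2 * L)) ≤
        g * (Real.exp (L / 700) * (4 * (2 * L) ^ B * (2 * L) + 4 * Real.exp (L / 2) * (2 * L))) :=
      le_mul_of_one_le_left (by positivity) hgr
    linarith
  have hmain := all_mult X (by linarith) Q M h hQ0 hM0 hc hhX hWp E (by rw [hQM]; exact hEb)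
  set u := ∑ n ∈ Icc 1 ⌊3 * X⌋₊, nu X Q 0 n * th (n + h) with hu
  -- the size of the errors
  have r1 : (M.totient : ℝ) * E ≤ ε / 4 * (X / (40 * Q)) := by
    have e1 : (M.totient : ℝ) * E = X / (Q.totient * L ^ 2) := by
      rw [hE, hφW]; field_simp
    rw [e1, div_le_iff₀ (by positivity)]
    have e2 : ε / 4 * (X / (40 * (Q : ℝ))) * (Q.totient * L ^ 2) = X * (ε * L ^ 2 / 160 * (Q.totient / Q)) := by
      field_simp; norm_num
    rw [e2]
    have e3 : 1 / L ≤ (Q.totient : ℝ) / Q := by rw [← hPPeq]; exact hPs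
    have e4 : 400 ≤ ε * L := by
      rw [div_le_iff₀ hε] at h4; linarith
    have e5 : 1 ≤ ε * L ^ 2 / 160 * (Q.totient / Q) := by
      calc (1 : ℝ) ≤ ε * L / 160 := by rw [le_div_iff₀ (by norm_num)]; linarith
        _ = ε * L ^ 2 / 160 * (1 / L) := by field_simp
        _ ≤ ε * L ^ 2 / 160 * (Q.totient / Q) := mul_le_mul_of_nonneg_left e3 (by positivity)
    nlinarith
  have r2 : (M : ℝ) * (4 * h * Real.log (4 * X) + 4 * Real.sqrt X * Real.log (4 * X)) ≤ ε / 4 * (X / (40 * Q)) := by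
    have e1 : ε / 4 * (X / (40 * (Q : ℝ))) = (ε / 160 * X) / Q := by field_simp; norm_num
    rw [e1, le_div_iff₀ hqr]
    calc (M : ℝ) * (4 * h * Real.log (4 * X) + 4 * Real.sqrt X * Real.log (4 * X)) * Q
        = (Q * M) * (4 * h * Real.log (4 * X) + 4 * Real.sqrt X * Real.log (4 * X)) := by ring
      _ ≤ g * Real.exp (L / 700) * (4 * (2 * L) ^ B * (2 * L) + 4 * Real.exp (L / 2) * (2 * L)) := by
          rw [hsqrt, ← hWr]
          gcongr
      _ = g * (Real.exp (L / 700) * (4 * (2 * L) ^ B * (2 * L) + 4 * Real.exp (L / 2) * (2 * L))) := by ring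
      _ ≤ _ := h2'.trans (mul_le_mul_of_nonneg_right (min_le_left _ _) hXpos.le)
  have r3 : |(if h.Coprime Q then LPhi X * (1 / (Nat.totient Q : ℝ)) else 0) - N1 * (if h.Coprime Q then (PP s)⁻¹ else 0)| ≤
      ε / 2 * (if h.Coprime Q then (PP s)⁻¹ else 0) * (X / (40 * Q)) := by
    split_ifs with hq
    · rw [hPP]
      have e1 : LPhi X * (1 / (Q.totient : ℝ)) - N1 * (Q / Q.totient) =
          ((LPhi X - MPhi X) - Q * (N1 - MPhi X * (1 / Q))) / Q.totient := by field_simp; ring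
      rw [e1, abs_div, abs_of_pos hφ0, div_le_iff₀ hφ0]
      have e2 : |Q * (N1 - MPhi X * (1 / (Q : ℝ)))| ≤ Q * 5 := by
        rw [abs_mul, abs_of_pos hqr]
        exact mul_le_mul_of_nonneg_left hnu hqr.le
      have e3 : |(LPhi X - MPhi X) - Q * (N1 - MPhi X * (1 / (Q : ℝ)))| ≤ ε / 400 * X + Q * 5 :=
        (abs_sub _ _).trans (add_le_add h1 e2)
      refine e3.trans ?_
      have e4 : ε / 2 * (Q / Q.totient) * (X / (40 * (Q : ℝ))) * Q.totient = ε * X / 80 := by field_simp; norm_num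
      rw [e4]
      have e7 : 0 < ε * X := by positivity
      linarith
    · rw [mul_zero, sub_zero, abs_zero]
      simp
  have hc0 : 0 ≤ (if h.Coprime Q then (PP s)⁻¹ else 0) := by
    split_ifs
    · positivity
    · exact le_rfl
  set cc := (if h.Coprime Q then (PP s)⁻¹ else 0) with hcc
  have hfin : |u - N1 * cc| ≤ ε * (1 + cc) * N1 := by
    have e1 := (abs_sub_le u (if h.Coprime Q then LPhi X * (1 / (Nat.totient Q : ℝ)) else 0) (N1 * cc))
    have e2 : ε * (1 + cc) * (X / (40 * (Q : ℝ))) ≤ ε * (1 + cc) * N1 := mul_le_mul_of_nonneg_left hN1lo (by positivity)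
    have e3 : 0 ≤ ε / 2 * cc * (X / (40 * (Q : ℝ))) := by positivity
    have e4 : 0 < ε * (X / (40 * (Q : ℝ))) := by positivity
    have e5 : ε * (1 + cc) * (X / (40 * (Q : ℝ))) = ε * (X / (40 * (Q : ℝ))) + 2 * (ε / 2 * cc * (X / (40 * (Q : ℝ)))) := by ring
    linarith
  have e1 : EX X Q (fun n => th (n + h)) - cc = (u - N1 * cc) / N1 := by
    unfold EX
    rw [sub_div, mul_div_cancel_left₀ _ hN10.ne']
  rw [e1, abs_div, abs_of_pos hN10, div_le_iff₀ hN10]
  exact hfin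

end Pool.Agent.W5h25.PR
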