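import Pool.Agent.W5h22.JM.I
import Pool.Agent.W5h25.PR.A

/-! The mean value of the normalised number of primes of a residue class in a short interval. -/

set_option autoImplicit false

open Finset Filter Topology
open Pool.Agent.H378R2 Pool.Agent.H510R2.Maier
open Pool.Agent.W5h22.JM

namespace Pool.Agent.W5h25.PR

/-- the number of primes `p ≤ x` with `p ≡ b mod q` -/
noncomputable def piAP (q b : ℕ) (x : ℝ) : ℕ := ((Icc 1 ⌊x⌋₊).filter (fun p => p.Prime ∧ p ≡ b [MOD q])).card

/-- `φ(q) (log x / (log x)^a) (π(x + (log x)^a; q, b) - π(x; q, b))` -/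
noncomputable def RR (q b : ℕ) (a x : ℝ) : ℝ :=
  (q.totient : ℝ) * (Real.log x / Real.log x ^ a) * ((piAP q b (x + Real.log x ^ a) : ℝ) - piAP q b x)

/-- sums of `log p` over the primes of a class -/
noncomputable def thq (q b n Y : ℕ) : ℝ := ∑ h ∈ Icc 1 Y, if n + h ≡ b [MOD q] then th (n + h) else 0

theorem thq_nonneg (q b n Y : ℕ) : 0 ≤ thq q b n Y :=
  sum_nonneg fun h _ => by split_ifs; exacts [th_nonneg _, le_rfl]

theorem pcq (q b n Y : ℕ) : ((((Icc 1 (n + Y)).filter (fun p => p.Prime ∧ p ≡ b [MOD q])).card : ℝ) -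
    ((Icc 1 n).filter (fun p => p.Prime ∧ p ≡ b [MOD q])).card) =
    ∑ h ∈ Icc 1 Y, if (n + h).Prime ∧ n + h ≡ b [MOD q] then (1 : ℝ) else 0 := by
  rw [card_filter, card_filter]
  push_cast
  induction Y with
  | zero => simp
  | succ Y ih =>
    rw [Finset.sum_Icc_succ_top (by omega), ← ih, ← add_assoc, Finset.sum_Icc_succ_top (by omega)]
    ring

theorem RR_nat (q b : ℕ) (a : ℝ) (n : ℕ) : RR q b a n = (q.totient : ℝ) * (Real.log n / Real.log n ^ a) *
    ∑ h ∈ Icc 1 ⌊Real.log n ^ a⌋₊, if (n + h).Prime ∧ n + h ≡ b [MOD q] then (1 : ℝ) else 0 := by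
  unfold RR piAP
  have h0 : 0 ≤ Real.log (n : ℝ) ^ a := Real.rpow_nonneg (Real.log_natCast_nonneg n) a
  rw [← pcq, Nat.floor_natCast, add_comm (n : ℝ), Nat.floor_add_natCast h0, add_comm _ n]

theorem RR_bd (q b : ℕ) (a : ℝ) (n : ℕ) : 0 ≤ RR q b a n ∧ RR q b a n ≤ q.totient * Real.log n := by
  rw [RR_nat q b a n]
  have hl := Real.log_natCast_nonneg n
  have h0 : 0 ≤ Real.log (n : ℝ) ^ a := Real.rpow_nonneg hl a
  have hS0 : 0 ≤ ∑ h ∈ Icc 1 ⌊Real.log n ^ a⌋₊, if (n + h).Prime ∧ n + h ≡ b [MOD q] then (1 : ℝ) else 0 :=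
    sum_nonneg fun h _ => by split_ifs <;> norm_num
  refine ⟨by positivity, ?_⟩
  have hS : ∑ h ∈ Icc 1 ⌊Real.log n ^ a⌋₊, (if (n + h).Prime ∧ n + h ≡ b [MOD q] then (1 : ℝ) else 0) ≤ Real.log n ^ a := by
    calc ∑ h ∈ Icc 1 ⌊Real.log n ^ a⌋₊, (if (n + h).Prime ∧ n + h ≡ b [MOD q] then (1 : ℝ) else 0) ≤
        ∑ _h ∈ Icc 1 ⌊Real.log n ^ a⌋₊, (1 : ℝ) := sum_le_sum fun h _ => by split_ifs <;> norm_num
      _ = ⌊Real.log n ^ a⌋₊ := by simp
      _ ≤ _ := Nat.floor_le h0
  rw [mul_assoc]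
  apply mul_le_mul_of_nonneg_left _ (Nat.cast_nonneg _)
  rcases eq_or_lt_of_le h0 with h1 | h1
  · rw [← h1, div_zero, zero_mul]; exact hl
  · calc Real.log n / Real.log n ^ a * ∑ h ∈ Icc 1 ⌊Real.log n ^ a⌋₊, (if (n + h).Prime ∧ n + h ≡ b [MOD q] then (1 : ℝ) else 0)
        ≤ Real.log n / Real.log n ^ a * Real.log n ^ a := mul_le_mul_of_nonneg_left hS (by positivity)
      _ = Real.log n := by field_simp

/-- upper bound by weighted sums -/
theorem RR_up (q b : ℕ) (X a : ℝ) (n : ℕ) (hX : 3 ≤ X) (ha : 1 ≤ a) (hn : X < n) (hn3 : (n : ℝ) < 3 * X) :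
    RR q b a n ≤ q.totient * (Real.log X ^ a)⁻¹ * thq q b n ⌊Real.log (3 * X) ^ a⌋₊ := by
  rw [RR_nat q b a n, mul_assoc, mul_assoc]
  apply mul_le_mul_of_nonneg_left _ (Nat.cast_nonneg _)
  have hX0 : 0 < X := by linarith
  have hL : 0 < Real.log X := Real.log_pos (by linarith)
  have hl1 : Real.log X ≤ Real.log n := Real.log_le_log hX0 hn.le
  have hl2 : Real.log n ≤ Real.log (3 * X) := Real.log_le_log (by linarith) hn3.le
  have hl0 : 0 < Real.log n := lt_of_lt_of_le hL hl1
  have h1 : Real.log n / Real.log n ^ a ≤ Real.log X / Real.log X ^ a := by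
    have e1 : ∀ t : ℝ, 0 < t → t / t ^ a = t ^ (1 - a) := fun t ht => by
      rw [Real.rpow_sub ht, Real.rpow_one]
    rw [e1 _ hl0, e1 _ hL]
    exact Real.rpow_le_rpow_of_nonpos hL hl1 (by linarith)
  have h2 : ∑ h ∈ Icc 1 ⌊Real.log n ^ a⌋₊, (if (n + h).Prime ∧ n + h ≡ b [MOD q] then (1 : ℝ) else 0) ≤
      thq q b n ⌊Real.log (3 * X) ^ a⌋₊ / Real.log X := by
    unfold thq
    rw [sum_div]
    calc ∑ h ∈ Icc 1 ⌊Real.log n ^ a⌋₊, (if (n + h).Prime ∧ n + h ≡ b [MOD q] then (1 : ℝ) else 0) ≤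
        ∑ h ∈ Icc 1 ⌊Real.log n ^ a⌋₊, (if n + h ≡ b [MOD q] then th (n + h) else 0) / Real.log X := by
          refine sum_le_sum fun h _ => ?_
          unfold th
          by_cases hb : n + h ≡ b [MOD q]
          · simp only [hb, and_true, if_true]
            split_ifs
            · rw [le_div_iff₀ hL, one_mul]
              refine hl1.trans (Real.log_le_log (by linarith) ?_)
              push_cast
              linarith [(Nat.cast_nonneg h : (0 : ℝ) ≤ h)]
            · simp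
          · simp only [hb, and_false, if_false]
            simp
      _ ≤ _ := by
          apply sum_le_sum_of_subset_of_nonneg
          · intro h hh
            rw [mem_Icc] at hh ⊢
            refine ⟨hh.1, hh.2.trans (Nat.floor_le_floor ?_)⟩
            exact Real.rpow_le_rpow hl0.le hl2 (by linarith)
          · intro h _ _
            apply div_nonneg _ hL.le
            split_ifs; exacts [th_nonneg _, le_rfl]
  have h3 : 0 ≤ Real.log X / Real.log X ^ a := by positivity
  calc _ ≤ Real.log X / Real.log X ^ a * (thq q b n ⌊Real.log (3 * X) ^ a⌋₊ / Real.log X) := by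
        apply mul_le_mul h1 h2 _ h3
        exact sum_nonneg fun h _ => by split_ifs <;> norm_num
    _ = _ := by field_simp

/-- lower bound by weighted sums -/
theorem RR_low (q b : ℕ) (X a : ℝ) (n : ℕ) (hX : 3 ≤ X) (ha : 1 ≤ a) (hn : X < n) (hn3 : (n : ℝ) < 3 * X)
    (hLa : Real.log X ^ a ≤ 3 * X) :
    q.totient * (Real.log (3 * X) / Real.log (3 * X) ^ a / (Real.log (3 * X) + 1)) * thq q b n ⌊Real.log X ^ a⌋₊ ≤
      RR q b a n := by
  rw [RR_nat q b a n, mul_assoc, mul_assoc]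
  apply mul_le_mul_of_nonneg_left _ (Nat.cast_nonneg _)
  have hX0 : 0 < X := by linarith
  have hL : 0 < Real.log X := Real.log_pos (by linarith)
  have hl1 : Real.log X ≤ Real.log n := Real.log_le_log hX0 hn.le
  have hl2 : Real.log n ≤ Real.log (3 * X) := Real.log_le_log (by linarith) hn3.le
  have hl0 : 0 < Real.log n := lt_of_lt_of_le hL hl1
  have hL3 : 0 < Real.log (3 * X) := lt_of_lt_of_le hl0 hl2
  have h1 : Real.log (3 * X) / Real.log (3 * X) ^ a ≤ Real.log n / Real.log n ^ a := by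
    have e1 : ∀ t : ℝ, 0 < t → t / t ^ a = t ^ (1 - a) := fun t ht => by
      rw [Real.rpow_sub ht, Real.rpow_one]
    rw [e1 _ hl0, e1 _ hL3]
    exact Real.rpow_le_rpow_of_nonpos hl0 hl2 (by linarith)
  have h2 : thq q b n ⌊Real.log X ^ a⌋₊ / (Real.log (3 * X) + 1) ≤
      ∑ h ∈ Icc 1 ⌊Real.log n ^ a⌋₊, (if (n + h).Prime ∧ n + h ≡ b [MOD q] then (1 : ℝ) else 0) := by
    unfold thq
    rw [sum_div]
    calc ∑ h ∈ Icc 1 ⌊Real.log X ^ a⌋₊, (if n + h ≡ b [MOD q] then th (n + h) else 0) / (Real.log (3 * X) + 1) ≤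
        ∑ h ∈ Icc 1 ⌊Real.log X ^ a⌋₊, (if (n + h).Prime ∧ n + h ≡ b [MOD q] then (1 : ℝ) else 0) := by
          refine sum_le_sum fun h hh => ?_
          rw [mem_Icc] at hh
          unfold th
          by_cases hb : n + h ≡ b [MOD q]
          · simp only [hb, and_true, if_true]
            split_ifs
            · rw [div_le_one (by linarith)]
              have e1 : ((n + h : ℕ) : ℝ) ≤ 3 * X * Real.exp 1 := by
                have e2 : (h : ℝ) ≤ Real.log X ^ a := le_trans (by exact_mod_cast hh.2) (Nat.floor_le (by positivity))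
                have e3 := Real.add_one_le_exp 1
                push_cast
                nlinarith
              have e4 := Real.log_le_log (by have : (0 : ℝ) < n := by linarith
                                             push_cast
                                             positivity) e1
              rw [Real.log_mul (by positivity) (Real.exp_pos 1).ne', Real.log_exp] at e4
              exact e4
            · simp
          · simp only [hb, and_false, if_false]
            simp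
      _ ≤ _ := by
          apply sum_le_sum_of_subset_of_nonneg
          · intro h hh
            rw [mem_Icc] at hh ⊢
            refine ⟨hh.1, hh.2.trans (Nat.floor_le_floor ?_)⟩
            exact Real.rpow_le_rpow hL.le hl1 (by linarith)
          · intro h _ _
            split_ifs <;> norm_num
  have h3 : 0 ≤ Real.log (n : ℝ) / Real.log n ^ a := by positivity
  calc _ = Real.log (3 * X) / Real.log (3 * X) ^ a * (thq q b n ⌊Real.log X ^ a⌋₊ / (Real.log (3 * X) + 1)) := by ring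
    _ ≤ _ := by
        apply mul_le_mul h1 h2 _ h3
        exact div_nonneg (thq_nonneg _ _ _ _) (by linarith)

/-- the number of `h ≤ Y` in the class `b` mod `q` without divisors in `s` -/
def cntq (s : Finset ℕ) (q b Y : ℕ) : ℕ := ((Ioc 0 Y).filter (fun h => h ≡ b [MOD q] ∧ ∀ p ∈ s, ¬ p ∣ h)).card

/-- means of `thq` -/
theorem EX_thq (q b : ℕ) (X : ℝ) (s : Finset ℕ) (hs : ∀ p ∈ s, p.Prime) (Q : ℕ) (hq : q ∣ Q) (Y : ℕ) (ε : ℝ)
    (h : ∀ h : ℕ, h ≤ Y → |EX X Q (fun n => th (n + h)) - (if h.Coprime (∏ p ∈ s, p) then (PP s)⁻¹ else 0)| ≤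
          ε * (1 + (if h.Coprime (∏ p ∈ s, p) then (PP s)⁻¹ else 0))) (hε : 0 ≤ ε) :
    |EX X Q (fun n => thq q b n Y) - cntq s q b Y * (PP s)⁻¹| ≤ ε * (Y + cntq s q b Y * (PP s)⁻¹) := by
  have e1 : EX X Q (fun n => thq q b n Y) = ∑ h ∈ (Ioc 0 Y).filter (fun h => h ≡ b [MOD q]), EX X Q (fun n => th (n + h)) := by
    unfold EX thq
    rw [← sum_div]
    congr 1
    rw [sum_comm]
    refine sum_congr rfl fun n _ => ?_
    unfold nu
    by_cases hn : n ≡ 0 [MOD Q]
    · simp only [if_pos hn]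
      rw [← mul_sum, sum_filter]
      congr 1
      have e2 : Icc 1 Y = Ioc 0 Y := by ext x; rw [mem_Icc, mem_Ioc]; omega
      rw [e2]
      refine sum_congr rfl fun h _ => ?_
      have e3 : n ≡ 0 [MOD q] := hn.of_dvd hq
      have e4 : n + h ≡ b [MOD q] ↔ h ≡ b [MOD q] := by
        have e5 : n + h ≡ h [MOD q] := by simpa using Nat.ModEq.add_right h e3
        exact ⟨fun h6 => e5.symm.trans h6, fun h6 => e5.trans h6⟩
      simp only [e4]
    · simp only [if_neg hn, zero_mul, sum_const_zero]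
  have e2 : (cntq s q b Y : ℝ) * (PP s)⁻¹ = ∑ h ∈ (Ioc 0 Y).filter (fun h => h ≡ b [MOD q]),
      (if h.Coprime (∏ p ∈ s, p) then (PP s)⁻¹ else 0) := by
    rw [← sum_filter, sum_const, nsmul_eq_mul]
    congr 2
    unfold cntq
    rw [filter_filter]
    congr 1
    ext h
    simp only [mem_filter, cop_iff s hs]
  have e3 : (((Ioc 0 Y).filter (fun h => h ≡ b [MOD q])).card : ℝ) ≤ Y := by
    have := card_filter_le (Ioc 0 Y) (fun h => h ≡ b [MOD q])
    rw [Nat.card_Ioc, Nat.sub_zero] at this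
    exact_mod_cast this
  rw [e1]
  rw [e2, ← sum_sub_distrib]
  refine (abs_sum_le_sum_abs _ _).trans ?_
  calc _ ≤ ∑ h ∈ (Ioc 0 Y).filter (fun h => h ≡ b [MOD q]), ε * (1 + (if h.Coprime (∏ p ∈ s, p) then (PP s)⁻¹ else 0)) := by
        refine sum_le_sum fun h' hh => h h' ?_
        exact (mem_Ioc.1 (mem_filter.1 hh).1).2
    _ = ε * (((Ioc 0 Y).filter (fun h => h ≡ b [MOD q])).card + ∑ h ∈ (Ioc 0 Y).filter (fun h => h ≡ b [MOD q]),
      (if h.Coprime (∏ p ∈ s, p) then (PP s)⁻¹ else 0)) := by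
        rw [← mul_sum, sum_add_distrib, sum_const, nsmul_eq_mul, mul_one]
    _ ≤ _ := by
        apply mul_le_mul_of_nonneg_left _ hε
        linarith

theorem cntq_add (s : Finset ℕ) (q b Y Z : ℕ) (h : Y ≤ Z) : (cntq s q b Z : ℝ) ≤ cntq s q b Y + (Z - Y) := by
  have h1 : cntq s q b Z ≤ cntq s q b Y + (Z - Y) := by
    unfold cntq
    have e1 : Ioc 0 Z = Ioc 0 Y ∪ Ioc Y Z := (Ioc_union_Ioc_eq_Ioc (Nat.zero_le _) h).symm
    rw [e1, filter_union]
    refine (card_union_le _ _).trans ?_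
    apply Nat.add_le_add_left
    refine (card_filter_le _ _).trans ?_
    simp
  have h2 : ((cntq s q b Z : ℕ) : ℝ) ≤ ((cntq s q b Y + (Z - Y) : ℕ) : ℝ) := by exact_mod_cast h1
  push_cast [Nat.cast_sub h] at h2
  linarith

/-- the normalised number of integers up to `L ^ a` of the class `b` prime to all elements of `s` -/
noncomputable def cXq (s : Finset ℕ) (q b : ℕ) (L a : ℝ) : ℝ := q.totient * (cntq s q b ⌊L ^ a⌋₊ : ℝ) / (L ^ a * PP s)

end Pool.Agent.W5h25.PR
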