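import Pool.Agent.W5h25.PR.B

/-! The mean value of `RR`. -/

set_option autoImplicit false

open Finset Filter Topology
open Pool.Agent.H378R2 Pool.Agent.H510R2.Maier
open Pool.Agent.W5h22.JM

namespace Pool.Agent.W5h25.PR

theorem pow_lin (B : ℕ) (t : ℝ) (h0 : 0 ≤ t) (h1 : t ≤ 1) : (1 + t) ^ B ≤ 1 + (2 ^ B - 1) * t := by
  induction B with
  | zero => simp
  | succ B ih =>
    have h2 : (1 : ℝ) ≤ 2 ^ B := one_le_pow₀ (by norm_num)
    have h3 : t * t ≤ t := by nlinarith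
    rw [pow_succ, pow_succ]
    have h4 : (1 + t) ^ B * (1 + t) ≤ (1 + (2 ^ B - 1) * t) * (1 + t) := mul_le_mul_of_nonneg_right ih (by linarith)
    have h5 : (2 ^ B - 1) * (t * t) ≤ (2 ^ B - 1) * t := mul_le_mul_of_nonneg_left h3 (by linarith)
    nlinarith

theorem ev_ratio (B : ℕ) (v C ε : ℝ) (hv : v < 1) (hC : 0 < C) (hε : 0 < ε) : ∀ᶠ X : ℝ in atTop,
    C * (Real.log X) ^ v * ((Real.log (3 * X) / Real.log X) ^ B - 1 + 1 / Real.log X) ≤ ε := by
  have h1 : Tendsto (fun L : ℝ => L ^ (1 - v)) atTop atTop := tendsto_rpow_atTop (by linarith)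
  filter_upwards [Real.tendsto_log_atTop.eventually (h1.eventually_ge_atTop (C * (2 ^ B * 2 + 1) / ε)),
    Real.tendsto_log_atTop.eventually_ge_atTop (2 : ℝ), eventually_gt_atTop (0 : ℝ)] with X h2 h3 h4
  set L := Real.log X with hL
  have hL0 : 0 < L := by linarith
  have hl3 : Real.log 3 ≤ 2 := by
    rw [Real.log_le_iff_le_exp (by norm_num)]
    have := Real.add_one_le_exp 2
    linarith
  have hl30 : 0 ≤ Real.log 3 := Real.log_nonneg (by norm_num)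
  have e1 : Real.log (3 * X) / L = 1 + Real.log 3 / L := by
    rw [Real.log_mul (by norm_num) h4.ne', add_div, div_self hL0.ne', add_comm]
  have e2 : (Real.log (3 * X) / L) ^ B ≤ 1 + (2 ^ B - 1) * (Real.log 3 / L) := by
    rw [e1]
    apply pow_lin B _ (by positivity)
    rw [div_le_one hL0]; linarith
  have h5 : (1 : ℝ) ≤ 2 ^ B := one_le_pow₀ (by norm_num)
  have e3 : (Real.log (3 * X) / L) ^ B - 1 + 1 / L ≤ (2 ^ B * 2 + 1) / L := by
    have e4 : (2 ^ B - 1) * (Real.log 3 / L) ≤ 2 ^ B * (2 / L) := by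
      apply mul_le_mul (by linarith) _ (by positivity) (by positivity)
      exact div_le_div_of_nonneg_right hl3 hL0.le
    have e5 : (2 ^ B * 2 + 1) / L = 2 ^ B * (2 / L) + 1 / L := by ring
    rw [e5]
    linarith
  have hLv : 0 < L ^ v := Real.rpow_pos_of_pos hL0 v
  have e6 : L = L ^ (1 - v) * L ^ v := by rw [← Real.rpow_add hL0]; simp
  calc C * L ^ v * ((Real.log (3 * X) / L) ^ B - 1 + 1 / L) ≤ C * L ^ v * ((2 ^ B * 2 + 1) / L) :=
        mul_le_mul_of_nonneg_left e3 (by positivity)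
    _ = C * (2 ^ B * 2 + 1) / L ^ (1 - v) := by
        have h7 : 0 < L ^ (1 - v) := Real.rpow_pos_of_pos hL0 _
        rw [eq_div_iff h7.ne']
        nth_rewrite 2 [e6]
        field_simp
    _ ≤ ε := by
        have h7 : 0 < L ^ (1 - v) := Real.rpow_pos_of_pos hL0 _
        rw [div_le_iff₀ h7]
        rw [div_le_iff₀ hε] at h2
        linarith

/-- the mean value of `RR` -/
theorem mean_RR (q g Z B : ℕ) (hq : 0 < q) (hg : 0 < g) (v : ℝ) (hv : v < 1) (ε : ℝ) (hε : 0 < ε) :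
    ∀ᶠ X : ℝ in atTop, ∃ (ps : ℕ) (S : Finset ℕ), GoodP Z ps ∧ GoodS X S ∧
    ∀ s : Finset ℕ, s ⊆ PW X S ps → (∀ p : ℕ, p.Prime → p ∣ g → p ∈ s) → (PP s)⁻¹ ≤ (Real.log X) ^ v →
      q ∣ g * ∏ p ∈ s, p → 0 < NQ X (g * ∏ p ∈ s, p) ∧
      X / (40 * ((g * ∏ p ∈ s, p : ℕ) : ℝ)) ≤ NQ X (g * ∏ p ∈ s, p) ∧
      ∀ (b : ℕ) (a : ℝ), 1 ≤ a → a ≤ B →
        |EX X (g * ∏ p ∈ s, p) (fun n => RR q b a n) - cXq s q b (Real.log X) a| ≤ ε * (1 + cXq s q b (Real.log X) a) := by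
  have hφ1 : (1 : ℝ) ≤ q.totient := by exact_mod_cast Nat.totient_pos.2 hq
  set φ : ℝ := (q.totient : ℝ) with hφ
  have hφ0 : 0 < φ := by linarith
  set ε' : ℝ := min 1 (ε / (4 * φ)) with hε'
  have hε'0 : 0 < ε' := by positivity
  have hε'1 : ε' ≤ 1 := min_le_left _ _
  have hε'2 : 4 * φ * ε' ≤ ε := by
    have : ε' ≤ ε / (4 * φ) := min_le_right _ _
    rw [le_div_iff₀ (by positivity)] at this
    linarith
  have ev1 := mean_th2 g Z B hg ε' hε'0
  have ev2 := ev_ratio B v φ ε' hv hφ0 hε'0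
  have ev3 : ∀ᶠ X : ℝ in atTop, 1 - ε' < ((Real.log (3 * X) / Real.log X) ^ B)⁻¹ * (Real.log (3 * X) / (Real.log (3 * X) + 1)) := by
    have h1 := ((log3_lim.pow B).inv₀ (by rw [one_pow]; exact one_ne_zero)).mul log3_lim2
    apply h1.eventually_const_lt
    rw [one_pow, inv_one]; linarith
  have ev4 : ∀ᶠ X : ℝ in atTop, Real.log (3 * X) / Real.log X < 2 := log3_lim.eventually_lt_const (by norm_num)
  have ev5 : ∀ᶠ X : ℝ in atTop, (Real.log X) ^ B ≤ 3 * X := by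
    have h1 := (Real.isLittleO_pow_log_id_atTop (n := B)).bound (show (0 : ℝ) < 3 by norm_num)
    filter_upwards [h1, eventually_ge_atTop (1 : ℝ)] with X h2 h3
    rw [Real.norm_of_nonneg (pow_nonneg (Real.log_nonneg h3) B), id, Real.norm_of_nonneg (by linarith)] at h2
    linarith
  have ev6 : ∀ᶠ X : ℝ in atTop, (Real.log (3 * X) / Real.log X) ^ B < 2 :=
    (log3_lim.pow B).eventually_lt_const (by rw [one_pow]; norm_num)
  filter_upwards [ev1, ev2, ev3, ev4, ev5, ev6, eventually_ge_atTop (3 : ℝ), Real.tendsto_log_atTop.eventually_ge_atTop (1 : ℝ)] with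
    X h1 h2 h3 h4 h5 h8 h6 h7
  obtain ⟨ps, S, hGP, hS, hmain⟩ := h1
  refine ⟨ps, S, hGP, hS, fun s hs hgs hP hqs => ?_⟩
  obtain ⟨hN, hN40, hth⟩ := hmain s hs hgs
  refine ⟨hN, hN40, fun b a ha haB => ?_⟩
  have hsp : ∀ p ∈ s, p.Prime := fun p hp => (mem_PW.1 (hs hp)).2.1
  have hX0 : 0 < X := by linarith
  set L := Real.log X with hL
  set L3 := Real.log (3 * X) with hL3
  set Q := g * ∏ p ∈ s, p with hQ
  have hL0 : 0 < L := by linarith
  have hLL3 : L ≤ L3 := Real.log_le_log hX0 (by linarith)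
  have hL30 : 0 < L3 := by linarith
  have hL32 : L3 ≤ 2 * L := by
    rw [div_lt_iff₀ hL0] at h4; exact h4.le
  have hP0 : 0 < PP s := PP_pos s hsp
  set P := (PP s)⁻¹ with hPdef
  have hPi0 : 0 < P := by positivity
  -- means of `thq`
  have hthw : ∀ y : ℝ, 0 ≤ y → y ≤ (2 * L) ^ B →
      |EX X Q (fun n => thq q b n ⌊y⌋₊) - cntq s q b ⌊y⌋₊ * P| ≤ ε' * (y + cntq s q b ⌊y⌋₊ * P) := by
    intro y hy hyB
    have e1 := EX_thq q b X s hsp Q hqs ⌊y⌋₊ ε' (fun h hh => hth h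
      ((le_trans (by exact_mod_cast hh) (Nat.floor_le hy)).trans hyB)) hε'0.le
    refine e1.trans ?_
    apply mul_le_mul_of_nonneg_left _ hε'0.le
    have := Nat.floor_le hy
    linarith
  have hpow : ∀ t : ℝ, 1 ≤ t → t ≤ 2 * L → t ^ a ≤ (2 * L) ^ B := by
    intro t ht1 ht
    calc t ^ a ≤ (2 * L) ^ a := Real.rpow_le_rpow (by linarith) ht (by linarith)
      _ ≤ (2 * L) ^ (B : ℝ) := Real.rpow_le_rpow_of_exponent_le (by linarith) haB
      _ = _ := Real.rpow_natCast _ _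
  have hy : 0 < L ^ a := Real.rpow_pos_of_pos hL0 a
  have hy3 : 0 < L3 ^ a := Real.rpow_pos_of_pos hL30 a
  have hyy : L ^ a ≤ L3 ^ a := Real.rpow_le_rpow hL0.le hLL3 (by linarith)
  have hLa : L ≤ L ^ a := by
    calc L = L ^ (1 : ℝ) := (Real.rpow_one L).symm
      _ ≤ _ := Real.rpow_le_rpow_of_exponent_le h7 ha
  have hρ : L3 ^ a / L ^ a ≤ (L3 / L) ^ B := by
    rw [← Real.div_rpow hL30.le hL0.le, ← Real.rpow_natCast]
    exact Real.rpow_le_rpow_of_exponent_le (by rw [le_div_iff₀ hL0]; linarith) haB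
  have hρ1 : 1 ≤ L3 ^ a / L ^ a := by rw [le_div_iff₀ hy]; linarith
  set c1 : ℝ := (cntq s q b ⌊L ^ a⌋₊ : ℝ) with hc1
  set c3 : ℝ := (cntq s q b ⌊L3 ^ a⌋₊ : ℝ) with hc3
  have hc10 : 0 ≤ c1 := Nat.cast_nonneg _
  have hcX : cXq s q b L a = φ * (c1 * P / L ^ a) := by
    unfold cXq
    rw [← hc1, ← hφ, hPdef]
    field_simp
  set c := cXq s q b L a with hc
  have hc0 : 0 ≤ c := by rw [hcX]; positivity
  rw [abs_le]
  constructor
  · -- lower bound
    have e1 := EX_mono X hX0 Q hN (fun n => φ * (L3 / L3 ^ a / (L3 + 1)) * thq q b n ⌊L ^ a⌋₊) (fun n => RR q b a n)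
      (fun n hn hn3 => RR_low q b X a n h6 ha hn hn3 (by
        calc L ^ a ≤ L ^ (B : ℝ) := Real.rpow_le_rpow_of_exponent_le h7 haB
          _ = L ^ B := Real.rpow_natCast _ _
          _ ≤ _ := h5))
    rw [EX_mul] at e1
    have e2 := (abs_le.1 (hthw (L ^ a) hy.le (hpow L h7 (by linarith)))).1
    have hθ0 : 0 ≤ φ * (L3 / L3 ^ a / (L3 + 1)) := by positivity
    set θ := L3 / L3 ^ a / (L3 + 1) * L ^ a with hθ
    have e3 : θ * (c - ε' * (φ + c)) ≤ φ * (L3 / L3 ^ a / (L3 + 1)) * EX X Q (fun n => thq q b n ⌊L ^ a⌋₊) := by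
      have e4 : θ * (c - ε' * (φ + c)) = φ * (L3 / L3 ^ a / (L3 + 1)) * (c1 * P - ε' * (L ^ a + c1 * P)) := by
        rw [hcX, hθ]; field_simp
      rw [e4]
      apply mul_le_mul_of_nonneg_left _ hθ0
      linarith
    have hθeq : θ = (L3 ^ a / L ^ a)⁻¹ * (L3 / (L3 + 1)) := by
      rw [hθ]; field_simp
    have hθ1 : θ ≤ 1 := by
      rw [hθeq]
      have q1 : (L3 ^ a / L ^ a)⁻¹ ≤ 1 := inv_le_one_of_one_le₀ hρ1
      have q2 : L3 / (L3 + 1) ≤ 1 := by rw [div_le_one (by linarith)]; linarith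
      have q3 : 0 ≤ (L3 ^ a / L ^ a)⁻¹ := by positivity
      have q4 : 0 ≤ L3 / (L3 + 1) := by positivity
      nlinarith
    have hθ2 : 1 - ε' < θ := by
      rw [hθeq]
      refine lt_of_lt_of_le h3 ?_
      apply mul_le_mul_of_nonneg_right _ (by positivity)
      exact inv_anti₀ (by positivity) hρ
    have hθ3 : 0 ≤ θ := by positivity
    have e5 : θ * (c - ε' * (φ + c)) = c - (1 - θ) * c - θ * (ε' * (φ + c)) := by ring
    have e6 : (1 - θ) * c ≤ ε' * c := mul_le_mul_of_nonneg_right (by linarith) hc0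
    have e7 : θ * (ε' * (φ + c)) ≤ 1 * (ε' * (φ + c)) := mul_le_mul_of_nonneg_right hθ1 (by positivity)
    have e8 : ε' * c ≤ φ * ε' * c := by
      have : 0 ≤ ε' * c := by positivity
      nlinarith
    have e9 : 4 * φ * ε' * c ≤ ε * c := mul_le_mul_of_nonneg_right hε'2 hc0
    have e10 : 0 ≤ φ * ε' := by positivity
    have e11 : 0 ≤ φ * ε' * c := by positivity
    nlinarith
  · -- upper bound
    have e1 := EX_mono X hX0 Q hN (fun n => RR q b a n) (fun n => φ * (L ^ a)⁻¹ * thq q b n ⌊L3 ^ a⌋₊)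
      (fun n hn hn3 => RR_up q b X a n h6 ha hn hn3)
    rw [EX_mul] at e1
    have e2 := (abs_le.1 (hthw (L3 ^ a) hy3.le (hpow L3 (by linarith) hL32))).2
    rw [← hc3] at e2
    have e3 : c3 ≤ c1 + (⌊L3 ^ a⌋₊ - ⌊L ^ a⌋₊) := cntq_add s q b ⌊L ^ a⌋₊ ⌊L3 ^ a⌋₊ (Nat.floor_le_floor hyy)
    have e4 : (⌊L3 ^ a⌋₊ : ℝ) ≤ L3 ^ a := Nat.floor_le hy3.le
    have e5 : L ^ a < ⌊L ^ a⌋₊ + 1 := Nat.lt_floor_add_one _
    have e6 : c3 * P ≤ c1 * P + (L3 ^ a - L ^ a + 1) * P := by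
      rw [← add_mul]
      apply mul_le_mul_of_nonneg_right _ hPi0.le
      linarith
    set D := φ * P * (L3 ^ a / L ^ a - 1 + 1 / L ^ a) with hD
    have hD1 : D ≤ ε' := by
      refine le_trans ?_ h2
      have q1 : 1 / L ^ a ≤ 1 / L := one_div_le_one_div_of_le hL0 hLa
      rw [hD]
      apply mul_le_mul (mul_le_mul_of_nonneg_left hP hφ0.le) (by linarith)
      · have : 0 ≤ 1 / L ^ a := by positivity
        linarith
      · have : 0 ≤ L ^ v := Real.rpow_nonneg hL0.le v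
        positivity
    have hD0 : 0 ≤ D := by
      have : 0 ≤ 1 / L ^ a := by positivity
      have : 0 ≤ L3 ^ a / L ^ a - 1 + 1 / L ^ a := by linarith
      positivity
    have e7 : φ * (L ^ a)⁻¹ * EX X Q (fun n => thq q b n ⌊L3 ^ a⌋₊) ≤
        (1 + ε') * (c + D) + ε' * (φ * (L3 ^ a / L ^ a)) := by
      have q1 : (1 + ε') * (c + D) + ε' * (φ * (L3 ^ a / L ^ a)) =
          φ * (L ^ a)⁻¹ * ((1 + ε') * (c1 * P + (L3 ^ a - L ^ a + 1) * P) + ε' * L3 ^ a) := by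
        rw [hcX, hD]; field_simp
      rw [q1]
      apply mul_le_mul_of_nonneg_left _ (by positivity)
      have q2 : (1 + ε') * (c3 * P) ≤ (1 + ε') * (c1 * P + (L3 ^ a - L ^ a + 1) * P) :=
        mul_le_mul_of_nonneg_left e6 (by linarith)
      nlinarith
    have e8 : ε' * (φ * (L3 ^ a / L ^ a)) ≤ ε' * (φ * 2) := by
      apply mul_le_mul_of_nonneg_left _ hε'0.le
      exact mul_le_mul_of_nonneg_left (hρ.trans h8.le) hφ0.le
    have e9 : (1 + ε') * D ≤ 2 * ε' := mul_le_mul (by linarith) hD1 hD0 (by norm_num)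
    have e10 : ε' * c ≤ ε * c := mul_le_mul_of_nonneg_right (by nlinarith) hc0
    have e11 : ε' ≤ φ * ε' := by nlinarith
    nlinarith

end Pool.Agent.W5h25.PR
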