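import Pool.Agent.W5h25.PR.B
import Pool.Agent.H387R2.U3

/-! Primes of a residue class. -/

set_option autoImplicit false

open Finset Filter Topology
open Pool.Agent.H378R2 Pool.Agent.H510R2.Maier
open Pool.Agent.W5h22.JM

namespace Pool.Agent.W5h25.PR

theorem pnt_nat_ap (q b : ℕ) (hq : 1 ≤ q) (hb : b.Coprime q) :
    Tendsto (fun n : ℕ => (piAP q b n : ℝ) * Real.log n / n) atTop (𝓝 (1 / (q.totient : ℝ))) := by
  obtain ⟨x0, hx0⟩ := Pool.Agent.H387R2.Uni.siegel
  have hφ : (0 : ℝ) < q.totient := by exact_mod_cast Nat.totient_pos.2 hq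
  have h1 : Tendsto (fun n : ℕ => (Nat.primeCounting n : ℝ) * Real.log n / n) atTop (𝓝 1) := by
    have h := Pool.Agent.Helper507.PNT.pi_tendsto.comp (tendsto_natCast_atTop_atTop (R := ℝ))
    refine h.congr fun n => ?_
    simp only [Function.comp, Nat.floor_natCast]
  have hlog : Tendsto (fun n : ℕ => Real.log n) atTop atTop := Real.tendsto_log_atTop.comp tendsto_natCast_atTop_atTop
  have h2 : Tendsto (fun n : ℕ => 1 / (Real.log n) ^ 5) atTop (𝓝 0) :=
    tendsto_const_nhds.div_atTop ((tendsto_pow_atTop (by norm_num)).comp hlog)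
  have h3 := h1.mul_const (1 / (q.totient : ℝ))
  rw [one_mul] at h3
  have h4 : Tendsto (fun n : ℕ => (piAP q b n : ℝ) * Real.log n / n - (Nat.primeCounting n : ℝ) * Real.log n / n * (1 / (q.totient : ℝ)))
      atTop (𝓝 0) := by
    apply squeeze_zero_norm' _ h2
    filter_upwards [eventually_ge_atTop x0, hlog.eventually_ge_atTop (q : ℝ), hlog.eventually_ge_atTop (1 : ℝ),
      eventually_ge_atTop 1] with n hn1 hn2 hn3 hn4
    have hq1 : (1 : ℝ) ≤ q := by exact_mod_cast hq
    have h5 := hx0 n hn1 q hq (by nlinarith) (b % q) (Nat.mod_lt _ hq) (by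
      rw [Nat.Coprime, ← Nat.gcd_rec, Nat.gcd_comm]; exact hb)
    rw [Pool.Agent.H387R2.Uni.pi1_eq] at h5
    have h7 : H343E.piAP n q (b % q) = (piAP q b n : ℝ) := by
      unfold H343E.piAP piAP
      rw [Nat.floor_natCast]
      congr 2
      ext p
      simp only [mem_filter, and_congr_right_iff]
      intro _ _
      exact ⟨fun h => h.trans (Nat.mod_modEq b q), fun h => h.trans (Nat.mod_modEq b q).symm⟩
    rw [h7] at h5
    have hn0 : (0 : ℝ) < n := by exact_mod_cast hn4
    have hL : 0 < Real.log (n : ℝ) := by linarith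
    have h8 : (piAP q b n : ℝ) * Real.log n / n - (Nat.primeCounting n : ℝ) * Real.log n / n * (1 / (q.totient : ℝ)) =
        ((piAP q b n : ℝ) - Nat.primeCounting n / q.totient) * (Real.log n / n) := by
      field_simp
    rw [h8, norm_mul, Real.norm_eq_abs, Real.norm_eq_abs, abs_of_nonneg (show (0 : ℝ) ≤ Real.log n / n by positivity)]
    calc _ ≤ n / Real.log n ^ 6 * (Real.log n / n) := mul_le_mul_of_nonneg_right h5 (by positivity)
      _ = 1 / (Real.log n) ^ 5 := by field_simp
  have h5 := h4.add h3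
  rw [zero_add] at h5
  refine h5.congr fun n => ?_
  ring

theorem pnt_ap (q b : ℕ) (hq : 1 ≤ q) (hb : b.Coprime q) :
    Tendsto (fun x : ℝ => (piAP q b x : ℝ) * Real.log x / x) atTop (𝓝 (1 / (q.totient : ℝ))) := by
  have h1 := (pnt_nat_ap q b hq hb).comp (tendsto_nat_floor_atTop (α := ℝ))
  have h2 := (tendsto_nat_floor_div_atTop (R := ℝ)).div log_floor_div one_ne_zero
  have h3 := h1.mul h2
  rw [div_one, mul_one] at h3
  refine h3.congr' ?_
  filter_upwards [eventually_ge_atTop (3 : ℝ)] with x hx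
  have h4 : (2 : ℝ) ≤ ⌊x⌋₊ := by
    exact_mod_cast Nat.le_floor (by norm_num; linarith)
  have h5 : 0 < Real.log ⌊x⌋₊ := Real.log_pos (by linarith)
  have h6 : 0 < Real.log x := Real.log_pos (by linarith)
  have h7 : piAP q b (⌊x⌋₊ : ℝ) = piAP q b x := by
    unfold piAP
    rw [Nat.floor_natCast]
  simp only [Function.comp, Pi.div_apply]
  rw [h7]
  have h8 : (0 : ℝ) < ⌊x⌋₊ := by linarith
  have h9 : 0 < x := by linarith
  field_simp

/-- lower bound for the number of primes -/
theorem pi_low (q b : ℕ) (hq : 1 ≤ q) (hb : b.Coprime q) :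
    ∀ᶠ x : ℝ in atTop, x / (2 * q.totient * Real.log x) ≤ piAP q b x := by
  have hφ : (0 : ℝ) < q.totient := by exact_mod_cast Nat.totient_pos.2 hq
  have h1 : 1 / (2 * (q.totient : ℝ)) < 1 / (q.totient : ℝ) := by
    apply one_div_lt_one_div_of_lt hφ; linarith
  filter_upwards [(pnt_ap q b hq hb).eventually_const_lt h1, eventually_gt_atTop (1 : ℝ)] with x h2 h3
  have h4 : 0 < Real.log x := Real.log_pos h3
  have h5 : 0 < x := by linarith
  rw [lt_div_iff₀ h5] at h2
  rw [div_le_iff₀ (by positivity)]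
  rw [one_div, inv_mul_lt_iff₀ (by positivity)] at h2
  nlinarith

/-- reciprocals of the primes in `(x, 4 x]` -/
theorem rec_low (q b : ℕ) (hq : 1 ≤ q) (hb : b.Coprime q) :
    ∀ᶠ x : ℝ in atTop, 1 / (4 * q.totient * Real.log (4 * x)) ≤
      ∑ p ∈ (Icc 1 ⌊4 * x⌋₊).filter (fun p => p.Prime ∧ p ≡ b [MOD q] ∧ x < p), (p : ℝ)⁻¹ := by
  have hφ : (0 : ℝ) < q.totient := by exact_mod_cast Nat.totient_pos.2 hq
  have h4x : Tendsto (fun x : ℝ => 4 * x) atTop atTop := tendsto_id.const_mul_atTop (by norm_num : (0 : ℝ) < 4)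
  have h1 := (pnt_ap q b hq hb).comp h4x
  have h2 := pnt_ap q b hq hb
  have h3 : Tendsto (fun x : ℝ => Real.log (4 * x) / Real.log x) atTop (𝓝 1) := by
    have h1 : Tendsto (fun X : ℝ => Real.log 4 / Real.log X + 1) atTop (𝓝 (0 + 1)) :=
      (tendsto_const_nhds.div_atTop Real.tendsto_log_atTop).add_const 1
    rw [zero_add] at h1
    refine h1.congr' ?_
    filter_upwards [eventually_gt_atTop (1 : ℝ)] with X hX
    have : 0 < Real.log X := Real.log_pos hX
    rw [Real.log_mul (by norm_num) (by linarith)]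
    field_simp
  have h4 := (h1.const_mul 4).sub (h2.mul h3)
  have h5 : 1 / (q.totient : ℝ) < 4 * (1 / (q.totient : ℝ)) - 1 / (q.totient : ℝ) * 1 := by
    have : 0 < 1 / (q.totient : ℝ) := by positivity
    linarith
  filter_upwards [h4.eventually_const_lt h5, eventually_gt_atTop (1 : ℝ)] with x h6 h7
  have hx0 : 0 < x := by linarith
  have hl : 0 < Real.log x := Real.log_pos h7
  have hl4 : 0 < Real.log (4 * x) := Real.log_pos (by linarith)
  simp only [Function.comp] at h6
  have h8 : 4 * ((piAP q b (4 * x) : ℝ) * Real.log (4 * x) / (4 * x)) - (piAP q b x : ℝ) * Real.log x / x * (Real.log (4 * x) / Real.log x) =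
      ((piAP q b (4 * x) : ℝ) - piAP q b x) * (Real.log (4 * x) / x) := by
    field_simp
  rw [h8] at h6
  set T := (Icc 1 ⌊4 * x⌋₊).filter (fun p => p.Prime ∧ p ≡ b [MOD q] ∧ x < p) with hT
  have h9 : (piAP q b (4 * x) : ℝ) ≤ piAP q b x + T.card := by
    have : piAP q b (4 * x) ≤ piAP q b x + T.card := by
      unfold piAP
      rw [hT]
      refine le_trans (card_le_card ?_) (card_union_le _ _)
      intro p hp
      rw [mem_filter, mem_Icc] at hp
      rw [mem_union, mem_filter, mem_filter, mem_Icc, mem_Icc]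
      by_cases hpx : (p : ℝ) ≤ x
      · exact Or.inl ⟨⟨hp.1.1, Nat.le_floor hpx⟩, hp.2⟩
      · exact Or.inr ⟨hp.1, hp.2.1, hp.2.2, not_le.1 hpx⟩
    exact_mod_cast this
  have h10 : 1 / (q.totient : ℝ) < T.card * (Real.log (4 * x) / x) := by
    refine lt_of_lt_of_le h6 ?_
    apply mul_le_mul_of_nonneg_right _ (by positivity)
    linarith
  have h11 : T.card * (4 * x)⁻¹ ≤ ∑ p ∈ T, (p : ℝ)⁻¹ := by
    rw [← nsmul_eq_mul, ← sum_const]
    refine sum_le_sum fun p hp => ?_
    rw [hT, mem_filter, mem_Icc] at hp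
    apply inv_anti₀
    · linarith [hp.2.2.2]
    · exact (Nat.le_floor_iff (by positivity)).1 hp.1.2
  refine le_trans ?_ h11
  have h12 : 1 / (4 * q.totient * Real.log (4 * x)) = (1 / (q.totient : ℝ)) * (4 * Real.log (4 * x))⁻¹ := by
    field_simp
  rw [h12]
  have h13 : (T.card : ℝ) * (4 * x)⁻¹ = T.card * (Real.log (4 * x) / x) * (4 * Real.log (4 * x))⁻¹ := by
    field_simp
  rw [h13]
  exact mul_le_mul_of_nonneg_right h10.le (by positivity)

end Pool.Agent.W5h25.PR
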