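import Pool.Agent.W5h25.PR.D

/-! Sums over the primes of a residue class in `(L^α, L^γ]`; sums over products of few primes. -/

set_option autoImplicit false

open Finset Filter Topology
open Pool.Agent.H378R2 Pool.Agent.H510R2.Maier
open Pool.Agent.W5h22.JM

namespace Pool.Agent.W5h25.PR

/-- the primes of `(x, y]` in the class `b` mod `q` -/
noncomputable def Pq (q b : ℕ) (x y : ℝ) : Finset ℕ :=
  (Icc 1 ⌊y⌋₊).filter (fun p => p.Prime ∧ p ≡ b [MOD q] ∧ x < p)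

theorem mem_Pq {q b p : ℕ} {x y : ℝ} (hy : 0 ≤ y) :
    p ∈ Pq q b x y ↔ p.Prime ∧ p ≡ b [MOD q] ∧ x < p ∧ (p : ℝ) ≤ y := by
  unfold Pq
  rw [mem_filter, mem_Icc]
  constructor
  · rintro ⟨⟨h1, h2⟩, h3, h4, h5⟩
    exact ⟨h3, h4, h5, (Nat.le_floor_iff hy).1 h2⟩
  · rintro ⟨h3, h4, h5, h6⟩
    exact ⟨⟨h3.one_lt.le, Nat.le_floor h6⟩, h3, h4, h5⟩

/-- reciprocals of the primes up to `x` in a class -/
noncomputable def Fq (q b : ℕ) (x : ℝ) : ℝ := ∑ p ∈ (Icc 1 ⌊x⌋₊).filter (fun p => p.Prime ∧ p ≡ b [MOD q]), (p : ℝ)⁻¹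

theorem Fq_sub (q b : ℕ) (x y : ℝ) (hx : 0 ≤ x) (hxy : x ≤ y) :
    Fq q b y - Fq q b x = ∑ p ∈ Pq q b x y, (p : ℝ)⁻¹ := by
  unfold Fq
  have h1 : (Icc 1 ⌊y⌋₊).filter (fun p => p.Prime ∧ p ≡ b [MOD q]) =
      (Icc 1 ⌊x⌋₊).filter (fun p => p.Prime ∧ p ≡ b [MOD q]) ∪ Pq q b x y := by
    ext p
    rw [mem_union, mem_Pq (hx.trans hxy), mem_filter, mem_filter, mem_Icc, mem_Icc]
    constructor
    · rintro ⟨⟨h1, h2⟩, h3, h4⟩
      by_cases h5 : (p : ℝ) ≤ x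
      · exact Or.inl ⟨⟨h1, Nat.le_floor h5⟩, h3, h4⟩
      · exact Or.inr ⟨h3, h4, not_le.1 h5, (Nat.le_floor_iff (hx.trans hxy)).1 h2⟩
    · rintro (⟨⟨h1, h2⟩, h3, h4⟩ | ⟨h3, h4, h5, h6⟩)
      · exact ⟨⟨h1, h2.trans (Nat.floor_le_floor hxy)⟩, h3, h4⟩
      · exact ⟨⟨h3.one_lt.le, Nat.le_floor h6⟩, h3, h4⟩
  have h2 : Disjoint ((Icc 1 ⌊x⌋₊).filter (fun p => p.Prime ∧ p ≡ b [MOD q])) (Pq q b x y) := by
    rw [Finset.disjoint_left]
    intro p hp hp2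
    rw [mem_filter, mem_Icc] at hp
    rw [mem_Pq (hx.trans hxy)] at hp2
    have := (Nat.le_floor_iff hx).1 hp.1.2
    linarith [hp2.2.2.1]
  rw [h1, sum_union h2]
  ring

theorem rec_pow (q b : ℕ) (hq : 1 ≤ q) (hb : b.Coprime q) (α γ : ℝ) (hα : 0 < α) (hαγ : α < γ) :
    ∀ᶠ L : ℝ in atTop, (γ - α) / (8 * q.totient * γ) ≤ ∑ p ∈ Pq q b (L ^ α) (L ^ γ), (p : ℝ)⁻¹ := by
  have hφ : (0 : ℝ) < q.totient := by exact_mod_cast Nat.totient_pos.2 hq
  obtain ⟨x0, hx0⟩ := eventually_atTop.1 (rec_low q b hq hb)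
  have hlog4 : Real.log 4 < 1.39 := by
    rw [show (4 : ℝ) = 2 ^ 2 by norm_num, Real.log_pow]
    have := Real.log_two_lt_d9
    push_cast; linarith
  have hlog40 : 0 < Real.log 4 := Real.log_pos (by norm_num)
  have hγ : 0 < γ := by linarith
  filter_upwards [(tendsto_rpow_atTop hα).eventually_ge_atTop (max x0 1), eventually_gt_atTop (1 : ℝ),
    Real.tendsto_log_atTop.eventually_ge_atTop (6 / (γ - α))] with L h1 h2 h3
  have hL0 : 0 < L := by linarith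
  have hl : 0 < Real.log L := Real.log_pos h2
  have hLα : 0 < L ^ α := Real.rpow_pos_of_pos hL0 α
  have hga : 0 < γ - α := by linarith
  set I := ⌊(γ - α) * Real.log L / Real.log 4⌋₊ with hI
  have hI1 : (I : ℝ) ≤ (γ - α) * Real.log L / Real.log 4 := Nat.floor_le (by positivity)
  have hI2 : (γ - α) * Real.log L / Real.log 4 < I + 1 := Nat.lt_floor_add_one _
  have hI3 : (γ - α) * Real.log L / 2 ≤ I := by
    have e1 : 6 ≤ (γ - α) * Real.log L := by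
      rw [div_le_iff₀ hga] at h3; linarith
    have e2 : (γ - α) * Real.log L / 1.39 ≤ (γ - α) * Real.log L / Real.log 4 := by
      apply div_le_div_of_nonneg_left (by positivity) hlog40 hlog4.le
    have e3 : (γ - α) * Real.log L / 1.39 ≥ (γ - α) * Real.log L * 0.71 := by
      rw [ge_iff_le, le_div_iff₀ (by norm_num)]
      nlinarith
    linarith
  have hend : ∀ i : ℕ, i ≤ I → L ^ α * 4 ^ i ≤ L ^ γ := by
    intro i hi
    have e1 : L ^ γ = L ^ α * Real.exp ((γ - α) * Real.log L) := by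
      rw [Real.rpow_def_of_pos hL0, Real.rpow_def_of_pos hL0, ← Real.exp_add]
      congr 1; ring
    rw [e1]
    apply mul_le_mul_of_nonneg_left _ hLα.le
    have e2 : (4 : ℝ) ^ i = Real.exp (i * Real.log 4) := by
      rw [mul_comm, Real.exp_mul, Real.exp_log (by norm_num), Real.rpow_natCast]
    rw [e2]
    apply Real.exp_le_exp.2
    have e3 : (i : ℝ) ≤ I := by exact_mod_cast hi
    rw [le_div_iff₀ hlog40] at hI1
    nlinarith
  have hstep : ∀ i : ℕ, i ≤ I → (i : ℝ) * (1 / (4 * q.totient * (γ * Real.log L))) ≤ Fq q b (L ^ α * 4 ^ i) - Fq q b (L ^ α) := by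
    intro i
    induction i with
    | zero => intro _; simp
    | succ i ih =>
      intro hi
      have e1 := ih (by omega)
      have h4i : (1 : ℝ) ≤ 4 ^ i := one_le_pow₀ (by norm_num)
      have e2 : x0 ≤ L ^ α * 4 ^ i := ((le_max_left _ _).trans h1).trans (le_mul_of_one_le_right hLα.le h4i)
      have e3 := hx0 _ e2
      have e4 : L ^ α * 4 ^ (i + 1) = 4 * (L ^ α * 4 ^ i) := by ring
      have e5 : Fq q b (L ^ α * 4 ^ (i + 1)) - Fq q b (L ^ α * 4 ^ i) = ∑ p ∈ Pq q b (L ^ α * 4 ^ i) (4 * (L ^ α * 4 ^ i)), (p : ℝ)⁻¹ := by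
        rw [e4]
        apply Fq_sub _ _ _ _ (by positivity)
        have : 0 ≤ L ^ α * 4 ^ i := by positivity
        linarith
      have e6 : 1 / (4 * q.totient * (γ * Real.log L)) ≤ 1 / (4 * q.totient * Real.log (4 * (L ^ α * 4 ^ i))) := by
        have e7 : 1 ≤ L ^ α := (le_max_right _ _).trans h1
        have e8 : 0 < Real.log (4 * (L ^ α * 4 ^ i)) := Real.log_pos (by nlinarith)
        apply one_div_le_one_div_of_le (by positivity)
        apply mul_le_mul_of_nonneg_left _ (by positivity)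
        rw [← Real.log_rpow hL0, ← e4]
        apply Real.log_le_log (by positivity) (hend (i + 1) hi)
      unfold Pq at e5
      push_cast
      rw [add_mul, one_mul]
      linarith
  have h4 := hstep I le_rfl
  have h5 : Fq q b (L ^ α * 4 ^ I) ≤ Fq q b (L ^ γ) := by
    have := Fq_sub q b (L ^ α * 4 ^ I) (L ^ γ) (by positivity) (hend I le_rfl)
    have h6 : 0 ≤ ∑ p ∈ Pq q b (L ^ α * 4 ^ I) (L ^ γ), (p : ℝ)⁻¹ := sum_nonneg fun p _ => by positivity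
    linarith
  rw [← Fq_sub q b (L ^ α) (L ^ γ) hLα.le (Real.rpow_le_rpow_of_exponent_le h2.le hαγ.le)]
  have h6 : (γ - α) / (8 * q.totient * γ) ≤ (I : ℝ) * (1 / (4 * q.totient * (γ * Real.log L))) := by
    rw [mul_one_div, div_le_div_iff₀ (by positivity) (by positivity)]
    have : (γ - α) * (4 * q.totient * (γ * Real.log L)) = (γ - α) * Real.log L / 2 * (8 * q.totient * γ) := by ring
    rw [this]
    exact mul_le_mul_of_nonneg_right hI3 (by positivity)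
  linarith

/-- upper bound for the sum of the reciprocals -/
theorem rec_up (q b : ℕ) (α β η : ℝ) (hα : 0 < α) (hαβ : α < β) (hη : 0 < η) :
    ∀ᶠ L : ℝ in atTop, ∑ p ∈ Pq q b (L ^ α) (L ^ β), (p : ℝ)⁻¹ ≤ Real.log (β / α) + η := by
  have hpowt : ∀ w : ℝ, 0 < w → Tendsto (fun L : ℝ => L ^ w) atTop atTop := fun w hw => tendsto_rpow_atTop hw
  have hβ0 : 0 < β := by linarith
  have hR := R1_diff (hpowt β hβ0) (hpowt α hα) (ρ := β / α) (by positivity) (by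
    refine tendsto_const_nhds.congr' ?_
    filter_upwards [eventually_gt_atTop (1 : ℝ)] with L hL
    have : 0 < Real.log L := Real.log_pos hL
    rw [Real.log_rpow (by linarith), Real.log_rpow (by linarith)]
    field_simp)
  have h1 : Real.log (β / α) < Real.log (β / α) + η := by linarith
  filter_upwards [hR.eventually_lt_const h1, eventually_gt_atTop (1 : ℝ)] with L h2 h3
  refine le_trans ?_ h2.le
  have hL0 : 0 < L := by linarith
  have hLα : 0 < L ^ α := Real.rpow_pos_of_pos hL0 α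
  have hLβ : 0 < L ^ β := Real.rpow_pos_of_pos hL0 β
  have hle : L ^ α ≤ L ^ β := Real.rpow_le_rpow_of_exponent_le h3.le hαβ.le
  unfold R1
  have hsub : (Icc 1 ⌊L ^ α⌋₊).filter Nat.Prime ⊆ (Icc 1 ⌊L ^ β⌋₊).filter Nat.Prime := by
    intro p hp
    rw [mem_filter, mem_Icc] at hp ⊢
    exact ⟨⟨hp.1.1, hp.1.2.trans (Nat.floor_le_floor hle)⟩, hp.2⟩
  rw [← sum_sdiff hsub, add_sub_cancel_right]
  simp only [one_div]
  apply sum_le_sum_of_subset_of_nonneg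
  · intro p hp
    rw [mem_Pq hLβ.le] at hp
    rw [Finset.mem_sdiff, mem_filter, mem_filter, mem_Icc, mem_Icc]
    refine ⟨⟨⟨hp.1.one_lt.le, Nat.le_floor hp.2.2.2⟩, hp.1⟩, ?_⟩
    rintro ⟨⟨_, h5⟩, _⟩
    have := (Nat.le_floor_iff hLα.le).1 h5
    linarith [hp.2.2.1]
  · intro p _ _
    positivity

/-- the sum over all products of distinct elements -/
noncomputable def ZZ (G : Finset ℕ) : ℝ := ∑ U ∈ G.powerset, (∏ p ∈ U, (p : ℝ))⁻¹

theorem ZZ_prod (G : Finset ℕ) : ZZ G = ∏ p ∈ G, (1 + (p : ℝ)⁻¹) := by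
  unfold ZZ
  rw [Finset.prod_one_add]
  refine sum_congr rfl fun U _ => ?_
  rw [prod_inv_distrib]

theorem ZZ_log (G : Finset ℕ) (hG : ∀ p ∈ G, 1 ≤ p) :
    ∑ U ∈ G.powerset, (∏ p ∈ U, (p : ℝ))⁻¹ * Real.log (∏ p ∈ U, (p : ℝ)) ≤ (∑ p ∈ G, Real.log p / p) * ZZ G := by
  induction G using Finset.induction_on with
  | empty => simp [ZZ]
  | insert a G ha ih =>
    have h1 := ih fun p hp => hG p (mem_insert_of_mem hp)
    have ha1 : (1 : ℝ) ≤ a := by exact_mod_cast hG a (mem_insert_self _ _)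
    have ha0 : (0 : ℝ) < a := by linarith
    have hZ0 : 0 ≤ ZZ G := sum_nonneg fun U _ => inv_nonneg.2 (prod_nonneg fun p _ => Nat.cast_nonneg p)
    have hs0 : 0 ≤ ∑ p ∈ G, Real.log p / p := sum_nonneg fun p hp => by
      have : (1 : ℝ) ≤ p := by exact_mod_cast hG p (mem_insert_of_mem hp)
      have := Real.log_nonneg this
      positivity
    have hl0 : 0 ≤ Real.log (a : ℝ) := Real.log_nonneg ha1
    rw [Finset.sum_powerset_insert ha, sum_insert ha]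
    have e1 : ∑ U ∈ G.powerset, (∏ p ∈ insert a U, (p : ℝ))⁻¹ * Real.log (∏ p ∈ insert a U, (p : ℝ)) =
        (a : ℝ)⁻¹ * ∑ U ∈ G.powerset, (∏ p ∈ U, (p : ℝ))⁻¹ * Real.log (∏ p ∈ U, (p : ℝ)) + (Real.log a / a) * ZZ G := by
      unfold ZZ
      rw [mul_sum, mul_sum, ← sum_add_distrib]
      refine sum_congr rfl fun U hU => ?_
      have haU : a ∉ U := fun h => ha ((mem_powerset.1 hU) h)
      have hU0 : (0 : ℝ) < ∏ p ∈ U, (p : ℝ) := prod_pos fun p hp => by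
        have : 1 ≤ p := hG p (mem_insert_of_mem ((mem_powerset.1 hU) hp))
        exact_mod_cast this
      rw [prod_insert haU, Real.log_mul ha0.ne' hU0.ne']
      field_simp
      ring
    have e2 : ZZ (insert a G) = (1 + (a : ℝ)⁻¹) * ZZ G := by
      rw [ZZ_prod, ZZ_prod, prod_insert ha]
    rw [e1, e2]
    have e3 : 0 ≤ Real.log (a : ℝ) / a := by positivity
    have e4 : 0 ≤ (a : ℝ)⁻¹ := by positivity
    have e5 : (a : ℝ)⁻¹ * ∑ U ∈ G.powerset, (∏ p ∈ U, (p : ℝ))⁻¹ * Real.log (∏ p ∈ U, (p : ℝ)) ≤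
        (a : ℝ)⁻¹ * ((∑ p ∈ G, Real.log p / p) * ZZ G) := mul_le_mul_of_nonneg_left h1 e4
    have e6 : 0 ≤ Real.log (a : ℝ) / a * ((a : ℝ)⁻¹ * ZZ G) := by positivity
    nlinarith

/-- most of the sum comes from small products -/
theorem ZZ_small (G : Finset ℕ) (hG : ∀ p ∈ G, 1 ≤ p) (M : ℝ) (hM : 1 < M) (h : ∑ p ∈ G, Real.log p / p ≤ Real.log M / 2) :
    ZZ G / 2 ≤ ∑ U ∈ G.powerset.filter (fun U : Finset ℕ => ∏ p ∈ U, (p : ℝ) ≤ M), (∏ p ∈ U, (p : ℝ))⁻¹ := by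
  have hlM : 0 < Real.log M := Real.log_pos hM
  have h1 := ZZ_log G hG
  have hZ0 : 0 ≤ ZZ G := sum_nonneg fun U _ => inv_nonneg.2 (prod_nonneg fun p _ => Nat.cast_nonneg p)
  have h2 : (∑ p ∈ G, Real.log p / p) * ZZ G ≤ Real.log M / 2 * ZZ G := mul_le_mul_of_nonneg_right h hZ0
  have h3 : ZZ G = ∑ U ∈ G.powerset.filter (fun U : Finset ℕ => ∏ p ∈ U, (p : ℝ) ≤ M), (∏ p ∈ U, (p : ℝ))⁻¹ +
      ∑ U ∈ G.powerset.filter (fun U : Finset ℕ => ¬ ∏ p ∈ U, (p : ℝ) ≤ M), (∏ p ∈ U, (p : ℝ))⁻¹ := by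
    unfold ZZ
    rw [sum_filter_add_sum_filter_not]
  have h4 : Real.log M * ∑ U ∈ G.powerset.filter (fun U : Finset ℕ => ¬ ∏ p ∈ U, (p : ℝ) ≤ M), (∏ p ∈ U, (p : ℝ))⁻¹ ≤
      ∑ U ∈ G.powerset, (∏ p ∈ U, (p : ℝ))⁻¹ * Real.log (∏ p ∈ U, (p : ℝ)) := by
    rw [mul_sum]
    calc _ ≤ ∑ U ∈ G.powerset.filter (fun U : Finset ℕ => ¬ ∏ p ∈ U, (p : ℝ) ≤ M), (∏ p ∈ U, (p : ℝ))⁻¹ * Real.log (∏ p ∈ U, (p : ℝ)) := by
          refine sum_le_sum fun U hU => ?_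
          rw [mem_filter, not_le] at hU
          rw [mul_comm]
          apply mul_le_mul_of_nonneg_left (Real.log_le_log (by linarith) hU.2.le)
          exact inv_nonneg.2 (prod_nonneg fun p _ => Nat.cast_nonneg p)
      _ ≤ _ := by
          apply sum_le_sum_of_subset_of_nonneg (filter_subset _ _)
          intro U hU _
          apply mul_nonneg (inv_nonneg.2 (prod_nonneg fun p _ => Nat.cast_nonneg p))
          apply Real.log_nonneg
          have : 1 ≤ ∏ p ∈ U, p := Nat.one_le_iff_ne_zero.2 (prod_ne_zero_iff.2 fun p hp => by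
            have := hG p ((mem_powerset.1 hU) hp)
            omega)
          have h7 : ((1 : ℕ) : ℝ) ≤ ((∏ p ∈ U, p : ℕ) : ℝ) := Nat.cast_le.2 this
          rw [Nat.cast_prod, Nat.cast_one] at h7
          exact h7
  have h5 : Real.log M * ∑ U ∈ G.powerset.filter (fun U : Finset ℕ => ¬ ∏ p ∈ U, (p : ℝ) ≤ M), (∏ p ∈ U, (p : ℝ))⁻¹ ≤ Real.log M * (ZZ G / 2) := by
    linarith
  have h6 := le_of_mul_le_mul_left h5 hlM
  linarith

/-- squares do not matter -/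
theorem prod_sq (G : Finset ℕ) (hG : ∀ p ∈ G, 2 ≤ p) : 1 / 2 ≤ ∏ p ∈ G, (1 - 1 / (p : ℝ) ^ 2) := by
  obtain ⟨N, hN⟩ : ∃ N : ℕ, ∀ p ∈ G, p ≤ N + 1 := ⟨G.sup id, fun p hp => (Finset.le_sup (f := id) hp).trans (Nat.le_succ _)⟩
  have h1 : ∀ n : ℕ, 1 ≤ n → ∏ p ∈ Icc 2 n, (1 - 1 / (p : ℝ) ^ 2) = ((n : ℝ) + 1) / (2 * (n : ℝ)) := by
    intro n hn
    induction n, hn using Nat.le_induction with
    | base => norm_num
    | succ n hn ih =>
      rw [Finset.prod_Icc_succ_top (by omega), ih]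
      have : (0 : ℝ) < n := by exact_mod_cast hn
      push_cast
      field_simp
      ring
  have h2 := h1 (N + 1) (by omega)
  have hsub : G ⊆ Icc 2 (N + 1) := fun p hp => mem_Icc.2 ⟨hG p hp, hN p hp⟩
  have hterm : ∀ p : ℕ, 2 ≤ p → 0 ≤ 1 - 1 / (p : ℝ) ^ 2 ∧ 1 - 1 / (p : ℝ) ^ 2 ≤ 1 := by
    intro p hp
    have h3 : (2 : ℝ) ≤ p := by exact_mod_cast hp
    constructor
    · rw [sub_nonneg, div_le_one (by positivity)]
      nlinarith
    · have : (0 : ℝ) ≤ 1 / (p : ℝ) ^ 2 := by positivity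
      linarith
  rw [← prod_sdiff hsub] at h2
  have h3 : ∏ p ∈ Icc 2 (N + 1) \ G, (1 - 1 / (p : ℝ) ^ 2) ≤ 1 := prod_le_one
    (fun p hp => (hterm p (mem_Icc.1 (Finset.mem_sdiff.1 hp).1).1).1)
    (fun p hp => (hterm p (mem_Icc.1 (Finset.mem_sdiff.1 hp).1).1).2)
  have h4 : 0 ≤ ∏ p ∈ G, (1 - 1 / (p : ℝ) ^ 2) := prod_nonneg fun p hp => (hterm p (hG p hp)).1
  have h5 : (1 : ℝ) / 2 ≤ (((N + 1 : ℕ) : ℝ) + 1) / (2 * ((N + 1 : ℕ) : ℝ)) := by
    have : (0 : ℝ) < ((N + 1 : ℕ) : ℝ) := by positivity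
    rw [div_le_div_iff₀ (by norm_num) (by positivity)]
    linarith
  rw [← h2] at h5
  calc (1 : ℝ) / 2 ≤ _ := h5
    _ ≤ 1 * ∏ p ∈ G, (1 - 1 / (p : ℝ) ^ 2) := mul_le_mul_of_nonneg_right h3 h4
    _ = _ := one_mul _

theorem ZZ_ge (G : Finset ℕ) (hG : ∀ p ∈ G, 2 ≤ p) : 1 / 2 * (∏ p ∈ G, (1 - 1 / (p : ℝ)))⁻¹ ≤ ZZ G := by
  have h1 := prod_sq G hG
  have h2 : ∏ p ∈ G, (1 - 1 / (p : ℝ) ^ 2) = ZZ G * ∏ p ∈ G, (1 - 1 / (p : ℝ)) := by
    rw [ZZ_prod, ← prod_mul_distrib]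
    refine prod_congr rfl fun p hp => ?_
    have : (0 : ℝ) < p := by exact_mod_cast (by have := hG p hp; omega : 0 < p)
    field_simp
    ring
  have h3 : 0 < ∏ p ∈ G, (1 - 1 / (p : ℝ)) := prod_pos fun p hp => by
    have : (2 : ℝ) ≤ p := by exact_mod_cast hG p hp
    rw [sub_pos, div_lt_one (by linarith)]
    linarith
  rw [h2] at h1
  rw [← div_eq_mul_inv, div_le_iff₀ h3]
  exact h1

end Pool.Agent.W5h25.PR
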