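import Pool.Agent.W5h25.PR.B
import Pool.Agent.TH882.FL

/-! The fundamental lemma in a residue class; inclusion and exclusion. -/

set_option autoImplicit false

open Finset Filter Topology
open Pool.Agent.H378R2 Pool.Agent.H510R2.Maier
open Pool.Agent.W5h22.JM

namespace Pool.Agent.W5h25.PR

theorem res_count (m : ℕ) (hm : 0 < m) (N r : ℕ) :
    |(((Ioc 0 N).filter (fun n => n ≡ r [MOD m])).card : ℝ) - N / m| ≤ 1 := by
  have h1 := Nat.Ioc_filter_modEq_card 0 N hm r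
  have hm0 : (0 : ℚ) < m := by exact_mod_cast hm
  set A := ⌊((N : ℚ) - r) / (m : ℚ)⌋ with hA
  set C := ⌊(((0 : ℕ) : ℚ) - r) / (m : ℚ)⌋ with hC
  have hAC : C ≤ A := by
    apply Int.floor_le_floor
    apply div_le_div_of_nonneg_right _ hm0.le
    have : (0 : ℚ) ≤ N := Nat.cast_nonneg N
    push_cast
    linarith
  rw [max_eq_left (by linarith)] at h1
  have e1 := Int.floor_le (((N : ℚ) - r) / (m : ℚ))
  have e2 := Int.lt_floor_add_one (((N : ℚ) - r) / (m : ℚ))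
  have e3 := Int.floor_le ((((0 : ℕ) : ℚ) - r) / (m : ℚ))
  have e4 := Int.lt_floor_add_one ((((0 : ℕ) : ℚ) - r) / (m : ℚ))
  rw [← hA] at e1 e2
  rw [← hC] at e3 e4
  have e5 : ((N : ℚ) - r) / (m : ℚ) - (((0 : ℕ) : ℚ) - r) / (m : ℚ) = N / m := by
    rw [← sub_div]; congr 1; push_cast; ring
  have h2 : ((((Ioc 0 N).filter (fun n => n ≡ r [MOD m])).card : ℤ) : ℚ) = A - C := by
    rw [h1]; push_cast; ring
  have h3 : |((((Ioc 0 N).filter (fun n => n ≡ r [MOD m])).card : ℤ) : ℚ) - N / m| ≤ 1 := by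
    rw [h2, abs_le]
    constructor <;> linarith
  have h4 : (((|((((Ioc 0 N).filter (fun n => n ≡ r [MOD m])).card : ℤ) : ℚ) - N / m| : ℚ)) : ℝ) ≤ ((1 : ℚ) : ℝ) := by
    exact_mod_cast h3
  push_cast at h4
  exact h4

theorem prod_dvd_iff (T : Finset ℕ) (hT : ∀ p ∈ T, p.Prime) (n : ℕ) : (∏ p ∈ T, p) ∣ n ↔ ∀ p ∈ T, p ∣ n := by
  constructor
  · intro h p hp
    exact (Finset.dvd_prod_of_mem (fun p => p) hp).trans h
  · intro h
    exact Finset.prod_primes_dvd n (fun p hp => (hT p hp).prime) h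

theorem cop_prod (q : ℕ) (T : Finset ℕ) (hT : ∀ p ∈ T, p.Prime ∧ ¬ p ∣ q) : q.Coprime (∏ p ∈ T, p) := by
  apply Nat.Coprime.prod_right
  intro p hp
  exact ((Nat.Prime.coprime_iff_not_dvd (hT p hp).1).2 (hT p hp).2).symm

/-- the fundamental lemma in a residue class, large primes -/
theorem flq : ∃ C0 : ℕ, 1 ≤ C0 ∧ ∀ (q b J : ℕ) (B : Finset ℕ), 0 < q → C0 ≤ b →
    (∀ p ∈ B, p.Prime ∧ ¬ p ∣ q ∧ C0 < p ∧ p ≤ 2 ^ 2 ^ J) → ∀ N r : ℕ,
    |(cntq B q r N : ℝ) - (N : ℝ) / q * ∏ p ∈ B, (1 - 1 / (p : ℝ))| ≤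
      (1 / 2 : ℝ) ^ b * ((N : ℝ) / q * ∏ p ∈ B, (1 - 1 / (p : ℝ))) +
        ((J : ℝ) + 2) * (((2 ^ 2 ^ J : ℕ) : ℝ) ^ (C0 * b)) ^ 2 := by
  obtain ⟨C0, hC0, h⟩ := Pool.Agent.TH882.FL.fl1 1
  refine ⟨C0, hC0, fun q b J B hq hb hB N r => ?_⟩
  have hq0 : (0 : ℝ) < q := by exact_mod_cast hq
  have h1 := h b J C0 B (fun _ => {0}) hb le_rfl (fun p hp => ⟨(hB p hp).1, (hB p hp).2.2.1, (hB p hp).2.2.2⟩)
    (fun p _ => by simp) ((Ioc 0 N).filter (fun n => n ≡ r [MOD q])) ((N : ℝ) / q) (by positivity) (by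
      intro T hT c hc
      have hTp : ∀ p ∈ T, p.Prime := fun p hp => (hB p (hT hp)).1
      have hcop : q.Coprime (∏ p ∈ T, p) := cop_prod q T fun p hp => ⟨(hB p (hT hp)).1, (hB p (hT hp)).2.1⟩
      obtain ⟨z, hz1, hz2⟩ := Nat.chineseRemainder hcop r 0
      have hT0 : 0 < ∏ p ∈ T, p := prod_pos fun p hp => (hTp p hp).pos
      have e1 : ((Ioc 0 N).filter (fun n => n ≡ r [MOD q])).filter (fun n => ∀ p ∈ T, n % p = c p) =
          (Ioc 0 N).filter (fun n => n ≡ z [MOD q * ∏ p ∈ T, p]) := by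
        ext n
        simp only [mem_filter, and_assoc, and_congr_right_iff]
        intro _
        rw [← Nat.modEq_and_modEq_iff_modEq_mul hcop]
        have e2 : (∀ p ∈ T, n % p = c p) ↔ n ≡ z [MOD ∏ p ∈ T, p] := by
          have e3 : n ≡ z [MOD ∏ p ∈ T, p] ↔ n ≡ 0 [MOD ∏ p ∈ T, p] := ⟨fun h5 => h5.trans hz2, fun h5 => h5.trans hz2.symm⟩
          rw [e3, Nat.modEq_zero_iff_dvd, prod_dvd_iff T hTp]
          constructor
          · intro h5 p hp
            have h6 := h5 p hp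
            have h7 := hc p hp
            rw [mem_singleton] at h7
            rw [h7] at h6
            exact Nat.dvd_of_mod_eq_zero h6
          · intro h5 p hp
            have h7 := hc p hp
            rw [mem_singleton] at h7
            rw [h7]
            exact Nat.mod_eq_zero_of_dvd (h5 p hp)
        rw [e2]
        constructor
        · rintro ⟨h5, h6⟩; exact ⟨h5.trans hz1.symm, h6⟩
        · rintro ⟨h5, h6⟩; exact ⟨h5.trans hz1, h6⟩
      rw [e1]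
      have e4 := res_count (q * ∏ p ∈ T, p) (Nat.mul_pos hq hT0) N z
      have e5 : (N : ℝ) / q / ∏ p ∈ T, (p : ℝ) = N / ((q * ∏ p ∈ T, p : ℕ) : ℝ) := by
        push_cast; rw [div_div]
      rw [e5]
      exact e4)
  have e6 : (((Ioc 0 N).filter (fun n => n ≡ r [MOD q])).filter (fun n => ∀ p ∈ B, n % p ∉ ({0} : Finset ℕ))).card = cntq B q r N := by
    unfold cntq
    rw [filter_filter]
    congr 1
    ext n
    simp only [mem_filter, mem_singleton, Nat.dvd_iff_mod_eq_zero]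
  rw [e6] at h1
  simpa using h1

/-- the fundamental lemma in a residue class -/
theorem flq2 : ∃ C0 C1 : ℕ, 1 ≤ C0 ∧ ∀ (q b J : ℕ) (B : Finset ℕ), 0 < q → C0 ≤ b →
    (∀ p ∈ B, p.Prime ∧ ¬ p ∣ q ∧ p ≤ 2 ^ 2 ^ J) → ∀ N r : ℕ,
    |(cntq B q r N : ℝ) - (N : ℝ) / q * ∏ p ∈ B, (1 - 1 / (p : ℝ))| ≤
      (1 / 2 : ℝ) ^ b * ((N : ℝ) / q * ∏ p ∈ B, (1 - 1 / (p : ℝ))) +
        C1 * (((J : ℝ) + 2) * (((2 ^ 2 ^ J : ℕ) : ℝ) ^ (C0 * b)) ^ 2) := by
  obtain ⟨C0, hC0, h⟩ := flq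
  refine ⟨C0, 4 ^ C0, hC0, fun q b J B hq hb hB N r => ?_⟩
  set Bs := B.filter (fun p => p ≤ C0) with hBs
  set Bl := B.filter (fun p => ¬ p ≤ C0) with hBl
  set D := ∏ p ∈ Bs, p with hD
  have hBsp : ∀ p ∈ Bs, p.Prime := fun p hp => (hB p (mem_filter.1 hp).1).1
  have hD0 : 0 < D := prod_pos fun p hp => (hBsp p hp).pos
  have hqD : q.Coprime D := cop_prod q Bs fun p hp => ⟨hBsp p hp, (hB p (mem_filter.1 hp).1).2.1⟩
  have hq0 : (0 : ℝ) < q := by exact_mod_cast hq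
  have hDr : (0 : ℝ) < D := by exact_mod_cast hD0
  -- the decomposition
  have e1 : cntq B q r N = ∑ t ∈ (range D).filter (fun t => (q * t + r).Coprime D), cntq Bl (q * D) (q * t + r) N := by
    unfold cntq
    rw [← card_sigma]
    symm
    apply Finset.card_bij (fun x _ => x.2)
    · rintro ⟨t, n⟩ hx
      simp only [mem_sigma, mem_filter, mem_range, mem_Ioc] at hx ⊢
      obtain ⟨⟨ht, htc⟩, hn, hn1, hn2⟩ := hx
      refine ⟨hn, ?_, ?_⟩
      · have h5 : n ≡ q * t + r [MOD q] := hn1.of_mul_right D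
        exact h5.trans (by simp [Nat.ModEq])
      · intro p hp
        by_cases hpC : p ≤ C0
        · intro hpn
          have hpBs : p ∈ Bs := mem_filter.2 ⟨hp, hpC⟩
          have h5 : n ≡ q * t + r [MOD p] := (hn1.of_mul_left q).of_dvd (Finset.dvd_prod_of_mem (fun p => p) hpBs)
          have h6 : p ∣ q * t + r := (Nat.ModEq.dvd_iff h5 dvd_rfl).1 hpn
          have h7 := (hBsp p hpBs).one_lt
          have h8 := Nat.dvd_gcd h6 (Finset.dvd_prod_of_mem (fun p => p) hpBs : p ∣ D)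
          rw [htc] at h8
          have := Nat.le_of_dvd one_pos h8
          omega
        · exact hn2 p (mem_filter.2 ⟨hp, hpC⟩)
    · rintro ⟨t, n⟩ hx ⟨t', n'⟩ hx' heq
      simp only [mem_sigma, mem_filter, mem_range, mem_Ioc] at hx hx' heq
      subst heq
      have h5 : q * t + r ≡ q * t' + r [MOD q * D] := hx.2.2.1.symm.trans hx'.2.2.1
      have h6 : q * t ≡ q * t' [MOD q * D] := Nat.ModEq.add_right_cancel' r h5
      have h7 : t ≡ t' [MOD D] := Nat.ModEq.mul_left_cancel' hq.ne' h6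
      have h8 := Nat.ModEq.eq_of_lt_of_lt h7 hx.1.1 hx'.1.1
      subst h8
      rfl
    · intro n hn
      simp only [mem_filter, mem_Ioc] at hn
      obtain ⟨hn0, hn1, hn2⟩ := hn
      -- find `t`
      obtain ⟨t, ht, htm⟩ : ∃ t, t < D ∧ q * t + r ≡ n [MOD q * D] := by
        obtain ⟨z, hz1, hz2⟩ := Nat.chineseRemainder hqD.symm (n + (q - 1) * r) 0
        -- `q t ≡ n - r`
        have h5 : (n : ℤ) ≡ r [ZMOD q] := by exact_mod_cast (Int.natCast_modEq_iff.2 hn1)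
        obtain ⟨k, hk⟩ := (Int.modEq_iff_dvd.1 h5.symm)
        refine ⟨(k % (D : ℤ)).toNat, ?_, ?_⟩
        · have h6 : 0 ≤ k % (D : ℤ) := Int.emod_nonneg _ (by exact_mod_cast hD0.ne')
          have h7 : k % (D : ℤ) < D := Int.emod_lt_of_pos _ (by exact_mod_cast hD0)
          omega
        · apply Int.natCast_modEq_iff.1
          have h6 : 0 ≤ k % (D : ℤ) := Int.emod_nonneg _ (by exact_mod_cast hD0.ne')
          push_cast
          rw [Int.toNat_of_nonneg h6]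
          have h7 : (q : ℤ) * (k % D) ≡ q * k [ZMOD q * D] := by
            exact Int.ModEq.mul_left' (Int.mod_modEq k D)
          have h8 : (n : ℤ) = q * k + r := by linarith
          rw [h8]
          exact Int.ModEq.add_right _ h7
      refine ⟨⟨t, n⟩, ?_, rfl⟩
      simp only [mem_sigma, mem_filter, mem_range, mem_Ioc]
      refine ⟨⟨ht, ?_⟩, hn0, htm.symm, fun p hp => hn2 p (mem_filter.1 hp).1⟩
      rw [hD, ← cop_iff Bs hBsp]
      intro p hp hpd
      have h5 : q * t + r ≡ n [MOD p] := (htm.of_mul_left q).of_dvd (Finset.dvd_prod_of_mem (fun p => p) hp)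
      exact hn2 p (mem_filter.1 hp).1 ((Nat.ModEq.dvd_iff h5 dvd_rfl).1 hpd)
  have hcard : (((range D).filter (fun t => (q * t + r).Coprime D)).card : ℝ) = D.totient := by
    rw [count_cop D q r hD0 hqD]
  have hVs : (D.totient : ℝ) / D = ∏ p ∈ Bs, (1 - 1 / (p : ℝ)) := by
    have := PP_prod Bs hBsp
    unfold PP at this
    exact this
  have hprod : (∏ p ∈ B, (1 - 1 / (p : ℝ))) = (∏ p ∈ Bs, (1 - 1 / (p : ℝ))) * ∏ p ∈ Bl, (1 - 1 / (p : ℝ)) := by
    rw [hBs, hBl, prod_filter_mul_prod_filter_not]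
  set Vl := ∏ p ∈ Bl, (1 - 1 / (p : ℝ)) with hVl
  have hmain : ∀ t : ℕ, |(cntq Bl (q * D) (q * t + r) N : ℝ) - (N : ℝ) / ((q * D : ℕ) : ℝ) * Vl| ≤
      (1 / 2 : ℝ) ^ b * ((N : ℝ) / ((q * D : ℕ) : ℝ) * Vl) + ((J : ℝ) + 2) * (((2 ^ 2 ^ J : ℕ) : ℝ) ^ (C0 * b)) ^ 2 := by
    intro t
    apply h (q * D) b J Bl (Nat.mul_pos hq hD0) hb
    intro p hp
    rw [hBl, mem_filter] at hp
    obtain ⟨h5, h6, h7⟩ := hB p hp.1
    refine ⟨h5, ?_, not_le.1 hp.2, h7⟩
    intro h8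
    rcases (Nat.Prime.dvd_mul h5).1 h8 with h9 | h9
    · exact h6 h9
    · obtain ⟨p', hp', hpp'⟩ := (Prime.dvd_finsetProd_iff h5.prime _).1 h9
      have := (Nat.prime_dvd_prime_iff_eq h5 (hBsp p' hp')).1 hpp'
      subst this
      exact hp.2 (mem_filter.1 hp').2
  have e2 : (N : ℝ) / q * ∏ p ∈ B, (1 - 1 / (p : ℝ)) =
      ∑ t ∈ (range D).filter (fun t => (q * t + r).Coprime D), (N : ℝ) / ((q * D : ℕ) : ℝ) * Vl := by
    rw [sum_const, nsmul_eq_mul, hcard, hprod, ← hVs]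
    push_cast
    field_simp
  have hφD : (D.totient : ℝ) ≤ ((4 ^ C0 : ℕ) : ℝ) := by
    have h5 : D ≤ primorial C0 := by
      unfold primorial
      apply Finset.prod_le_prod_of_subset_of_one_le'
      · intro p hp
        rw [mem_filter] at hp
        rw [Finset.mem_filter, Finset.mem_range]
        exact ⟨by omega, (hB p hp.1).1⟩
      · intro p hp _
        exact (Finset.mem_filter.1 hp).2.one_lt.le
    have h6 : D.totient ≤ 4 ^ C0 := (Nat.totient_le D).trans (h5.trans (primorial_le_four_pow _))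
    exact_mod_cast h6
  rw [e1]
  push_cast
  have hVl0 : 0 ≤ Vl := prod_nonneg fun p hp => by
    have : (1 : ℝ) ≤ p := by exact_mod_cast (hB p (mem_filter.1 hp).1).1.one_lt.le
    rw [sub_nonneg, div_le_one (by linarith)]; exact this
  have e3 : |∑ t ∈ (range D).filter (fun t => (q * t + r).Coprime D), (cntq Bl (q * D) (q * t + r) N : ℝ) -
      (N : ℝ) / q * ∏ p ∈ B, (1 - 1 / (p : ℝ))| ≤ ∑ t ∈ (range D).filter (fun t => (q * t + r).Coprime D),
      ((1 / 2 : ℝ) ^ b * ((N : ℝ) / ((q * D : ℕ) : ℝ) * Vl) + ((J : ℝ) + 2) * (((2 ^ 2 ^ J : ℕ) : ℝ) ^ (C0 * b)) ^ 2) := by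
    rw [e2, ← sum_sub_distrib]
    exact (abs_sum_le_sum_abs _ _).trans (sum_le_sum fun t _ => hmain t)
  refine e3.trans ?_
  rw [sum_add_distrib, ← mul_sum, ← e2, sum_const, nsmul_eq_mul, hcard]
  apply add_le_add_right
  push_cast at hφD ⊢
  apply mul_le_mul_of_nonneg_right hφD (by positivity)

end Pool.Agent.W5h25.PR
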