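import Pool.Agent.W5h25.PR.F

/-! Inclusion and exclusion with few factors; the terms with a full set of factors. -/

set_option autoImplicit false

open Finset Filter Topology
open Pool.Agent.H378R2 Pool.Agent.H510R2.Maier
open Pool.Agent.W5h22.JM

namespace Pool.Agent.W5h25.PR

theorem choose_sumH (s : Finset ℕ) (hs : ∀ p ∈ s, p.Prime) (H : Finset ℕ) (j : ℕ) :
    ∑ h ∈ H, ((((s.filter (fun p => p ∣ h)).card).choose j : ℕ) : ℝ) =
      ∑ T ∈ s.powersetCard j, ((H.filter (fun h => (∏ p ∈ T, p) ∣ h)).card : ℝ) := by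
  have h1 : ∀ h ∈ H, ((((s.filter (fun p => p ∣ h)).card).choose j : ℕ) : ℝ) =
      ∑ T ∈ s.powersetCard j, if (∏ p ∈ T, p) ∣ h then (1 : ℝ) else 0 := by
    intro h hh
    rw [← sum_filter, sum_const, nsmul_eq_mul, mul_one, ← card_powersetCard]
    congr 2
    ext T
    simp only [mem_powersetCard, mem_filter]
    constructor
    · rintro ⟨h2, h3⟩
      refine ⟨⟨fun p hp => (mem_filter.1 (h2 hp)).1, h3⟩, ?_⟩
      apply Finset.prod_primes_dvd
      · intro p hp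
        exact (hs p (mem_filter.1 (h2 hp)).1).prime
      · intro p hp
        exact (mem_filter.1 (h2 hp)).2
    · rintro ⟨⟨h2, h3⟩, h4⟩
      refine ⟨fun p hp => mem_filter.2 ⟨h2 hp, ?_⟩, h3⟩
      exact (Finset.dvd_prod_of_mem (fun p => p) hp).trans h4
  rw [sum_congr rfl h1, sum_comm]
  refine sum_congr rfl fun T _ => ?_
  rw [← sum_filter, sum_const, nsmul_eq_mul, mul_one]

/-- Bonferroni in a finite set of integers -/
theorem bonfH (s : Finset ℕ) (hs : ∀ p ∈ s, p.Prime) (H : Finset ℕ) (J : ℕ) (hJ : 1 ≤ J) :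
    |((H.filter (fun h => ∀ p ∈ s, ¬ p ∣ h)).card : ℝ) -
      ∑ j ∈ range J, (-1 : ℝ) ^ j * ∑ T ∈ s.powersetCard j, ((H.filter (fun h => (∏ p ∈ T, p) ∣ h)).card : ℝ)| ≤
      ∑ T ∈ s.powersetCard J, ((H.filter (fun h => (∏ p ∈ T, p) ∣ h)).card : ℝ) := by
  have h0 : ((H.filter (fun h => ∀ p ∈ s, ¬ p ∣ h)).card : ℝ) =
      ∑ h ∈ H, if (s.filter (fun p => p ∣ h)).card = 0 then (1 : ℝ) else 0 := by
    rw [card_filter]
    push_cast
    refine sum_congr rfl fun h _ => ?_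
    congr 1
    rw [card_eq_zero, filter_eq_empty_iff]
  rw [h0, ← choose_sumH s hs H J]
  have h1 : ∑ j ∈ range J, (-1 : ℝ) ^ j * ∑ T ∈ s.powersetCard j, ((H.filter (fun h => (∏ p ∈ T, p) ∣ h)).card : ℝ) =
      ∑ h ∈ H, ∑ j ∈ range J, (-1 : ℝ) ^ j * ((((s.filter (fun p => p ∣ h)).card).choose j : ℕ) : ℝ) := by
    rw [sum_comm]
    refine sum_congr rfl fun j _ => ?_
    rw [← mul_sum, choose_sumH s hs H j]
  rw [h1, ← sum_sub_distrib]
  refine (abs_sum_le_sum_abs _ _).trans (sum_le_sum fun h _ => ?_)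
  exact choose_alt _ J hJ

/-- the set of integers in a class without divisors in `B` -/
def HH (B : Finset ℕ) (q r Y : ℕ) : Finset ℕ := (Ioc 0 Y).filter (fun h => h ≡ r [MOD q] ∧ ∀ p ∈ B, ¬ p ∣ h)

theorem HH_div (B : Finset ℕ) (hB : ∀ p ∈ B, p.Prime) (q r Y : ℕ) (T : Finset ℕ)
    (hT : ∀ p ∈ T, p.Prime ∧ ¬ p ∣ q ∧ p ∉ B) :
    ∃ r' : ℕ, ((HH B q r Y).filter (fun h => (∏ p ∈ T, p) ∣ h)).card = cntq B q r' (Y / ∏ p ∈ T, p) := by
  set D := ∏ p ∈ T, p with hD
  have hD0 : 0 < D := prod_pos fun p hp => (hT p hp).1.pos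
  have hqD : q.Coprime D := cop_prod q T fun p hp => ⟨(hT p hp).1, (hT p hp).2.1⟩
  obtain ⟨z, hz1, hz2⟩ := Nat.chineseRemainder hqD r 0
  obtain ⟨r', rfl⟩ := (Nat.modEq_zero_iff_dvd).1 hz2
  refine ⟨r', ?_⟩
  unfold cntq HH
  symm
  apply Finset.card_bij (fun m _ => D * m)
  · intro m hm
    simp only [mem_filter, mem_Ioc] at hm ⊢
    obtain ⟨⟨h1, h2⟩, h3, h4⟩ := hm
    refine ⟨⟨⟨Nat.mul_pos hD0 h1, ?_⟩, ?_, ?_⟩, dvd_mul_right D m⟩
    · exact (Nat.mul_le_mul_left D h2).trans (Nat.mul_div_le Y D)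
    · exact (Nat.ModEq.mul_left D h3).trans hz1
    · intro p hp hpd
      rcases (Nat.Prime.dvd_mul (hB p hp)).1 hpd with h5 | h5
      · obtain ⟨p', hp', hpp'⟩ := (Prime.dvd_finsetProd_iff (hB p hp).prime _).1 h5
        have := (Nat.prime_dvd_prime_iff_eq (hB p hp) (hT p' hp').1).1 hpp'
        subst this
        exact (hT p hp').2.2 hp
      · exact h4 p hp h5
  · intro m _ m' _ h
    exact Nat.eq_of_mul_eq_mul_left hD0 h
  · intro h hh
    simp only [mem_filter, mem_Ioc] at hh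
    obtain ⟨⟨⟨h1, h2⟩, h3, h4⟩, m, rfl⟩ := hh
    refine ⟨m, ?_, rfl⟩
    simp only [mem_filter, mem_Ioc]
    refine ⟨⟨Nat.pos_of_mul_pos_left h1, ?_⟩, ?_, ?_⟩
    · rw [Nat.le_div_iff_mul_le hD0, mul_comm]; exact h2
    · apply Nat.ModEq.cancel_left_of_coprime (c := D) (m := q) hqD
      exact h3.trans hz1.symm
    · intro p hp hpm
      exact h4 p hp (hpm.trans (dvd_mul_left m D))

/-- inclusion and exclusion with the fundamental lemma -/
theorem leg_fl (B P : Finset ℕ) (q r Y k : ℕ) (hq : 0 < q) (hB : ∀ p ∈ B, p.Prime)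
    (hP : ∀ p ∈ P, p.Prime ∧ ¬ p ∣ q ∧ p ∉ B) (V η R : ℝ) (hη : 0 ≤ η) (hR : 0 ≤ R) (hV0 : 0 ≤ V) (hV1 : V ≤ 1)
    (hfl : ∀ N r' : ℕ, |(cntq B q r' N : ℝ) - (N : ℝ) / q * V| ≤ η * ((N : ℝ) / q * V) + R)
    (hbig : ∀ T ∈ P.powersetCard (k + 1), Y < ∏ p ∈ T, p) (he : ee P 1 ≤ 1) :
    |(cntq (B ∪ P) q r Y : ℝ) - (Y : ℝ) / q * V * ∑ j ∈ range k, (-1 : ℝ) ^ j * ee P j -
      (-1) ^ k * ∑ T ∈ P.powersetCard k, (((HH B q r Y).filter (fun h => (∏ p ∈ T, p) ∣ h)).card : ℝ)| ≤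
      η * k * ((Y : ℝ) / q * V) + (R + 1) * ∑ j ∈ range k, (P.card : ℝ) ^ j := by
  have hq0 : (0 : ℝ) < q := by exact_mod_cast hq
  have hq1 : (1 : ℝ) ≤ q := by exact_mod_cast hq
  have hY0 : (0 : ℝ) ≤ Y := Nat.cast_nonneg Y
  have h1 := bonfH P (fun p hp => (hP p hp).1) (HH B q r Y) (k + 1) (by omega)
  have h2 : ∑ T ∈ P.powersetCard (k + 1), (((HH B q r Y).filter (fun h => (∏ p ∈ T, p) ∣ h)).card : ℝ) = 0 := by
    apply sum_eq_zero
    intro T hT
    rw [Nat.cast_eq_zero, card_eq_zero, filter_eq_empty_iff]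
    intro h hh hd
    unfold HH at hh
    rw [mem_filter, mem_Ioc] at hh
    have := Nat.le_of_dvd hh.1.1 hd
    have := hbig T hT
    omega
  rw [h2, sum_range_succ] at h1
  have h3 : (HH B q r Y).filter (fun h => ∀ p ∈ P, ¬ p ∣ h) = (Ioc 0 Y).filter (fun h => h ≡ r [MOD q] ∧ ∀ p ∈ B ∪ P, ¬ p ∣ h) := by
    unfold HH
    rw [filter_filter]
    apply filter_congr
    intro h _
    simp only [mem_union]
    constructor
    · rintro ⟨⟨h4, h5⟩, h6⟩
      exact ⟨h4, fun p hp => hp.elim (h5 p) (h6 p)⟩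
    · rintro ⟨h4, h5⟩
      exact ⟨⟨h4, fun p hp => h5 p (Or.inl hp)⟩, fun p hp => h5 p (Or.inr hp)⟩
  have h4 : ((HH B q r Y).filter (fun h => ∀ p ∈ P, ¬ p ∣ h)).card = cntq (B ∪ P) q r Y := by
    rw [h3]; rfl
  rw [h4] at h1
  -- each term
  have hterm : ∀ T ⊆ P, |(((HH B q r Y).filter (fun h => (∏ p ∈ T, p) ∣ h)).card : ℝ) - (Y : ℝ) / q * V * (∏ p ∈ T, (p : ℝ))⁻¹| ≤
      η * ((Y : ℝ) / q * V) * (∏ p ∈ T, (p : ℝ))⁻¹ + (R + 1) := by
    intro T hT
    obtain ⟨r', hr'⟩ := HH_div B hB q r Y T fun p hp => hP p (hT hp)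
    rw [hr']
    set D := ∏ p ∈ T, p with hD
    have hD0 : 0 < D := prod_pos fun p hp => (hP p (hT hp)).1.pos
    have hDr : (0 : ℝ) < D := by exact_mod_cast hD0
    have e1 := hfl (Y / D) r'
    have e2 : (∏ p ∈ T, (p : ℝ)) = (D : ℝ) := by rw [hD]; push_cast; rfl
    rw [e2]
    have e3 : ((Y / D : ℕ) : ℝ) ≤ Y / D := Nat.cast_div_le
    have e4 : (Y : ℝ) / D < ((Y / D : ℕ) : ℝ) + 1 := by
      have := Nat.lt_floor_add_one ((Y : ℝ) / (D : ℝ))
      rw [Nat.floor_div_eq_div] at this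
      exact this
    have e5 : ((Y / D : ℕ) : ℝ) / q * V ≤ (Y : ℝ) / q * V * (D : ℝ)⁻¹ := by
      have : (Y : ℝ) / q * V * (D : ℝ)⁻¹ = (Y : ℝ) / D / q * V := by ring
      rw [this]
      exact mul_le_mul_of_nonneg_right (div_le_div_of_nonneg_right e3 hq0.le) hV0
    have e6 : (Y : ℝ) / q * V * (D : ℝ)⁻¹ - 1 ≤ ((Y / D : ℕ) : ℝ) / q * V := by
      have e7 : (Y : ℝ) / q * V * (D : ℝ)⁻¹ = (Y : ℝ) / D / q * V := by ring
      have e8 : (Y : ℝ) / D / q * V ≤ (((Y / D : ℕ) : ℝ) + 1) / q * V :=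
        mul_le_mul_of_nonneg_right (div_le_div_of_nonneg_right e4.le hq0.le) hV0
      have e9 : (((Y / D : ℕ) : ℝ) + 1) / q * V = ((Y / D : ℕ) : ℝ) / q * V + V / q := by ring
      have e10 : V / q ≤ 1 := by rw [div_le_one hq0]; linarith
      linarith
    have e11 : η * (((Y / D : ℕ) : ℝ) / q * V) ≤ η * ((Y : ℝ) / q * V) * (D : ℝ)⁻¹ := by
      rw [mul_assoc η]
      exact mul_le_mul_of_nonneg_left e5 hη
    rw [abs_le] at e1 ⊢
    constructor <;> linarith [e1.1, e1.2]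
  have h5 : |∑ j ∈ range k, (-1 : ℝ) ^ j * ∑ T ∈ P.powersetCard j, (((HH B q r Y).filter (fun h => (∏ p ∈ T, p) ∣ h)).card : ℝ) -
      (Y : ℝ) / q * V * ∑ j ∈ range k, (-1 : ℝ) ^ j * ee P j| ≤
      η * k * ((Y : ℝ) / q * V) + (R + 1) * ∑ j ∈ range k, (P.card : ℝ) ^ j := by
    rw [mul_sum, ← sum_sub_distrib]
    refine (abs_sum_le_sum_abs _ _).trans ?_
    have e0 : η * k * ((Y : ℝ) / q * V) + (R + 1) * ∑ j ∈ range k, (P.card : ℝ) ^ j =
        ∑ j ∈ range k, (η * ((Y : ℝ) / q * V) + (R + 1) * (P.card : ℝ) ^ j) := by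
      rw [sum_add_distrib, sum_const, card_range, nsmul_eq_mul, mul_sum]; ring
    rw [e0]
    refine sum_le_sum fun j _ => ?_
    have e1 : (-1 : ℝ) ^ j * ∑ T ∈ P.powersetCard j, (((HH B q r Y).filter (fun h => (∏ p ∈ T, p) ∣ h)).card : ℝ) -
        (Y : ℝ) / q * V * ((-1 : ℝ) ^ j * ee P j) = (-1 : ℝ) ^ j * ∑ T ∈ P.powersetCard j,
        ((((HH B q r Y).filter (fun h => (∏ p ∈ T, p) ∣ h)).card : ℝ) - (Y : ℝ) / q * V * (∏ p ∈ T, (p : ℝ))⁻¹) := by
      unfold ee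
      rw [sum_sub_distrib, ← mul_sum]; ring
    rw [e1, abs_mul, abs_pow, abs_neg, abs_one, one_pow, one_mul]
    refine (abs_sum_le_sum_abs _ _).trans ?_
    calc _ ≤ ∑ T ∈ P.powersetCard j, (η * ((Y : ℝ) / q * V) * (∏ p ∈ T, (p : ℝ))⁻¹ + (R + 1)) :=
          sum_le_sum fun T hT => hterm T (mem_powersetCard.1 hT).1
      _ = η * ((Y : ℝ) / q * V) * ee P j + (R + 1) * (P.powersetCard j).card := by
          unfold ee
          rw [sum_add_distrib, ← mul_sum, sum_const, nsmul_eq_mul]; ring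
      _ ≤ _ := by
          have q1 := ee_le_one P he j
          have q2 : ((P.powersetCard j).card : ℝ) ≤ (P.card : ℝ) ^ j := by
            rw [card_powersetCard]
            exact_mod_cast Nat.choose_le_pow _ _
          have q3 : η * ((Y : ℝ) / q * V) * ee P j ≤ η * ((Y : ℝ) / q * V) * 1 :=
            mul_le_mul_of_nonneg_left q1 (by positivity)
          have q4 : (R + 1) * ((P.powersetCard j).card : ℝ) ≤ (R + 1) * (P.card : ℝ) ^ j :=
            mul_le_mul_of_nonneg_left q2 (by linarith)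
          linarith
  rw [abs_le] at h1 h5 ⊢
  constructor <;> linarith [h1.1, h1.2, h5.1, h5.2]

/-- the terms with a full set of factors -/
theorem K_low (B P P1 P2 G : Finset ℕ) (q b0 Y k : ℕ) (hq : 0 < q) (hb0 : b0.Coprime q) (hk : q.totient ∣ k)
    (hB : ∀ p ∈ B, p.Prime) (hP : ∀ p ∈ P, p.Prime ∧ p ≡ b0 [MOD q] ∧ p ∉ B)
    (hG : ∀ p ∈ G, p.Prime ∧ p ≡ 1 [MOD q] ∧ p ∉ B) (h1 : P1 ⊆ P) (h2 : P2 ⊆ P) (h12 : Disjoint P1 P2)
    (UU : Finset (Finset ℕ)) (hUU : ∀ U ∈ UU, U ⊆ G) :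
    ∑ T' ∈ P1.powersetCard k, ∑ U ∈ UU, ((P2.filter (fun p => p * ((∏ x ∈ U, x) * ∏ x ∈ T', x) ≤ Y)).card : ℝ) ≤
      ∑ T ∈ P.powersetCard (k + 1), (((HH B q b0 Y).filter (fun h => (∏ p ∈ T, p) ∣ h)).card : ℝ) := by
  have hcard : (((P1.powersetCard k) ×ˢ UU).sigma (fun x => P2.filter (fun p => p * ((∏ y ∈ x.2, y) * ∏ y ∈ x.1, y) ≤ Y))).card ≤
      ((P.powersetCard (k + 1)).sigma (fun T => (HH B q b0 Y).filter (fun h => (∏ p ∈ T, p) ∣ h))).card := by
    apply Finset.card_le_card_of_injOn (fun x => ⟨insert x.2 x.1.1, x.2 * ((∏ y ∈ x.1.2, y) * ∏ y ∈ x.1.1, y)⟩)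
    · rintro ⟨⟨T', U⟩, p⟩ hx
      simp only [coe_sigma, Set.mem_sigma_iff, mem_coe, mem_product, mem_powersetCard, mem_filter] at hx ⊢
      obtain ⟨⟨⟨hT1, hT2⟩, hU⟩, hp, hle⟩ := hx
      have hpT : p ∉ T' := fun h => (Finset.disjoint_left.1 h12) (hT1 h) hp
      have hTP : ∀ x ∈ T', x.Prime ∧ x ≡ b0 [MOD q] ∧ x ∉ B := fun x hx => hP x (h1 (hT1 hx))
      have hpP := hP p (h2 hp)
      have hUG : ∀ x ∈ U, x.Prime ∧ x ≡ 1 [MOD q] ∧ x ∉ B := fun x hx => hG x (hUU U hU hx)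
      refine ⟨⟨?_, ?_⟩, ?_, ?_⟩
      · exact insert_subset (h2 hp) (hT1.trans h1)
      · rw [card_insert_of_notMem hpT, hT2]
      · unfold HH
        rw [mem_filter, mem_Ioc]
        refine ⟨⟨?_, hle⟩, ?_, ?_⟩
        · apply Nat.mul_pos hpP.1.pos
          exact Nat.mul_pos (prod_pos fun x hx => (hUG x hx).1.pos) (prod_pos fun x hx => (hTP x hx).1.pos)
        · have e1 : (∏ x ∈ U, x) ≡ 1 [MOD q] := by
            have : (∏ x ∈ U, x) ≡ ∏ x ∈ U, 1 [MOD q] := by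
              clear hU hle
              induction U using Finset.induction_on with
              | empty => exact Nat.ModEq.refl _
              | insert a s ha ih =>
                rw [prod_insert ha, prod_insert ha]
                exact Nat.ModEq.mul (hUG a (mem_insert_self _ _)).2.1 (ih fun x hx => hUG x (mem_insert_of_mem hx))
            rw [prod_const_one] at this
            exact this
          have e2 : (∏ x ∈ T', x) ≡ 1 [MOD q] := by
            have e3 : (∏ x ∈ T', x) ≡ b0 ^ T'.card [MOD q] := by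
              clear hT1 hT2 hpT hle
              induction T' using Finset.induction_on with
              | empty => exact Nat.ModEq.refl _
              | insert a s ha ih =>
                rw [prod_insert ha, card_insert_of_notMem ha, pow_succ, mul_comm]
                exact Nat.ModEq.mul (ih fun x hx => hTP x (mem_insert_of_mem hx)) (hTP a (mem_insert_self _ _)).2.1
            refine e3.trans ?_
            rw [hT2]
            obtain ⟨m, rfl⟩ := hk
            rw [pow_mul]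
            have := (Nat.ModEq.pow_totient hb0).pow m
            rwa [one_pow] at this
          have e4 := Nat.ModEq.mul hpP.2.1 (Nat.ModEq.mul e1 e2)
          simpa using e4
        · intro x hx hxd
          have hxp := hB x hx
          rcases (Nat.Prime.dvd_mul hxp).1 hxd with h5 | h5
          · have := (Nat.prime_dvd_prime_iff_eq hxp hpP.1).1 h5
            subst this
            exact hpP.2.2 hx
          · rcases (Nat.Prime.dvd_mul hxp).1 h5 with h6 | h6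
            · obtain ⟨y, hy, hxy⟩ := (Prime.dvd_finsetProd_iff hxp.prime _).1 h6
              have := (Nat.prime_dvd_prime_iff_eq hxp (hUG y hy).1).1 hxy
              subst this
              exact (hUG x hy).2.2 hx
            · obtain ⟨y, hy, hxy⟩ := (Prime.dvd_finsetProd_iff hxp.prime _).1 h6
              have := (Nat.prime_dvd_prime_iff_eq hxp (hTP y hy).1).1 hxy
              subst this
              exact (hTP x hy).2.2 hx
      · rw [prod_insert hpT]
        exact Nat.mul_dvd_mul_left p (dvd_mul_left _ _)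
    · rintro ⟨⟨T', U⟩, p⟩ hx ⟨⟨T2, U2⟩, p2⟩ hx2 heq
      simp only [coe_sigma, Set.mem_sigma_iff, mem_coe, mem_product, mem_powersetCard, mem_filter] at hx hx2
      obtain ⟨⟨⟨hT1, hT2⟩, hU⟩, hp, hle⟩ := hx
      obtain ⟨⟨⟨hT21, hT22⟩, hU2⟩, hp2, hle2⟩ := hx2
      simp only [Sigma.mk.injEq, heq_eq_eq] at heq
      obtain ⟨he1, he2⟩ := heq
      have hpT : p ∉ T' := fun h => (Finset.disjoint_left.1 h12) (hT1 h) hp
      have hpT2 : p2 ∉ T2 := fun h => (Finset.disjoint_left.1 h12) (hT21 h) hp2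
      have hpp : p2 = p := by
        have h3 : p2 ∈ insert p T' := by rw [he1]; exact mem_insert_self _ _
        rcases mem_insert.1 h3 with h4 | h4
        · exact h4
        · exact absurd hp2 ((Finset.disjoint_left.1 h12) (hT1 h4))
      subst hpp
      have hTT : T' = T2 := by
        rw [← erase_insert hpT, ← erase_insert hpT2, he1]
      subst hTT
      have hp0 : 0 < p2 := (hP p2 (h2 hp)).1.pos
      have h3 := Nat.eq_of_mul_eq_mul_left hp0 he2
      have hT0 : 0 < ∏ y ∈ T', y := prod_pos fun x hx => (hP x (h1 (hT1 hx))).1.pos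
      have h4 := Nat.eq_of_mul_eq_mul_right hT0 h3
      have h5 : U = U2 := by
        have q1 := Nat.primeFactors_prod (s := U) (fun x hx => (hG x (hUU U hU hx)).1)
        have q2 := Nat.primeFactors_prod (s := U2) (fun x hx => (hG x (hUU U2 hU2 hx)).1)
        rw [← q1, ← q2]
        exact congrArg Nat.primeFactors h4
      subst h5
      rfl
  rw [card_sigma, card_sigma, sum_product] at hcard
  exact_mod_cast hcard

end Pool.Agent.W5h25.PR
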