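import Pool.Agent.W5h25.PR.E
import Pool.Agent.W5h25.PR.G

/-! The lower bound for the terms with a full set of factors. -/

set_option autoImplicit false

open Finset Filter Topology
open Pool.Agent.H378R2 Pool.Agent.H510R2.Maier
open Pool.Agent.W5h22.JM

namespace Pool.Agent.W5h25.PR

/-- the small primes to sieve with -/
noncomputable def BB (q : ℕ) (y : ℝ) : Finset ℕ := (Icc 1 ⌊y⌋₊).filter (fun p => p.Prime ∧ ¬ p ∣ q ∧ ¬ p ≡ 1 [MOD q])

theorem mem_BB {q p : ℕ} {y : ℝ} (hy : 0 ≤ y) : p ∈ BB q y ↔ p.Prime ∧ ¬ p ∣ q ∧ ¬ p ≡ 1 [MOD q] ∧ (p : ℝ) ≤ y := by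
  unfold BB
  rw [mem_filter, mem_Icc]
  constructor
  · rintro ⟨⟨h1, h2⟩, h3, h4, h5⟩
    exact ⟨h3, h4, h5, (Nat.le_floor_iff hy).1 h2⟩
  · rintro ⟨h3, h4, h5, h6⟩
    exact ⟨⟨h3.one_lt.le, Nat.le_floor h6⟩, h3, h4, h5⟩

/-- the product over a set of primes -/
noncomputable def VV' (s : Finset ℕ) : ℝ := ∏ p ∈ s, (1 - 1 / (p : ℝ))

theorem VV_pos (s : Finset ℕ) (hs : ∀ p ∈ s, p.Prime) : 0 < VV' s := prod_pos fun p hp => by
  have : (2 : ℝ) ≤ p := by exact_mod_cast (hs p hp).two_le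
  rw [sub_pos, div_lt_one (by linarith)]
  linarith

theorem VV_le_one (s : Finset ℕ) (hs : ∀ p ∈ s, p.Prime) : VV' s ≤ 1 := by
  rw [VV', ← PP_prod s hs]
  exact PP_le_one s hs

theorem VV_anti (s t : Finset ℕ) (hst : s ⊆ t) (ht : ∀ p ∈ t, p.Prime) : VV' t ≤ VV' s := by
  unfold VV'
  rw [← prod_sdiff hst]
  have h1 := VV_le_one (t \ s) fun p hp => ht p (Finset.mem_sdiff.1 hp).1
  have h2 := VV_pos s fun p hp => ht p (hst hp)
  unfold VV' at h1 h2
  nlinarith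

/-- Mertens -/
theorem VB_VG (q : ℕ) (hq : 0 < q) (w w2 : ℝ) (hw2 : 0 < w2) (hww : w2 ≤ w) : ∀ᶠ L : ℝ in atTop,
    VV' (BB q (L ^ w)) * VV' (Pq q 1 0 (L ^ w2)) ≤ (q : ℝ) / q.totient * (1 / (w2 * Real.log L)) := by
  have h1 := QQ_real.comp (tendsto_rpow_atTop hw2)
  have hexp : (1 : ℝ) < Real.exp Real.eulerMascheroniConstant := by
    rw [Real.one_lt_exp_iff]
    have := Real.one_half_lt_eulerMascheroniConstant
    linarith
  have hφ : (0 : ℝ) < q.totient := by exact_mod_cast Nat.totient_pos.2 hq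
  filter_upwards [h1.eventually_const_lt hexp, eventually_gt_atTop (1 : ℝ)] with L h2 h3
  have hL0 : 0 < L := by linarith
  have hl : 0 < Real.log L := Real.log_pos h3
  simp only [Function.comp] at h2
  rw [Real.log_rpow hL0, lt_div_iff₀ (by positivity), one_mul] at h2
  have hQpos := QQ_pos ⌊L ^ w2⌋₊
  have h4 : QQ ⌊L ^ w2⌋₊ ≤ 1 / (w2 * Real.log L) := by
    rw [le_div_iff₀ (by positivity)]
    rw [lt_inv_comm₀ (by positivity) hQpos] at h2
    have := mul_lt_mul_of_pos_right h2 (show (0 : ℝ) < w2 * Real.log L by positivity)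
    rw [inv_mul_cancel₀ (by positivity)] at this
    exact this.le
  have hy : 0 ≤ L ^ w := (Real.rpow_pos_of_pos hL0 w).le
  have hy2 : 0 ≤ L ^ w2 := (Real.rpow_pos_of_pos hL0 w2).le
  have hle : L ^ w2 ≤ L ^ w := Real.rpow_le_rpow_of_exponent_le h3.le hww
  set A := (Icc 1 ⌊L ^ w2⌋₊).filter Nat.Prime with hA
  set F := q.primeFactors with hF
  have hdisj : Disjoint (BB q (L ^ w)) (Pq q 1 0 (L ^ w2)) := by
    rw [Finset.disjoint_left]
    intro p hp hp2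
    exact ((mem_BB hy).1 hp).2.2.1 ((mem_Pq hy2).1 hp2).2.1
  have h5 : VV' (BB q (L ^ w)) * VV' (Pq q 1 0 (L ^ w2)) = VV' (BB q (L ^ w) ∪ Pq q 1 0 (L ^ w2)) := by
    unfold VV'
    rw [prod_union hdisj]
  have hdisj2 : Disjoint (BB q (L ^ w) ∪ Pq q 1 0 (L ^ w2)) (F.filter (fun p => ¬ p ≡ 1 [MOD q])) := by
    rw [Finset.disjoint_left]
    intro p hp hp2
    rw [mem_filter, hF, Nat.mem_primeFactors] at hp2
    rw [mem_union, mem_BB hy, mem_Pq hy2] at hp
    rcases hp with hp | hp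
    · exact hp.2.1 hp2.1.2.1
    · exact hp2.2 hp.2.1
  have h6 : A ⊆ (BB q (L ^ w) ∪ Pq q 1 0 (L ^ w2)) ∪ F.filter (fun p => ¬ p ≡ 1 [MOD q]) := by
    intro p hp
    rw [hA, mem_filter, mem_Icc] at hp
    have hp2 : (p : ℝ) ≤ L ^ w2 := (Nat.le_floor_iff hy2).1 hp.1.2
    rw [mem_union, mem_union, mem_BB hy, mem_Pq hy2, mem_filter, hF, Nat.mem_primeFactors]
    by_cases h7 : p ≡ 1 [MOD q]
    · exact Or.inl (Or.inr ⟨hp.2, h7, by exact_mod_cast hp.2.pos, hp2⟩)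
    · by_cases h8 : p ∣ q
      · exact Or.inr ⟨⟨hp.2, h8, hq.ne'⟩, h7⟩
      · exact Or.inl (Or.inl ⟨hp.2, h8, h7, hp2.trans hle⟩)
  have hall : ∀ p ∈ (BB q (L ^ w) ∪ Pq q 1 0 (L ^ w2)) ∪ F.filter (fun p => ¬ p ≡ 1 [MOD q]), p.Prime := by
    intro p hp
    rw [mem_union, mem_union, mem_BB hy, mem_Pq hy2, mem_filter, hF, Nat.mem_primeFactors] at hp
    rcases hp with (hp | hp) | hp
    · exact hp.1
    · exact hp.1
    · exact hp.1.1
  have h7 := VV_anti A _ h6 hall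
  have h8 : VV' ((BB q (L ^ w) ∪ Pq q 1 0 (L ^ w2)) ∪ F.filter (fun p => ¬ p ≡ 1 [MOD q])) =
      VV' (BB q (L ^ w) ∪ Pq q 1 0 (L ^ w2)) * VV' (F.filter (fun p => ¬ p ≡ 1 [MOD q])) := by
    unfold VV'
    rw [prod_union hdisj2]
  have h9 : VV' A = QQ ⌊L ^ w2⌋₊ := rfl
  have h10 : (q.totient : ℝ) / q ≤ VV' (F.filter (fun p => ¬ p ≡ 1 [MOD q])) := by
    have e1 : (q.totient : ℝ) / q = VV' F := by
      unfold VV'
      have h11 := Nat.totient_eq_mul_prod_factors q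
      have h12 : ((q.totient : ℚ) : ℝ) = ((q * ∏ p ∈ q.primeFactors, (1 - (p : ℚ)⁻¹) : ℚ) : ℝ) := by rw [h11]
      push_cast at h12
      rw [h12]
      have : (0 : ℝ) < q := by exact_mod_cast hq
      rw [mul_div_cancel_left₀ _ this.ne']
      simp only [one_div, hF]
    rw [e1]
    exact VV_anti _ _ (filter_subset _ _) fun p hp => (Nat.mem_primeFactors.1 hp).1
  rw [h5]
  rw [h8, h9] at h7
  have h11 : 0 < VV' (BB q (L ^ w) ∪ Pq q 1 0 (L ^ w2)) := VV_pos _ fun p hp => hall p (mem_union_left _ hp)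
  have hq0 : (0 : ℝ) < q := by exact_mod_cast hq
  have h12 : VV' (BB q (L ^ w) ∪ Pq q 1 0 (L ^ w2)) * ((q.totient : ℝ) / q) ≤ 1 / (w2 * Real.log L) :=
    (mul_le_mul_of_nonneg_left h10 h11.le).trans (h7.trans h4)
  calc VV' (BB q (L ^ w) ∪ Pq q 1 0 (L ^ w2)) =
      (q : ℝ) / q.totient * (VV' (BB q (L ^ w) ∪ Pq q 1 0 (L ^ w2)) * ((q.totient : ℝ) / q)) := by field_simp
    _ ≤ _ := mul_le_mul_of_nonneg_left h12 (by positivity)

theorem sumG (q : ℕ) (w0 w2 : ℝ) (hw2 : 0 < w2) (hw : 2 * w2 < w0) : ∀ᶠ L : ℝ in atTop,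
    ∑ p ∈ Pq q 1 0 (L ^ w2), Real.log p / p ≤ Real.log (L ^ w0) / 2 := by
  obtain ⟨C, hC⟩ := R2_real
  filter_upwards [eventually_gt_atTop (1 : ℝ), Real.tendsto_log_atTop.eventually_ge_atTop (C / (w0 / 2 - w2))] with L h1 h2
  have hL0 : 0 < L := by linarith
  have hl : 0 < Real.log L := Real.log_pos h1
  have h3 : 1 ≤ L ^ w2 := Real.one_le_rpow h1.le hw2.le
  have h4 := (abs_le.1 (hC _ h3)).2
  rw [Real.log_rpow hL0] at h4
  rw [Real.log_rpow hL0]
  rw [div_le_iff₀ (by linarith)] at h2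
  have h5 : ∑ p ∈ Pq q 1 0 (L ^ w2), Real.log p / p ≤ R2 ⌊L ^ w2⌋₊ := by
    unfold R2
    apply sum_le_sum_of_subset_of_nonneg
    · intro p hp
      unfold Pq at hp
      rw [mem_filter] at hp ⊢
      exact ⟨hp.1, hp.2.1⟩
    · intro p _ _
      exact div_nonneg (Real.log_natCast_nonneg p) (Nat.cast_nonneg p)
  nlinarith

/-- the lower bound for the number of last primes -/
theorem last_prime (q b0 k : ℕ) (hq : 0 < q) (hb0 : b0.Coprime q) (a w : ℝ) (ha : 0 < a) (hw : 0 < w) (hwa : w < a) :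
    ∀ᶠ L : ℝ in atTop, ∀ D : ℕ, 0 < D → (D : ℝ) ≤ L ^ (w / 4 + k * ((a - w) / (k + 1) + w / (4 * (k + 1)))) →
      L ^ (k * ((a - w) / (k + 1))) ≤ D →
      (⌊L ^ a⌋₊ : ℝ) / D / (4 * q.totient * (((a - w) / (k + 1) + w) * Real.log L)) ≤
        (((Pq q b0 (L ^ ((a - w) / (k + 1) + w / (4 * (k + 1)))) (L ^ ((a - w) / (k + 1) + w))).filter
          (fun p => p * D ≤ ⌊L ^ a⌋₊)).card : ℝ) := by
  have hφ : (0 : ℝ) < q.totient := by exact_mod_cast Nat.totient_pos.2 hq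
  have hk0 : (0 : ℝ) < (k : ℝ) + 1 := by positivity
  set α : ℝ := (a - w) / (k + 1) with hα
  set γ : ℝ := α + w / (4 * (k + 1)) with hγ
  set β : ℝ := α + w with hβ
  have hα0 : 0 < α := div_pos (by linarith) hk0
  have hγ0 : 0 < γ := by positivity
  have hβ0 : 0 < β := by positivity
  have hak : (k + 1 : ℝ) * α = a - w := by rw [hα]; field_simp
  have e1 : a - (w / 4 + k * γ) = γ + w / 2 := by
    have : (k : ℝ) * γ = k * α + k * (w / (4 * (k + 1))) := by rw [hγ]; ring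
    have h2 : (k : ℝ) * (w / (4 * (k + 1))) = w / 4 - w / (4 * (k + 1)) := by field_simp; ring
    rw [this, h2, hγ]
    linarith
  have e2 : a - k * α = β := by rw [hβ]; linarith
  obtain ⟨x0, hx0⟩ := eventually_atTop.1 (pi_low q b0 hq hb0)
  have ev1 : ∀ᶠ L : ℝ in atTop, 8 * q.totient * (β * Real.log L) ≤ L ^ (w / 2) := by
    have h1 := (isLittleO_log_rpow_atTop (show 0 < w / 2 by positivity)).bound (show (0 : ℝ) < 1 / (8 * q.totient * β) by positivity)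
    filter_upwards [h1, eventually_gt_atTop (1 : ℝ)] with L h2 h3
    rw [Real.norm_of_nonneg (Real.log_nonneg h3.le), Real.norm_of_nonneg (Real.rpow_nonneg (by linarith) _)] at h2
    have : 8 * q.totient * (β * Real.log L) ≤ 8 * q.totient * (β * (1 / (8 * q.totient * β) * L ^ (w / 2))) := by gcongr
    refine this.trans (le_of_eq ?_)
    field_simp
  filter_upwards [eventually_gt_atTop (1 : ℝ), (tendsto_rpow_atTop (show 0 < γ + w / 2 by positivity)).eventually_ge_atTop (2 * max x0 2),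
    ev1, (tendsto_rpow_atTop ha).eventually_ge_atTop 2] with L h1 h2 h3 h4 D hD hD1 hD2
  have hL0 : 0 < L := by linarith
  have hl : 0 < Real.log L := Real.log_pos h1
  have hDr : (0 : ℝ) < D := by exact_mod_cast hD
  set Y := ⌊L ^ a⌋₊ with hY
  have hY1 : (Y : ℝ) ≤ L ^ a := Nat.floor_le (by positivity)
  have hY2 : L ^ a / 2 ≤ Y := by
    have := Nat.lt_floor_add_one (L ^ a)
    rw [← hY] at this
    linarith
  set x : ℝ := (Y : ℝ) / D with hx
  have hx1 : L ^ (γ + w / 2) / 2 ≤ x := by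
    rw [hx, le_div_iff₀ hDr]
    have h5 : L ^ (γ + w / 2) * D ≤ L ^ a := by
      calc L ^ (γ + w / 2) * D ≤ L ^ (γ + w / 2) * L ^ (w / 4 + k * γ) := mul_le_mul_of_nonneg_left hD1 (by positivity)
        _ = L ^ a := by rw [← Real.rpow_add hL0]; congr 1; linarith
    linarith
  have hx2 : x ≤ L ^ β := by
    rw [hx, div_le_iff₀ hDr]
    calc (Y : ℝ) ≤ L ^ a := hY1
      _ = L ^ β * L ^ (k * α) := by rw [← Real.rpow_add hL0]; congr 1; linarith
      _ ≤ L ^ β * D := mul_le_mul_of_nonneg_left hD2 (by positivity)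
  have hx3 : x0 ≤ x := by
    have := le_max_left x0 2
    linarith
  have hx4 : 2 ≤ x := by
    have := le_max_right x0 2
    linarith
  have hx5 : 0 < x := by linarith
  have hlx : 0 < Real.log x := Real.log_pos (by linarith)
  have hlx2 : Real.log x ≤ β * Real.log L := by
    rw [← Real.log_rpow hL0]
    exact Real.log_le_log hx5 hx2
  have h5 := hx0 x hx3
  have h6 : x / (2 * q.totient * (β * Real.log L)) ≤ x / (2 * q.totient * Real.log x) := by
    apply div_le_div_of_nonneg_left hx5.le (by positivity)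
    apply mul_le_mul_of_nonneg_left hlx2 (by positivity)
  have hLγ : 0 < L ^ γ := Real.rpow_pos_of_pos hL0 γ
  have h7 : L ^ γ ≤ x / (4 * q.totient * (β * Real.log L)) := by
    rw [le_div_iff₀ (by positivity)]
    calc L ^ γ * (4 * q.totient * (β * Real.log L)) = L ^ γ * (8 * q.totient * (β * Real.log L)) / 2 := by ring
      _ ≤ L ^ γ * L ^ (w / 2) / 2 := by
          apply div_le_div_of_nonneg_right _ (by norm_num)
          exact mul_le_mul_of_nonneg_left h3 hLγ.le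
      _ = L ^ (γ + w / 2) / 2 := by rw [← Real.rpow_add hL0 γ (w / 2)]
      _ ≤ x := hx1
  have h8 : (piAP q b0 x : ℝ) ≤ L ^ γ + (((Pq q b0 (L ^ γ) (L ^ β)).filter (fun p => p * D ≤ Y)).card : ℝ) := by
    have e3 : piAP q b0 x ≤ ⌊L ^ γ⌋₊ + ((Pq q b0 (L ^ γ) (L ^ β)).filter (fun p => p * D ≤ Y)).card := by
      unfold piAP
      have e4 : (Icc 1 ⌊x⌋₊).filter (fun p => p.Prime ∧ p ≡ b0 [MOD q]) ⊆
          Icc 1 ⌊L ^ γ⌋₊ ∪ (Pq q b0 (L ^ γ) (L ^ β)).filter (fun p => p * D ≤ Y) := by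
        intro p hp
        rw [mem_filter, mem_Icc] at hp
        have hpx : (p : ℝ) ≤ x := (Nat.le_floor_iff hx5.le).1 hp.1.2
        rw [mem_union]
        by_cases h9 : (p : ℝ) ≤ L ^ γ
        · exact Or.inl (mem_Icc.2 ⟨hp.1.1, Nat.le_floor h9⟩)
        · right
          rw [mem_filter, mem_Pq (by positivity)]
          refine ⟨⟨hp.2.1, hp.2.2, not_le.1 h9, hpx.trans hx2⟩, ?_⟩
          rw [hx, le_div_iff₀ hDr] at hpx
          exact_mod_cast hpx
      refine (card_le_card e4).trans ((card_union_le _ _).trans ?_)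
      rw [Nat.card_Icc, Nat.add_sub_cancel]
    have e5 : (piAP q b0 x : ℝ) ≤ (⌊L ^ γ⌋₊ : ℝ) + (((Pq q b0 (L ^ γ) (L ^ β)).filter (fun p => p * D ≤ Y)).card : ℝ) := by
      exact_mod_cast e3
    have e6 : (⌊L ^ γ⌋₊ : ℝ) ≤ L ^ γ := Nat.floor_le hLγ.le
    linarith
  have h9 : x / (2 * q.totient * (β * Real.log L)) = 2 * (x / (4 * q.totient * (β * Real.log L))) := by
    field_simp; norm_num
  linarith

end Pool.Agent.W5h25.PR
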