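import Pool.Agent.W5h25.PR.H

/-! The lower bound for the terms with a full set of factors, conclusion. -/

set_option autoImplicit false

open Finset Filter Topology
open Pool.Agent.H378R2 Pool.Agent.H510R2.Maier
open Pool.Agent.W5h22.JM

namespace Pool.Agent.W5h25.PR

noncomputable def al (k : ℕ) (a w : ℝ) : ℝ := (a - w) / (k + 1)
noncomputable def ga (k : ℕ) (a w : ℝ) : ℝ := (a - w) / (k + 1) + w / (4 * (k + 1))
noncomputable def be (k : ℕ) (a w : ℝ) : ℝ := (a - w) / (k + 1) + w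

/-- the lower bound for the normalised number -/
noncomputable def kap (q k : ℕ) (a w : ℝ) : ℝ :=
  (((ga k a w - al k a w) / (8 * q.totient * ga k a w)) / 2) ^ k / k.factorial * ((w / 16) / (16 * be k a w))

theorem al_pos (k : ℕ) (a w : ℝ) (hwa : w < a) : 0 < al k a w := by
  unfold al
  exact div_pos (by linarith) (by positivity)

theorem al_lt_ga (k : ℕ) (a w : ℝ) (hw : 0 < w) : al k a w < ga k a w := by
  unfold al ga
  have : 0 < w / (4 * ((k : ℝ) + 1)) := by positivity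
  linarith

theorem ga_lt_be (k : ℕ) (a w : ℝ) (hw : 0 < w) : ga k a w < be k a w := by
  unfold ga be
  have : w / (4 * ((k : ℝ) + 1)) < w := by
    rw [div_lt_iff₀ (by positivity)]
    have : (0 : ℝ) ≤ k := Nat.cast_nonneg k
    nlinarith
  linarith

theorem kap_pos (q k : ℕ) (a w : ℝ) (hq : 0 < q) (hw : 0 < w) (hwa : w < a) : 0 < kap q k a w := by
  have h1 := al_pos k a w hwa
  have h2 := al_lt_ga k a w hw
  have h3 := ga_lt_be k a w hw
  have hφ : (0 : ℝ) < q.totient := by exact_mod_cast Nat.totient_pos.2 hq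
  unfold kap
  have h4 : 0 < ga k a w := by linarith
  have h5 : 0 < be k a w := by linarith
  have h6 : 0 < ga k a w - al k a w := by linarith
  positivity

theorem K_main (q b0 k : ℕ) (hq : 0 < q) (hb0 : b0.Coprime q) (hk : q.totient ∣ k) (a w : ℝ) (hw : 0 < w)
    (hwa : w < a) (hwα : w < al k a w) : ∀ᶠ L : ℝ in atTop,
    kap q k a w * ((⌊L ^ a⌋₊ : ℝ) / q * VV' (BB q (L ^ w))) ≤
      ∑ T ∈ (Pq q b0 (L ^ al k a w) (L ^ be k a w)).powersetCard (k + 1),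
        (((HH (BB q (L ^ w)) q b0 ⌊L ^ a⌋₊).filter (fun h => (∏ p ∈ T, p) ∣ h)).card : ℝ) := by
  have ha : 0 < a := by linarith
  have hα0 := al_pos k a w hwa
  have hαγ := al_lt_ga k a w hw
  have hγβ := ga_lt_be k a w hw
  have hγ0 : 0 < ga k a w := by linarith
  have hβ0 : 0 < be k a w := by linarith
  have hφ : (0 : ℝ) < q.totient := by exact_mod_cast Nat.totient_pos.2 hq
  have hq0 : (0 : ℝ) < q := by exact_mod_cast hq
  set lam : ℝ := (ga k a w - al k a w) / (8 * q.totient * ga k a w) with hlam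
  have hlam0 : 0 < lam := by
    have : 0 < ga k a w - al k a w := by linarith
    positivity
  have ev1 := last_prime q b0 k hq hb0 a w ha hw hwa
  have ev2 := rec_pow q b0 hq hb0 (al k a w) (ga k a w) hα0 hαγ
  have ev3 := sumG q (w / 4) (w / 16) (by positivity) (by linarith)
  have ev4 := VB_VG q hq w (w / 16) (by positivity) (by linarith)
  have ev5 : ∀ᶠ L : ℝ in atTop, (k : ℝ) / L ^ al k a w ≤ lam / 2 := by
    have h1 : Tendsto (fun L : ℝ => (k : ℝ) / L ^ al k a w) atTop (𝓝 0) :=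
      tendsto_const_nhds.div_atTop (tendsto_rpow_atTop hα0)
    filter_upwards [h1.eventually_lt_const (show (0 : ℝ) < lam / 2 by positivity)] with L hL
    exact hL.le
  filter_upwards [ev1, ev2, ev3, ev4, ev5, eventually_gt_atTop (1 : ℝ)] with L h1 h2 h3 h4 h5 h6
  have hL0 : 0 < L := by linarith
  have hl : 0 < Real.log L := Real.log_pos h6
  set P := Pq q b0 (L ^ al k a w) (L ^ be k a w) with hP
  set P1 := Pq q b0 (L ^ al k a w) (L ^ ga k a w) with hP1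
  set P2 := Pq q b0 (L ^ ga k a w) (L ^ be k a w) with hP2
  set G := Pq q 1 0 (L ^ (w / 16)) with hG
  set B := BB q (L ^ w) with hB
  set Y := ⌊L ^ a⌋₊ with hY
  have p1 : 0 ≤ L ^ al k a w := Real.rpow_nonneg hL0.le _
  have p2 : 0 ≤ L ^ ga k a w := Real.rpow_nonneg hL0.le _
  have p3 : 0 ≤ L ^ be k a w := Real.rpow_nonneg hL0.le _
  have p4 : 0 ≤ L ^ w := Real.rpow_nonneg hL0.le _
  have p5 : 0 ≤ L ^ (w / 16) := Real.rpow_nonneg hL0.le _
  have hmono : ∀ x y : ℝ, x ≤ y → L ^ x ≤ L ^ y := fun x y h => Real.rpow_le_rpow_of_exponent_le h6.le h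
  set UU := G.powerset.filter (fun U : Finset ℕ => ∏ p ∈ U, (p : ℝ) ≤ L ^ (w / 4)) with hUU
  have hGp : ∀ p ∈ G, p.Prime := fun p hp => ((mem_Pq p5).1 hp).1
  have hK := K_low B P P1 P2 G q b0 Y k hq hb0 hk (fun p hp => ((mem_BB p4).1 hp).1)
    (fun p hp => by
      obtain ⟨q1, q2, q3, q4⟩ := (mem_Pq p3).1 hp
      refine ⟨q1, q2, fun hpB => ?_⟩
      have q5 := ((mem_BB p4).1 hpB).2.2.2
      have q6 := hmono w (al k a w) hwα.le
      linarith)
    (fun p hp => by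
      obtain ⟨q1, q2, q3, q4⟩ := (mem_Pq p5).1 hp
      exact ⟨q1, q2, fun hpB => ((mem_BB p4).1 hpB).2.2.1 q2⟩)
    (fun p hp => by
      obtain ⟨q1, q2, q3, q4⟩ := (mem_Pq p2).1 hp
      exact (mem_Pq p3).2 ⟨q1, q2, q3, q4.trans (hmono _ _ hγβ.le)⟩)
    (fun p hp => by
      obtain ⟨q1, q2, q3, q4⟩ := (mem_Pq p3).1 hp
      exact (mem_Pq p3).2 ⟨q1, q2, lt_of_le_of_lt (hmono _ _ hαγ.le) q3, q4⟩)
    (by
      rw [Finset.disjoint_left]
      intro p hp hp2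
      have q1 := ((mem_Pq p2).1 hp).2.2.2
      have q2 := ((mem_Pq p3).1 hp2).2.2.1
      linarith)
    UU (fun U hU => mem_powerset.1 (mem_filter.1 hU).1)
  refine le_trans ?_ hK
  -- each term
  have hterm : ∀ T' ∈ P1.powersetCard k, ∀ U ∈ UU,
      (Y : ℝ) / (4 * q.totient * (be k a w * Real.log L)) * ((∏ x ∈ T', (x : ℝ))⁻¹ * (∏ x ∈ U, (x : ℝ))⁻¹) ≤
        ((P2.filter (fun p => p * ((∏ x ∈ U, x) * ∏ x ∈ T', x) ≤ Y)).card : ℝ) := by
    intro T' hT' U hU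
    rw [mem_powersetCard] at hT'
    rw [hUU, mem_filter, mem_powerset] at hU
    have hT'p : ∀ x ∈ T', x.Prime ∧ L ^ al k a w < x ∧ (x : ℝ) ≤ L ^ ga k a w := fun x hx => by
      obtain ⟨q1, q2, q3, q4⟩ := (mem_Pq p2).1 (hT'.1 hx)
      exact ⟨q1, q3, q4⟩
    have hU0 : 0 < ∏ x ∈ U, x := prod_pos fun x hx => (hGp x (hU.1 hx)).pos
    have hT0 : 0 < ∏ x ∈ T', x := prod_pos fun x hx => (hT'p x hx).1.pos
    have c1 : ((∏ x ∈ U, x : ℕ) : ℝ) = ∏ x ∈ U, (x : ℝ) := by push_cast; rfl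
    have c2 : ((∏ x ∈ T', x : ℕ) : ℝ) = ∏ x ∈ T', (x : ℝ) := by push_cast; rfl
    have b1 : ∏ x ∈ T', (x : ℝ) ≤ L ^ (k * ga k a w) := by
      calc ∏ x ∈ T', (x : ℝ) ≤ ∏ _x ∈ T', L ^ ga k a w :=
            Finset.prod_le_prod (fun x _ => Nat.cast_nonneg x) fun x hx => (hT'p x hx).2.2
        _ = L ^ (k * ga k a w) := by
            rw [prod_const, hT'.2, mul_comm, Real.rpow_mul hL0.le, Real.rpow_natCast]
    have b2 : L ^ (k * al k a w) ≤ ∏ x ∈ T', (x : ℝ) := by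
      calc L ^ (k * al k a w) = ∏ _x ∈ T', L ^ al k a w := by
            rw [prod_const, hT'.2, mul_comm, Real.rpow_mul hL0.le, Real.rpow_natCast]
        _ ≤ _ := Finset.prod_le_prod (fun x _ => p1) fun x hx => (hT'p x hx).2.1.le
    have c3 : (((∏ x ∈ U, x) * ∏ x ∈ T', x : ℕ) : ℝ) = (∏ x ∈ U, (x : ℝ)) * ∏ x ∈ T', (x : ℝ) := by push_cast; rfl
    have hU1 : (1 : ℝ) ≤ ∏ x ∈ U, (x : ℝ) := by
      rw [← c1]; exact_mod_cast hU0
    have hT1 : (0 : ℝ) < ∏ x ∈ T', (x : ℝ) := by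
      rw [← c2]; exact_mod_cast hT0
    have h7 := h1 ((∏ x ∈ U, x) * ∏ x ∈ T', x) (Nat.mul_pos hU0 hT0) (by
      rw [c3]
      calc (∏ x ∈ U, (x : ℝ)) * ∏ x ∈ T', (x : ℝ) ≤ L ^ (w / 4) * L ^ (k * ga k a w) :=
            mul_le_mul hU.2 b1 hT1.le (by positivity)
        _ = _ := by rw [← Real.rpow_add hL0]; rfl) (by
      rw [c3]
      calc L ^ (k * ((a - w) / (k + 1))) = L ^ (k * al k a w) := rfl
        _ ≤ ∏ x ∈ T', (x : ℝ) := b2
        _ ≤ _ := le_mul_of_one_le_left hT1.le hU1)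
    refine le_trans (le_of_eq ?_) h7
    rw [c3]
    have hU2 : (0 : ℝ) < ∏ x ∈ U, (x : ℝ) := by linarith
    have e1 : be k a w = (a - w) / (k + 1) + w := rfl
    rw [← e1]
    field_simp
  have hsum : ∑ T' ∈ P1.powersetCard k, ∑ U ∈ UU, (Y : ℝ) / (4 * q.totient * (be k a w * Real.log L)) *
      ((∏ x ∈ T', (x : ℝ))⁻¹ * (∏ x ∈ U, (x : ℝ))⁻¹) ≤
      ∑ T' ∈ P1.powersetCard k, ∑ U ∈ UU, ((P2.filter (fun p => p * ((∏ x ∈ U, x) * ∏ x ∈ T', x) ≤ Y)).card : ℝ) :=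
    sum_le_sum fun T' hT' => sum_le_sum fun U hU => hterm T' hT' U hU
  refine le_trans ?_ hsum
  have hfac : ∑ T' ∈ P1.powersetCard k, ∑ U ∈ UU, (Y : ℝ) / (4 * q.totient * (be k a w * Real.log L)) *
      ((∏ x ∈ T', (x : ℝ))⁻¹ * (∏ x ∈ U, (x : ℝ))⁻¹) =
      (Y : ℝ) / (4 * q.totient * (be k a w * Real.log L)) * (ee P1 k * ∑ U ∈ UU, (∏ x ∈ U, (x : ℝ))⁻¹) := by
    unfold ee
    rw [sum_mul_sum, mul_sum]
    refine sum_congr rfl fun T' _ => ?_
    rw [mul_sum]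
  rw [hfac]
  -- lower bounds
  have g1 : (lam / 2) ^ k / k.factorial ≤ ee P1 k := by
    have q1 : lam ≤ ee P1 1 := by rw [ee_one]; exact h2
    have q2 := ee_ge P1 k (L ^ al k a w) (Real.rpow_pos_of_pos hL0 _) (fun p hp => ((mem_Pq p2).1 hp).2.2.1.le) (by linarith)
    refine le_trans ?_ q2
    gcongr
  have hVG := VV_pos G hGp
  have hVB := VV_pos B fun p hp => ((mem_BB p4).1 hp).1
  have g2 : VV' B * ((q.totient : ℝ) / q * (w / 16 * Real.log L)) / 4 ≤ ∑ U ∈ UU, (∏ x ∈ U, (x : ℝ))⁻¹ := by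
    have q1 := ZZ_small G (fun p hp => (hGp p hp).one_lt.le) (L ^ (w / 4)) (Real.one_lt_rpow h6 (by positivity)) h3
    have q2 := ZZ_ge G fun p hp => (hGp p hp).two_le
    have q3 : VV' B * ((q.totient : ℝ) / q * (w / 16 * Real.log L)) ≤ (VV' G)⁻¹ := by
      rw [le_inv_comm₀ (by positivity) hVG]
      have q4 : VV' G ≤ (VV' B)⁻¹ * ((q : ℝ) / q.totient * (1 / (w / 16 * Real.log L))) := by
        rw [← div_eq_inv_mul, le_div_iff₀ hVB]
        rw [mul_comm]; exact h4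
      refine q4.trans (le_of_eq ?_)
      field_simp
    have q5 : (∏ p ∈ G, (1 - 1 / (p : ℝ))) = VV' G := rfl
    rw [q5] at q2
    linarith
  have hY0 : (0 : ℝ) ≤ Y := Nat.cast_nonneg Y
  calc kap q k a w * ((Y : ℝ) / q * VV' B) =
      (Y : ℝ) / (4 * q.totient * (be k a w * Real.log L)) * ((lam / 2) ^ k / k.factorial *
        (VV' B * ((q.totient : ℝ) / q * (w / 16 * Real.log L)) / 4)) := by
        unfold kap
        rw [← hlam]
        field_simp
        ring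
    _ ≤ _ := by
        apply mul_le_mul_of_nonneg_left _ (by positivity)
        apply mul_le_mul g1 g2 (by positivity) (ee_nonneg _ _)

end Pool.Agent.W5h25.PR
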