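import Pool.Agent.W5h25.PR.H2

/-! The sieved residue classes, without exceptional primes. -/

set_option autoImplicit false

open Finset Filter Topology
open Pool.Agent.H378R2 Pool.Agent.H510R2.Maier
open Pool.Agent.W5h22.JM

namespace Pool.Agent.W5h25.PR

theorem exJ (y : ℝ) (hy : 2 < y) : ∃ J : ℕ, y ≤ ((2 ^ 2 ^ J : ℕ) : ℝ) ∧ ((2 ^ 2 ^ J : ℕ) : ℝ) ≤ y ^ 2 := by
  have hex : ∃ J : ℕ, y ≤ ((2 ^ 2 ^ J : ℕ) : ℝ) := by
    refine ⟨⌈y⌉₊, (Nat.le_ceil y).trans ?_⟩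
    have h1 : ⌈y⌉₊ ≤ 2 ^ ⌈y⌉₊ := Nat.lt_two_pow_self.le
    have h2 : 2 ^ ⌈y⌉₊ ≤ 2 ^ 2 ^ ⌈y⌉₊ := Nat.pow_le_pow_right (by norm_num) h1
    exact_mod_cast h1.trans h2
  classical
  refine ⟨Nat.find hex, Nat.find_spec hex, ?_⟩
  have h0 : Nat.find hex ≠ 0 := by
    intro h0
    have h1 := Nat.find_spec hex
    rw [h0] at h1
    norm_num at h1
    linarith
  obtain ⟨J, hJ⟩ := Nat.exists_eq_succ_of_ne_zero h0
  have h1 := Nat.find_min hex (m := J) (by omega)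
  rw [hJ]
  have h2 : ((2 ^ 2 ^ J : ℕ) : ℝ) < y := not_le.1 h1
  have h3 : ((2 ^ 2 ^ (J.succ) : ℕ) : ℝ) = ((2 ^ 2 ^ J : ℕ) : ℝ) ^ 2 := by
    push_cast
    rw [← pow_mul, pow_succ 2 J]
  rw [h3]
  exact pow_le_pow_left₀ (Nat.cast_nonneg _) h2.le 2

/-- the fundamental lemma with powers of `L` -/
theorem flp : ∃ C0 C2 : ℕ, 1 ≤ C0 ∧ ∀ (q n : ℕ) (w : ℝ), 0 < q → C0 ≤ n → 0 < w → ∀ᶠ L : ℝ in atTop, ∀ B : Finset ℕ,
    (∀ p ∈ B, p.Prime ∧ ¬ p ∣ q ∧ (p : ℝ) ≤ L ^ w) → ∀ N r : ℕ,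
    |(cntq B q r N : ℝ) - (N : ℝ) / q * VV' B| ≤
      (1 / 2 : ℝ) ^ n * ((N : ℝ) / q * VV' B) + C2 * L ^ (6 * w * C0 * n) := by
  obtain ⟨C0, C1, hC0, h⟩ := flq2
  refine ⟨C0, 3 * C1, hC0, fun q n w hq hn hw => ?_⟩
  filter_upwards [(tendsto_rpow_atTop hw).eventually_gt_atTop 2, eventually_gt_atTop (1 : ℝ)] with L h1 h2 B hB N r
  have hL0 : 0 < L := by linarith
  obtain ⟨J, hJ1, hJ2⟩ := exJ (L ^ w) h1
  have h3 := h q n J B hq hn (fun p hp => ⟨(hB p hp).1, (hB p hp).2.1, by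
    have := (hB p hp).2.2.trans hJ1
    exact_mod_cast this⟩) N r
  refine h3.trans (add_le_add le_rfl ?_)
  set Q : ℝ := ((2 ^ 2 ^ J : ℕ) : ℝ) with hQ
  have hQ1 : 1 ≤ Q := by
    have : 1 ≤ 2 ^ 2 ^ J := Nat.one_le_two_pow
    rw [hQ]; exact_mod_cast this
  have hJQ : (J : ℝ) ≤ Q := by
    have e1 : J ≤ 2 ^ J := Nat.lt_two_pow_self.le
    have e2 : 2 ^ J ≤ 2 ^ 2 ^ J := Nat.pow_le_pow_right (by norm_num) e1
    rw [hQ]; exact_mod_cast e1.trans e2
  have e1 : ((J : ℝ) + 2) * (Q ^ (C0 * n)) ^ 2 ≤ 3 * Q ^ (3 * (C0 * n)) := by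
    calc ((J : ℝ) + 2) * (Q ^ (C0 * n)) ^ 2 ≤ (3 * Q) * (Q ^ (C0 * n)) ^ 2 := by
          apply mul_le_mul_of_nonneg_right _ (by positivity)
          linarith
      _ = 3 * Q ^ (1 + 2 * (C0 * n)) := by
          rw [← pow_mul, pow_add, pow_one, mul_comm (C0 * n) 2]; ring
      _ ≤ 3 * Q ^ (3 * (C0 * n)) := by
          apply mul_le_mul_of_nonneg_left _ (by norm_num)
          apply pow_le_pow_right₀ hQ1
          have : 1 ≤ C0 * n := Nat.mul_pos hC0 (lt_of_lt_of_le hC0 hn)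
          omega
  have e2 : Q ^ (3 * (C0 * n)) ≤ L ^ (6 * w * C0 * n) := by
    calc Q ^ (3 * (C0 * n)) ≤ ((L ^ w) ^ 2) ^ (3 * (C0 * n)) := pow_le_pow_left₀ (by linarith) hJ2 _
      _ = L ^ (6 * w * C0 * n) := by
          rw [← pow_mul, ← Real.rpow_natCast, ← Real.rpow_mul hL0.le]
          congr 1
          push_cast; ring
  push_cast
  have hC1 : (0 : ℝ) ≤ C1 := Nat.cast_nonneg C1
  calc (C1 : ℝ) * (((J : ℝ) + 2) * (Q ^ (C0 * n)) ^ 2) ≤ C1 * (3 * L ^ (6 * w * C0 * n)) := by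
        apply mul_le_mul_of_nonneg_left _ hC1
        linarith
    _ = 3 * C1 * L ^ (6 * w * C0 * n) := by ring

theorem all_one (q m : ℕ) (hm : m ≠ 0) (h : ∀ p : ℕ, p.Prime → p ∣ m → p ≡ 1 [MOD q]) : m ≡ 1 [MOD q] := by
  induction m using Nat.recOnMul with
  | zero => exact absurd rfl hm
  | one => exact Nat.ModEq.refl _
  | prime p hp => exact h p hp dvd_rfl
  | mul a b ha hb =>
    have ha0 : a ≠ 0 := fun h0 => hm (by rw [h0, zero_mul])
    have hb0 : b ≠ 0 := fun h0 => hm (by rw [h0, mul_zero])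
    have h1 := ha ha0 fun p hp hd => h p hp (hd.mul_right b)
    have h2 := hb hb0 fun p hp hd => h p hp (hd.mul_left a)
    simpa using h1.mul h2

/-- other classes have no terms with a full set of factors -/
theorem K_zero (q b0 k r : ℕ) (hb0 : b0.Coprime q) (hr : r.Coprime q) (hrb : ¬ r ≡ b0 [MOD q]) (hk : q.totient ∣ k) (a w L : ℝ)
    (hL : 1 < L) (hw : 0 < w) (hwa : w < a) (T : Finset ℕ)
    (hT : T ∈ (Pq q b0 (L ^ al k a w) (L ^ be k a w)).powersetCard (k + 1)) :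
    ((HH (BB q (L ^ w)) q r ⌊L ^ a⌋₊).filter (fun h => (∏ p ∈ T, p) ∣ h)).card = 0 := by
  have hL0 : 0 < L := by linarith
  have p3 : 0 ≤ L ^ be k a w := Real.rpow_nonneg hL0.le _
  have p4 : 0 ≤ L ^ w := Real.rpow_nonneg hL0.le _
  rw [card_eq_zero, filter_eq_empty_iff]
  intro h hh hd
  unfold HH at hh
  rw [mem_filter, mem_Ioc] at hh
  obtain ⟨⟨h1, h2⟩, h3, h4⟩ := hh
  rw [mem_powersetCard] at hT
  have hTp : ∀ x ∈ T, x.Prime ∧ x ≡ b0 [MOD q] ∧ L ^ al k a w < x := fun x hx => by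
    obtain ⟨q1, q2, q3, q4⟩ := (mem_Pq p3).1 (hT.1 hx)
    exact ⟨q1, q2, q3⟩
  obtain ⟨m, rfl⟩ := hd
  have hT0 : 0 < ∏ x ∈ T, x := prod_pos fun x hx => (hTp x hx).1.pos
  have hm0 : m ≠ 0 := by rintro rfl; simp at h1
  have e1 : (∏ x ∈ T, x) ≡ b0 [MOD q] := by
    have e3 : (∏ x ∈ T, x) ≡ b0 ^ T.card [MOD q] := by
      have : ∀ T' ⊆ T, (∏ x ∈ T', x) ≡ b0 ^ T'.card [MOD q] := by
        intro T' hT'
        induction T' using Finset.induction_on with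
        | empty => exact Nat.ModEq.refl _
        | insert a s ha ih =>
          rw [prod_insert ha, card_insert_of_notMem ha, pow_succ, mul_comm]
          exact Nat.ModEq.mul (ih ((subset_insert _ _).trans hT')) (hTp a (hT' (mem_insert_self _ _))).2.1
      exact this T (Subset.refl T)
    refine e3.trans ?_
    rw [hT.2]
    obtain ⟨m', rfl⟩ := hk
    rw [pow_succ, pow_mul]
    have := ((Nat.ModEq.pow_totient hb0).pow m').mul_right b0
    rwa [one_pow, one_mul] at this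
  have hle : ((∏ x ∈ T, x : ℕ) : ℝ) * m ≤ L ^ a := by
    have e2 : (((∏ x ∈ T, x) * m : ℕ) : ℝ) ≤ L ^ a := le_trans (by exact_mod_cast h2) (Nat.floor_le (by positivity))
    push_cast at e2 ⊢
    exact e2
  have b2 : L ^ (a - w) ≤ ((∏ x ∈ T, x : ℕ) : ℝ) := by
    push_cast
    calc L ^ (a - w) = ∏ _x ∈ T, L ^ al k a w := by
          rw [prod_const, hT.2, ← Real.rpow_natCast, ← Real.rpow_mul hL0.le]
          congr 1
          unfold al
          push_cast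
          field_simp
      _ ≤ _ := Finset.prod_le_prod (fun x _ => (Real.rpow_pos_of_pos hL0 _).le) fun x hx => (hTp x hx).2.2.le
  have hmw : (m : ℝ) ≤ L ^ w := by
    have e3 : L ^ (a - w) * m ≤ L ^ (a - w) * L ^ w := by
      calc L ^ (a - w) * m ≤ ((∏ x ∈ T, x : ℕ) : ℝ) * m := mul_le_mul_of_nonneg_right b2 (Nat.cast_nonneg m)
        _ ≤ L ^ a := hle
        _ = L ^ (a - w) * L ^ w := by rw [← Real.rpow_add hL0]; congr 1; ring
    exact le_of_mul_le_mul_left e3 (Real.rpow_pos_of_pos hL0 _)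
  have hm1 : m ≡ 1 [MOD q] := by
    apply all_one q m hm0
    intro p hp hpm
    by_contra hcon
    have hpq : ¬ p ∣ q := by
      intro hpq
      have h5 : (∏ x ∈ T, x) * m ≡ r [MOD p] := h3.of_dvd hpq
      have h6 : p ∣ r := (Nat.ModEq.dvd_iff h5 dvd_rfl).1 (hpm.mul_left _)
      have h7 := Nat.dvd_gcd h6 hpq
      rw [hr] at h7
      exact hp.one_lt.ne' (Nat.dvd_one.1 h7)
    have hpw : (p : ℝ) ≤ L ^ w := le_trans (by exact_mod_cast Nat.le_of_dvd (Nat.pos_of_ne_zero hm0) hpm) hmw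
    exact h4 p ((mem_BB p4).2 ⟨hp, hpq, hcon, hpw⟩) (hpm.mul_left _)
  apply hrb
  have h5 := e1.mul hm1
  rw [mul_one] at h5
  exact h3.symm.trans h5

/-- the clean classes -/
theorem clean : ∃ C0 : ℕ, 1 ≤ C0 ∧ ∀ (q b0 k n : ℕ) (a w τ : ℝ), 0 < q → b0.Coprime q → q.totient ∣ k → 1 ≤ k → C0 ≤ n →
    0 < w → w < a → (k + 2) * w ≤ a → 6 * w * C0 * n + k * w < al k a w → Real.log (be k a w / al k a w) ≤ 1 / 4 → 0 < τ →
    ∀ᶠ L : ℝ in atTop,
      ee (Pq q b0 (L ^ al k a w) (L ^ be k a w)) 1 ≤ 1 / 2 ∧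
      (∀ B' ⊆ BB q (L ^ w), ∀ N r : ℕ, |(cntq B' q r N : ℝ) - (N : ℝ) / q * VV' B'| ≤ (1 / 2 : ℝ) ^ n * ((N : ℝ) / q * VV' B') +
        τ * L ^ (-be k a w) * ((⌊L ^ a⌋₊ : ℝ) / q * VV' (BB q (L ^ w)))) ∧
      ∃ E0 : ℝ, (∀ r : ℕ, r.Coprime q → ¬ r ≡ b0 [MOD q] →
        |(cntq (BB q (L ^ w) ∪ Pq q b0 (L ^ al k a w) (L ^ be k a w)) q r ⌊L ^ a⌋₊ : ℝ) - E0| ≤
          ((1 / 2 : ℝ) ^ n * (k + 1) + τ) * ((⌊L ^ a⌋₊ : ℝ) / q * VV' (BB q (L ^ w)))) ∧
        (kap q k a w - ((1 / 2 : ℝ) ^ n * (k + 1) + τ)) * ((⌊L ^ a⌋₊ : ℝ) / q * VV' (BB q (L ^ w))) ≤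
          (-1) ^ (k + 1) * ((cntq (BB q (L ^ w) ∪ Pq q b0 (L ^ al k a w) (L ^ be k a w)) q b0 ⌊L ^ a⌋₊ : ℝ) - E0) := by
  obtain ⟨C0, C2, hC0, hfl⟩ := flp
  refine ⟨C0, hC0, fun q b0 k n a w τ hq hb0 hk hk1 hn hw hwa hkw hρ hlog hτ => ?_⟩
  set ρ : ℝ := 6 * w * C0 * n with hρdef
  have hρ0 : 0 ≤ ρ := by positivity
  have ha : 0 < a := by linarith
  have hα0 := al_pos k a w hwa
  have hkr : (1 : ℝ) ≤ k := by exact_mod_cast hk1
  have hwα : w < al k a w := by nlinarith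
  have hβ : be k a w = al k a w + w := rfl
  have hβ0 : 0 < be k a w := by linarith
  have hq0 : (0 : ℝ) < q := by exact_mod_cast hq
  have hak : ((k : ℝ) + 1) * al k a w = a - w := by unfold al; field_simp
  have hexp : ρ + k * be k a w < a - w := by
    rw [hβ]; nlinarith
  have hexp2 : ρ + be k a w < a - w := by nlinarith
  have ev1 := hfl q n w hq hn hw
  have ev2 := rec_up q b0 (al k a w) (be k a w) (1 / 4) hα0 (by linarith) (by norm_num)
  have ev3 := K_main q b0 k hq hb0 hk a w hw hwa hwα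
  have ev4 := ev_pow (ρ + k * be k a w) (a - w) ((C2 + 1) * (k + 1)) (τ / (2 * q)) (by positivity) hexp (by positivity) (by positivity)
  have ev5 := ev_pow (ρ + be k a w) (a - w) C2 (τ / (2 * q)) (by positivity) hexp2 (by positivity) (by positivity)
  filter_upwards [ev1, ev2, ev3, ev4, ev5, eventually_gt_atTop (1 : ℝ), (tendsto_rpow_atTop ha).eventually_ge_atTop 2] with
    L h1 h2 h3 h4 h5 h6 h7
  have hL0 : 0 < L := by linarith
  have p3 : 0 ≤ L ^ be k a w := Real.rpow_nonneg hL0.le _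
  have p4 : 0 ≤ L ^ w := Real.rpow_nonneg hL0.le _
  have hmono : ∀ x y : ℝ, x ≤ y → L ^ x ≤ L ^ y := fun x y h => Real.rpow_le_rpow_of_exponent_le h6.le h
  set P := Pq q b0 (L ^ al k a w) (L ^ be k a w) with hP
  set B := BB q (L ^ w) with hB
  set Y := ⌊L ^ a⌋₊ with hY
  have hY1 : (Y : ℝ) ≤ L ^ a := Nat.floor_le (by positivity)
  have hY2 : L ^ a / 2 ≤ Y := by
    have := Nat.lt_floor_add_one (L ^ a)
    rw [← hY] at this
    linarith
  have hBp : ∀ p ∈ B, p.Prime ∧ ¬ p ∣ q ∧ (p : ℝ) ≤ L ^ w := fun p hp => by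
    obtain ⟨q1, q2, q3, q4⟩ := (mem_BB p4).1 hp
    exact ⟨q1, q2, q4⟩
  have he1 : ee P 1 ≤ 1 / 2 := by
    rw [ee_one]; linarith
  -- the size of the unit
  have hVB : (L ^ w)⁻¹ ≤ VV' B := by
    have e1 : 1 ≤ ⌊L ^ w⌋₊ := Nat.le_floor (by
      rw [Nat.cast_one]; exact Real.one_le_rpow h6.le hw.le)
    have e2 := PP_ge B (fun p hp => (hBp p hp).1) ⌊L ^ w⌋₊ e1 fun p hp => Nat.le_floor (hBp p hp).2.2
    rw [PP_prod B fun p hp => (hBp p hp).1] at e2
    refine le_trans ?_ e2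
    rw [one_div]
    apply inv_anti₀ (by exact_mod_cast e1)
    exact Nat.floor_le p4
  set Un : ℝ := (Y : ℝ) / q * VV' B with hUn
  have hUn1 : L ^ (a - w) / (2 * q) ≤ Un := by
    have e1 : L ^ (a - w) = L ^ a * (L ^ w)⁻¹ := by
      rw [← Real.rpow_neg hL0.le, ← Real.rpow_add hL0]; rfl
    rw [e1, hUn]
    calc L ^ a * (L ^ w)⁻¹ / (2 * q) = L ^ a / 2 / q * (L ^ w)⁻¹ := by field_simp
      _ ≤ (Y : ℝ) / q * VV' B := by
          apply mul_le_mul _ hVB (by positivity) (by positivity)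
          exact div_le_div_of_nonneg_right hY2 hq0.le
  have hC2 : (0 : ℝ) ≤ C2 := Nat.cast_nonneg C2
  have hLρ : 1 ≤ L ^ ρ := Real.one_le_rpow h6.le hρ0
  refine ⟨he1, ?_, ?_⟩
  · intro B' hB' N r
    have e1 := h1 B' (fun p hp => hBp p (hB' hp)) N r
    refine e1.trans (add_le_add le_rfl ?_)
    rw [← hρdef]
    have e2 : C2 * L ^ (ρ + be k a w) ≤ τ * Un := by
      calc C2 * L ^ (ρ + be k a w) ≤ τ / (2 * q) * L ^ (a - w) := by linarith
        _ = τ * (L ^ (a - w) / (2 * q)) := by ring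
        _ ≤ τ * Un := mul_le_mul_of_nonneg_left hUn1 hτ.le
    have e3 : C2 * L ^ ρ = L ^ (-be k a w) * (C2 * L ^ (ρ + be k a w)) := by
      rw [mul_left_comm, ← Real.rpow_add hL0]
      congr 2
      ring
    rw [e3]
    calc L ^ (-be k a w) * (C2 * L ^ (ρ + be k a w)) ≤ L ^ (-be k a w) * (τ * Un) :=
          mul_le_mul_of_nonneg_left e2 (by positivity)
      _ = _ := by ring
  · have hcop : ∀ p ∈ P, p.Prime ∧ ¬ p ∣ q ∧ p ∉ B := fun p hp => by
      obtain ⟨q1, q2, q3, q4⟩ := (mem_Pq p3).1 hp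
      refine ⟨q1, ?_, fun hpB => ?_⟩
      · intro hpq
        have h8 : p ≡ b0 [MOD p] := q2.of_dvd hpq
        have h9 : p ∣ b0 := (Nat.ModEq.dvd_iff h8 dvd_rfl).1 dvd_rfl
        have h10 := Nat.dvd_gcd h9 hpq
        rw [hb0] at h10
        exact q1.one_lt.ne' (Nat.dvd_one.1 h10)
      · have q5 := (hBp p hpB).2.2
        have q6 := hmono w (al k a w) hwα.le
        linarith
    have hcardP : (P.card : ℝ) ≤ L ^ be k a w := card_le P (fun p hp => (hcop p hp).1) _ p3 fun p hp => ((mem_Pq p3).1 hp).2.2.2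
    have hleg : ∀ r : ℕ, |(cntq (B ∪ P) q r Y : ℝ) - (Y : ℝ) / q * VV' B * ∑ j ∈ range (k + 1), (-1 : ℝ) ^ j * ee P j -
        (-1) ^ (k + 1) * ∑ T ∈ P.powersetCard (k + 1), (((HH B q r Y).filter (fun h => (∏ p ∈ T, p) ∣ h)).card : ℝ)| ≤
        ((1 / 2 : ℝ) ^ n * (k + 1) + τ) * Un := by
      intro r
      have e1 := leg_fl B P q r Y (k + 1) hq (fun p hp => (hBp p hp).1) hcop (VV' B) ((1 / 2 : ℝ) ^ n) (C2 * L ^ ρ)
        (by positivity) (by positivity) (VV_pos B fun p hp => (hBp p hp).1).le (VV_le_one B fun p hp => (hBp p hp).1)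
        (fun N r' => h1 B hBp N r') (by
          intro T hT
          rw [mem_powersetCard] at hT
          have e2 : L ^ a < ((∏ p ∈ T, p : ℕ) : ℝ) := by
            push_cast
            have hne : T.Nonempty := card_pos.1 (by omega)
            calc L ^ a ≤ L ^ ((k + 1 + 1 : ℕ) * al k a w) := by
                  apply hmono
                  push_cast
                  nlinarith
              _ = ∏ _p ∈ T, L ^ al k a w := by
                  rw [prod_const, hT.2, mul_comm, Real.rpow_mul hL0.le, Real.rpow_natCast]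
              _ < ∏ p ∈ T, (p : ℝ) := by
                  apply Finset.prod_lt_prod_of_nonempty
                  · intro p _
                    exact Real.rpow_pos_of_pos hL0 _
                  · intro p hp
                    exact ((mem_Pq p3).1 (hT.1 hp)).2.2.1
                  · exact hne
          have e3 : (Y : ℝ) < ((∏ p ∈ T, p : ℕ) : ℝ) := lt_of_le_of_lt hY1 e2
          exact_mod_cast e3) (by linarith)
      push_cast at e1 ⊢
      refine e1.trans ?_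
      have e9 : ((1 / 2 : ℝ) ^ n * ((k : ℝ) + 1) + τ) * Un = (1 / 2 : ℝ) ^ n * ((k : ℝ) + 1) * ((Y : ℝ) / q * VV' B) + τ * Un := by
        rw [hUn]; ring
      rw [e9]
      apply add_le_add le_rfl
      have q1 := pow_sum_le P (L ^ be k a w) (Real.one_le_rpow h6.le hβ0.le) hcardP k
      have q2 : (L ^ be k a w) ^ k = L ^ (k * be k a w) := by
        rw [← Real.rpow_natCast, ← Real.rpow_mul hL0.le, mul_comm]
      rw [q2] at q1
      calc (C2 * L ^ ρ + 1) * ∑ j ∈ range (k + 1), (P.card : ℝ) ^ j ≤ ((C2 + 1) * L ^ ρ) * ((k + 1) * L ^ (k * be k a w)) := by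
            apply mul_le_mul _ q1 (by positivity) (by positivity)
            linarith
        _ = (C2 + 1) * (k + 1) * L ^ (ρ + k * be k a w) := by rw [Real.rpow_add hL0]; ring
        _ ≤ τ / (2 * q) * L ^ (a - w) := by linarith
        _ = τ * (L ^ (a - w) / (2 * q)) := by ring
        _ ≤ τ * Un := mul_le_mul_of_nonneg_left hUn1 hτ.le
    refine ⟨(Y : ℝ) / q * VV' B * ∑ j ∈ range (k + 1), (-1 : ℝ) ^ j * ee P j, ?_, ?_⟩
    · intro r hr hrb
      have e1 := hleg r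
      have e2 : ∑ T ∈ P.powersetCard (k + 1), (((HH B q r Y).filter (fun h => (∏ p ∈ T, p) ∣ h)).card : ℝ) = 0 := by
        apply sum_eq_zero
        intro T hT
        rw [Nat.cast_eq_zero]
        exact K_zero q b0 k r hb0 hr hrb hk a w L h6 hw hwa T hT
      rw [e2, mul_zero, sub_zero] at e1
      exact e1
    · have e1 := hleg b0
      set K := ∑ T ∈ P.powersetCard (k + 1), (((HH B q b0 Y).filter (fun h => (∏ p ∈ T, p) ∣ h)).card : ℝ) with hK
      set D := (cntq (B ∪ P) q b0 Y : ℝ) - (Y : ℝ) / q * VV' B * ∑ j ∈ range (k + 1), (-1 : ℝ) ^ j * ee P j with hD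
      have e2 : |(-1 : ℝ) ^ (k + 1) * D - K| ≤ ((1 / 2 : ℝ) ^ n * (k + 1) + τ) * Un := by
        have hs1 : ((-1 : ℝ) ^ (k + 1)) * ((-1) ^ (k + 1)) = 1 := by rw [← mul_pow]; norm_num
        have e3 : (-1 : ℝ) ^ (k + 1) * D - K = (-1 : ℝ) ^ (k + 1) * (D - (-1) ^ (k + 1) * K) := by
          linear_combination K * hs1
        rw [e3, abs_mul, abs_pow, abs_neg, abs_one, one_pow, one_mul]
        exact e1
      have e4 := (abs_le.1 e2).1
      rw [sub_mul]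
      linarith

end Pool.Agent.W5h25.PR
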