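import Pool.Agent.W5h25.PR.I

/-! The models: preparations. -/

set_option autoImplicit false

open Finset Filter Topology
open Pool.Agent.H378R2 Pool.Agent.H510R2.Maier
open Pool.Agent.W5h22.JM

namespace Pool.Agent.W5h25.PR

/-- the least representative of a reduced residue class -/
def cl (q : ℕ) (u : (ZMod q)ˣ) : ℕ := (u : ZMod q).val

theorem cl_cop (q : ℕ) (u : (ZMod q)ˣ) : (cl q u).Coprime q := ZMod.val_coe_unit_coprime u

theorem cl_inj (q : ℕ) [NeZero q] (u u' : (ZMod q)ˣ) (h : cl q u ≡ cl q u' [MOD q]) : u = u' := by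
  unfold cl at h
  have h1 := (ZMod.natCast_eq_natCast_iff _ _ _).2 h
  rw [ZMod.natCast_zmod_val, ZMod.natCast_zmod_val] at h1
  exact Units.ext h1

/-- the model statement for a linear form -/
def Model (q : ℕ) [NeZero q] (a v : ℝ) (c : (ZMod q)ˣ → ℝ) : Prop :=
  ∃ δ : ℝ, 0 < δ ∧ ∃ Z : ℕ, ∃ C : ℝ, 0 < C ∧ ∀ᶠ X : ℝ in atTop, ∀ (ps : ℕ) (S : Finset ℕ), GoodP Z ps → GoodS X S →
    ∃ s ⊆ PW X S ps, (PP s)⁻¹ ≤ (Real.log X) ^ v ∧ q.primeFactors ⊆ s ∧ (∀ p ∈ s, (p : ℝ) ≤ (Real.log X) ^ v) ∧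
      (∀ u, cXq s q (cl q u) (Real.log X) a ≤ C) ∧ ∑ u, c u + δ ≤ ∑ u, c u * cXq s q (cl q u) (Real.log X) a

theorem VVF (q : ℕ) (hq : 0 < q) : VV' q.primeFactors = (q.totient : ℝ) / q := by
  unfold VV'
  have h11 := Nat.totient_eq_mul_prod_factors q
  have h12 : ((q.totient : ℚ) : ℝ) = ((q * ∏ p ∈ q.primeFactors, (1 - (p : ℚ)⁻¹) : ℚ) : ℝ) := by rw [h11]
  push_cast at h12
  rw [h12]
  have : (0 : ℝ) < q := by exact_mod_cast hq
  rw [mul_div_cancel_left₀ _ this.ne']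
  simp only [one_div]

/-- the sets of primes of the models -/
theorem s_props (q Z : ℕ) (hq : 0 < q) (hZ : q ≤ Z) (β v : ℝ) (hβ : 0 < β) (hβv : β ≤ v) (hv1 : v < 1) :
    ∀ᶠ X : ℝ in atTop, ∀ (ps : ℕ) (S : Finset ℕ), GoodP Z ps → GoodS X S → ∀ T : Finset ℕ,
      (∀ p ∈ T, p.Prime ∧ ¬ p ∣ q ∧ (p : ℝ) ≤ (Real.log X) ^ β ∧ p ∉ S ∧ p ≠ ps) →
      T ∪ q.primeFactors ⊆ PW X S ps ∧ (PP (T ∪ q.primeFactors))⁻¹ ≤ (Real.log X) ^ v ∧ q.primeFactors ⊆ T ∪ q.primeFactors ∧
        (∀ p ∈ T ∪ q.primeFactors, (p : ℝ) ≤ (Real.log X) ^ v) ∧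
        ∀ (b : ℕ) (a : ℝ), b.Coprime q → cXq (T ∪ q.primeFactors) q b (Real.log X) a =
          q * (cntq T q b ⌊(Real.log X) ^ a⌋₊ : ℝ) / ((Real.log X) ^ a * VV' T) := by
  have hlog := Real.tendsto_log_atTop
  have hloglog := Real.tendsto_log_atTop.comp Real.tendsto_log_atTop
  filter_upwards [hlog.eventually ((tendsto_rpow_atTop hβ).eventually_ge_atTop (q : ℝ)),
    hlog.eventually ((tendsto_rpow_atTop (show 0 < 1 - v by linarith)).eventually_ge_atTop 1000),
    hlog.eventually_gt_atTop (1 : ℝ), hloglog.eventually_ge_atTop (max (q : ℝ) 1)] with X h1 h2 h3 h4 ps S hps hS T hT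
  set L := Real.log X with hL
  have hL0 : 0 < L := by linarith
  simp only [Function.comp] at h4
  rw [← hL] at h4
  set F := q.primeFactors with hF
  have hq0 : (0 : ℝ) < q := by exact_mod_cast hq
  have hFp : ∀ p ∈ F, p.Prime ∧ p ∣ q ∧ p ≤ q := fun p hp => by
    rw [hF, Nat.mem_primeFactors] at hp
    exact ⟨hp.1, hp.2.1, Nat.le_of_dvd hq hp.2.1⟩
  have hLβv : L ^ β ≤ L ^ v := Real.rpow_le_rpow_of_exponent_le h3.le hβv
  have hLv : L ^ v ≤ L / 1000 := by
    have e1 : L = L ^ (1 - v) * L ^ v := by rw [← Real.rpow_add hL0]; simp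
    have e2 : 0 < L ^ v := Real.rpow_pos_of_pos hL0 v
    rw [le_div_iff₀ (by norm_num)]
    nth_rewrite 2 [e1]
    nlinarith
  have hall : ∀ p ∈ T ∪ F, p.Prime ∧ (p : ℝ) ≤ L ^ β ∧ p ∉ S ∧ p ≠ ps := by
    intro p hp
    rcases mem_union.1 hp with hp | hp
    · obtain ⟨q1, q2, q3, q4, q5⟩ := hT p hp
      exact ⟨q1, q3, q4, q5⟩
    · obtain ⟨q1, q2, q3⟩ := hFp p hp
      refine ⟨q1, le_trans (by exact_mod_cast q3) h1, ?_, ?_⟩
      · intro hpS
        have e1 := (hS.1 p hpS).2.1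
        have e2 : (q : ℝ) ≤ z2 X := by
          unfold z2
          refine le_trans ?_ (Nat.le_ceil _)
          have e3 : (q : ℝ) ≤ Real.log L := (le_max_left _ _).trans h4
          have e4 : 1 ≤ Real.log L := (le_max_right _ _).trans h4
          rw [← hL]
          calc (q : ℝ) ≤ Real.log L := e3
            _ = Real.log L ^ 1 := (pow_one _).symm
            _ ≤ Real.log L ^ 3 := pow_le_pow_right₀ e4 (by norm_num)
        have e3 : q ≤ z2 X := by exact_mod_cast e2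
        omega
      · rcases hps with h5 | h5
        · rw [h5]; exact q1.ne_one
        · have := h5.2
          omega
  have hdisj : Disjoint T F := by
    rw [Finset.disjoint_left]
    intro p hp hp2
    exact (hT p hp).2.1 (hFp p hp2).2.1
  have hPPs : PP (T ∪ F) = VV' T * ((q.totient : ℝ) / q) := by
    rw [PP_prod _ fun p hp => (hall p hp).1, prod_union hdisj, ← VVF q hq]
    rfl
  refine ⟨?_, ?_, ?_, ?_, ?_⟩
  · intro p hp
    obtain ⟨q1, q2, q3, q4⟩ := hall p hp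
    rw [mem_PW]
    refine ⟨?_, q1, q3, q4⟩
    unfold yy
    exact Nat.le_floor ((q2.trans hLβv).trans hLv)
  · have e1 : 1 ≤ ⌊L ^ β⌋₊ := Nat.le_floor (by
      rw [Nat.cast_one]; exact Real.one_le_rpow h3.le hβ.le)
    have e2 := PP_ge (T ∪ F) (fun p hp => (hall p hp).1) ⌊L ^ β⌋₊ e1 fun p hp => Nat.le_floor (hall p hp).2.1
    have e3 := PP_pos (T ∪ F) fun p hp => (hall p hp).1
    have e4 : (0 : ℝ) < ⌊L ^ β⌋₊ := by exact_mod_cast e1
    calc (PP (T ∪ F))⁻¹ ≤ (1 / (⌊L ^ β⌋₊ : ℝ))⁻¹ := inv_anti₀ (by positivity) e2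
      _ = ⌊L ^ β⌋₊ := by rw [one_div, inv_inv]
      _ ≤ L ^ β := Nat.floor_le (by positivity)
      _ ≤ _ := hLβv
  · exact subset_union_right
  · intro p hp
    exact (hall p hp).2.1.trans hLβv
  · intro b a hb
    have e1 : cntq (T ∪ F) q b ⌊L ^ a⌋₊ = cntq T q b ⌊L ^ a⌋₊ := by
      unfold cntq
      congr 1
      apply filter_congr
      intro h _
      simp only [mem_union]
      constructor
      · rintro ⟨h5, h6⟩
        exact ⟨h5, fun p hp => h6 p (Or.inl hp)⟩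
      · rintro ⟨h5, h6⟩
        refine ⟨h5, fun p hp => ?_⟩
        rcases hp with hp | hp
        · exact h6 p hp
        · intro hd
          obtain ⟨q1, q2, q3⟩ := hFp p hp
          have h7 : h ≡ b [MOD p] := h5.of_dvd q2
          have h8 : p ∣ b := (Nat.ModEq.dvd_iff h7 dvd_rfl).1 hd
          have h9 := Nat.dvd_gcd h8 q2
          rw [hb] at h9
          exact q1.one_lt.ne' (Nat.dvd_one.1 h9)
    unfold cXq
    rw [e1, hPPs]
    have hφ : (0 : ℝ) < q.totient := by exact_mod_cast Nat.totient_pos.2 hq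
    have hVT := VV_pos T fun p hp => (hT p hp).1
    have hLa : 0 < L ^ a := Real.rpow_pos_of_pos hL0 a
    field_simp

/-- removing a few primes -/
theorem exc (B P E : Finset ℕ) (q r Y : ℕ) (hE : E ⊆ B ∪ P) :
    cntq (B ∪ P) q r Y ≤ cntq ((B \ E) ∪ (P \ E)) q r Y ∧
    cntq ((B \ E) ∪ (P \ E)) q r Y ≤ cntq (B ∪ P) q r Y + ∑ x ∈ E, ((HH (B \ E) q r Y).filter (fun h => x ∣ h)).card := by
  constructor
  · unfold cntq
    apply card_le_card
    intro h hh
    rw [mem_filter] at hh ⊢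
    refine ⟨hh.1, hh.2.1, fun p hp => hh.2.2 p ?_⟩
    rcases mem_union.1 hp with h1 | h1
    · exact mem_union_left _ (Finset.mem_sdiff.1 h1).1
    · exact mem_union_right _ (Finset.mem_sdiff.1 h1).1
  · unfold cntq
    have h1 : (Ioc 0 Y).filter (fun h => h ≡ r [MOD q] ∧ ∀ p ∈ (B \ E) ∪ (P \ E), ¬ p ∣ h) ⊆
        (Ioc 0 Y).filter (fun h => h ≡ r [MOD q] ∧ ∀ p ∈ B ∪ P, ¬ p ∣ h) ∪
        E.biUnion (fun x => (HH (B \ E) q r Y).filter (fun h => x ∣ h)) := by
      intro h hh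
      rw [mem_filter] at hh
      rw [mem_union, mem_filter, mem_biUnion]
      by_cases h2 : ∃ x ∈ E, x ∣ h
      · obtain ⟨x, hx, hxh⟩ := h2
        right
        refine ⟨x, hx, ?_⟩
        unfold HH
        rw [mem_filter, mem_filter]
        exact ⟨⟨hh.1, hh.2.1, fun p hp => hh.2.2 p (mem_union_left _ hp)⟩, hxh⟩
      · left
        refine ⟨hh.1, hh.2.1, fun p hp hpd => ?_⟩
        by_cases h3 : p ∈ E
        · exact h2 ⟨p, h3, hpd⟩
        · apply hh.2.2 p _ hpd
          rcases mem_union.1 hp with h4 | h4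
          · exact mem_union_left _ (Finset.mem_sdiff.2 ⟨h4, h3⟩)
          · exact mem_union_right _ (Finset.mem_sdiff.2 ⟨h4, h3⟩)
    refine (card_le_card h1).trans ((card_union_le _ _).trans ?_)
    apply Nat.add_le_add_left
    exact card_biUnion_le

theorem VV_ge (s : Finset ℕ) (hs : ∀ p ∈ s, p.Prime) : 1 - ∑ p ∈ s, (p : ℝ)⁻¹ ≤ VV' s := by
  have h5 := bonf_prod s hs 1 le_rfl
  rw [sum_range_one, pow_zero, ee_zero] at h5
  have h6 := (abs_le.1 h5).1
  have h7 : VV' s = PP s := (PP_prod s hs).symm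
  rw [h7]
  unfold PP
  rw [← ee_one]
  linarith

theorem kap_ge (q k : ℕ) (a w : ℝ) (hq : 0 < q) (hw : 0 < w) (hwa : w < a) :
    (w / (64 * (k + 1) * q.totient * a)) ^ k / k.factorial * (w / (256 * a)) ≤ kap q k a w := by
  have h1 := al_pos k a w hwa
  have h2 := al_lt_ga k a w hw
  have h3 := ga_lt_be k a w hw
  have hφ : (0 : ℝ) < q.totient := by exact_mod_cast Nat.totient_pos.2 hq
  have ha : 0 < a := by linarith
  have h4 : 0 < ga k a w := by linarith
  have h5 : 0 < be k a w := by linarith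
  have hk0 : (0 : ℝ) < (k : ℝ) + 1 := by positivity
  have h6 : ga k a w - al k a w = w / (4 * (k + 1)) := by unfold ga al; ring
  have h7 : be k a w ≤ a := by
    unfold be
    have : (a - w) / (k + 1) ≤ a - w := div_le_self (by linarith) (by have : (0 : ℝ) ≤ k := Nat.cast_nonneg k; linarith)
    linarith
  have h8 : ga k a w ≤ a := by linarith
  unfold kap
  rw [h6]
  apply mul_le_mul
  · apply div_le_div_of_nonneg_right _ (by positivity)
    apply pow_le_pow_left₀ (by positivity)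
    have e1 : w / (64 * (k + 1) * q.totient * a) = w / (4 * (k + 1)) / (8 * q.totient * a) / 2 := by
      field_simp; norm_num
    rw [e1]
    apply div_le_div_of_nonneg_right _ (by norm_num)
    apply div_le_div_of_nonneg_left (by positivity) (by positivity)
    apply mul_le_mul_of_nonneg_left h8 (by positivity)
  · have e1 : w / (256 * a) = w / 16 / (16 * a) := by field_simp; norm_num
    rw [e1]
    apply div_le_div_of_nonneg_left (by positivity) (by positivity)
    linarith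
  · positivity
  · positivity

end Pool.Agent.W5h25.PR
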