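import Pool.Agent.W5h25.PR.J

/-! The model for linear forms with vanishing sum. -/

set_option autoImplicit false

open Finset Filter Topology
open Pool.Agent.H378R2 Pool.Agent.H510R2.Maier
open Pool.Agent.W5h22.JM

namespace Pool.Agent.W5h25.PR

theorem params (C0 q k : ℕ) (hC0 : 1 ≤ C0) (hq : 0 < q) (hk1 : 1 ≤ k) (a v κ0 : ℝ) (ha : 0 < a) (hv : 0 < v)
    (hkv : a / (k + 1) ≤ v / 2) (hκ0 : 0 < κ0) :
    ∃ (n : ℕ) (w : ℝ), C0 ≤ n ∧ 0 < w ∧ w < a ∧ (k + 2) * w ≤ a ∧ 6 * w * C0 * n + k * w < al k a w ∧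
      Real.log (be k a w / al k a w) ≤ 1 / 4 ∧ be k a w ≤ v ∧ (1 / 2 : ℝ) ^ n * (k + 1) ≤ κ0 * kap q k a w := by
  have hφ : (0 : ℝ) < q.totient := by exact_mod_cast Nat.totient_pos.2 hq
  have hkr : (1 : ℝ) ≤ k := by exact_mod_cast hk1
  have hC0r : (1 : ℝ) ≤ C0 := by exact_mod_cast hC0
  set M0 : ℕ := ⌈24 * (C0 : ℝ) * (k + 1) / a⌉₊ + 1 with hM0
  have hM1 : 24 * (C0 : ℝ) * (k + 1) / a ≤ M0 := by
    rw [hM0]; push_cast
    have := Nat.le_ceil (24 * (C0 : ℝ) * (k + 1) / a)
    linarith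
  have hM2 : (0 : ℝ) < M0 := by rw [hM0]; positivity
  set c : ℝ := (1 / (64 * (k + 1) * q.totient * a)) ^ k / k.factorial * (1 / (256 * a)) with hc
  have hc0 : 0 < c := by positivity
  set ws : ℝ := min (a / (8 * (k + 2) ^ 2)) (v / 2) with hws
  have hws0 : 0 < ws := by positivity
  have ev1 : ∀ᶠ n : ℕ in atTop, (1 / 2 : ℝ) ^ n * (k + 1) ≤ κ0 * (c / (M0 * n) ^ (k + 1)) := by
    have h1 := tendsto_pow_const_div_const_pow_of_one_lt (k + 1) (show (1 : ℝ) < 2 by norm_num)
    have h2 : 0 < κ0 * c / ((k + 1) * (M0 : ℝ) ^ (k + 1)) := by positivity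
    filter_upwards [h1.eventually_lt_const h2, eventually_ge_atTop 1] with n h3 h4
    have hn0 : (0 : ℝ) < n := by exact_mod_cast h4
    rw [div_lt_div_iff₀ (by positivity) (by positivity)] at h3
    rw [one_div, inv_pow, mul_pow, mul_div_assoc', le_div_iff₀ (by positivity), inv_mul_eq_div, div_mul_eq_mul_div, div_le_iff₀ (by positivity)]
    nlinarith
  have ev2 : ∀ᶠ n : ℕ in atTop, 1 / ws ≤ (n : ℝ) := tendsto_natCast_atTop_atTop.eventually_ge_atTop _
  obtain ⟨n, h1, h2, h3, h4⟩ := (ev1.and (ev2.and ((eventually_ge_atTop C0).and (eventually_ge_atTop 1)))).exists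
  have hn0 : (0 : ℝ) < n := by exact_mod_cast h4
  have hM11 : (1 : ℝ) ≤ M0 := by rw [hM0]; push_cast; have : (0 : ℝ) ≤ (⌈24 * (C0 : ℝ) * (k + 1) / a⌉₊ : ℝ) := Nat.cast_nonneg _; linarith
  set w : ℝ := 1 / (M0 * n) with hw
  have hw0 : 0 < w := by positivity
  have hww : w ≤ ws := by
    rw [div_le_iff₀ hws0] at h2
    rw [hw, div_le_iff₀ (by positivity)]
    nlinarith [mul_pos hws0 hn0]
  have hwa1 : w ≤ a / (8 * (k + 2) ^ 2) := hww.trans (min_le_left _ _)
  have hwv : w ≤ v / 2 := hww.trans (min_le_right _ _)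
  rw [le_div_iff₀ (by positivity)] at hwa1
  have hwk : w * (8 * (k + 2)) ≤ a := by
    refine le_trans ?_ hwa1
    apply mul_le_mul_of_nonneg_left _ hw0.le
    nlinarith
  have hwk2 : w * 72 ≤ a := by
    refine le_trans ?_ hwa1
    apply mul_le_mul_of_nonneg_left _ hw0.le
    nlinarith
  have hwa : w < a := by linarith
  have hal : (71 / 72) * (a / (k + 1)) ≤ al k a w := by
    unfold al
    rw [mul_div_assoc']
    apply div_le_div_of_nonneg_right _ (by positivity)
    linarith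
  have hak : 0 < a / ((k : ℝ) + 1) := by positivity
  have hα0 := al_pos k a w hwa
  have h6 : 6 * w * C0 * n ≤ a / (k + 1) / 4 := by
    have e1 : 6 * w * C0 * n = 6 * C0 / M0 := by rw [hw]; field_simp
    rw [e1, div_div, div_le_div_iff₀ hM2 (by positivity)]
    rw [div_le_iff₀ ha] at hM1
    nlinarith
  have h7 : k * w ≤ a / (k + 1) / 8 := by
    rw [div_div, le_div_iff₀ (by positivity)]
    nlinarith
  refine ⟨n, w, h3, hw0, hwa, by nlinarith, by nlinarith, ?_, ?_, ?_⟩
  · have e1 : be k a w / al k a w = 1 + w / al k a w := by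
      have : be k a w = al k a w + w := rfl
      rw [this]; field_simp
    rw [e1]
    have e2 := Real.log_le_sub_one_of_pos (show 0 < 1 + w / al k a w by positivity)
    have e3 : w / al k a w ≤ 1 / 4 := by
      rw [div_le_iff₀ hα0]
      have e4 : w * 4 ≤ (71 / 72) * (a / (k + 1)) := by
        rw [mul_div_assoc', le_div_iff₀ (by positivity)]
        nlinarith
      linarith
    linarith
  · have : be k a w = al k a w + w := rfl
    rw [this]
    have e1 : al k a w ≤ a / (k + 1) := by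
      unfold al
      apply div_le_div_of_nonneg_right _ (by positivity)
      linarith
    linarith
  · refine h1.trans ?_
    apply mul_le_mul_of_nonneg_left _ hκ0.le
    refine le_trans (le_of_eq ?_) (kap_ge q k a w hq hw0 hwa)
    have e1 : (w / (64 * (k + 1) * q.totient * a)) ^ k = w ^ k * (1 / (64 * (k + 1) * q.totient * a)) ^ k := by
      rw [← mul_pow, mul_one_div]
    have e2 : w ^ (k + 1) = 1 / ((M0 : ℝ) * n) ^ (k + 1) := by
      rw [hw, one_div, inv_pow, one_div]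
    rw [e1, hc]
    have e3 : (1 / (64 * (k + 1) * q.totient * a)) ^ k / k.factorial * (1 / (256 * a)) / ((M0 : ℝ) * n) ^ (k + 1) =
        (1 / (64 * (k + 1) * q.totient * a)) ^ k / k.factorial * (1 / (256 * a)) * w ^ (k + 1) := by
      rw [e2]; ring
    rw [e3]
    ring

/-- the model for linear forms with vanishing sum -/
theorem modelB (q : ℕ) [NeZero q] (a v : ℝ) (ha : 1 < a) (hv : 0 < v) (hv1 : v < 1)
    (c : (ZMod q)ˣ → ℝ) (hc : ∑ u, c u = 0) (hc1 : ∃ u, c u ≠ 0) : Model q a v c := by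
  classical
  obtain ⟨C0, hC0, hclean⟩ := clean
  have hq : 0 < q := Nat.pos_of_ne_zero (NeZero.ne q)
  have hq0 : (0 : ℝ) < q := by exact_mod_cast hq
  have ha0 : 0 < a := by linarith
  -- the number of factors
  set k : ℕ := q.totient * (⌈2 * a / v⌉₊ + 1) with hk
  have hφ1 : 1 ≤ q.totient := Nat.totient_pos.2 hq
  have hk1 : 1 ≤ k := Nat.mul_pos hφ1 (Nat.succ_pos _)
  have hkv : a / (k + 1) ≤ v / 2 := by
    have e1 : 2 * a / v ≤ k := by
      have e2 : ⌈2 * a / v⌉₊ ≤ k := by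
        rw [hk]
        calc ⌈2 * a / v⌉₊ ≤ 1 * (⌈2 * a / v⌉₊ + 1) := by omega
          _ ≤ _ := Nat.mul_le_mul_right _ hφ1
      exact (Nat.le_ceil _).trans (by exact_mod_cast e2)
    rw [div_le_iff₀ hv] at e1
    rw [div_le_div_iff₀ (by positivity) (by norm_num)]
    nlinarith
  -- the class
  obtain ⟨u0, hu0⟩ : ∃ u0, 0 < (-1 : ℝ) ^ (k + 1) * c u0 := by
    by_contra hcon
    push Not at hcon
    have h1 : ∑ u, (-1 : ℝ) ^ (k + 1) * c u = 0 := by rw [← mul_sum, hc, mul_zero]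
    obtain ⟨u1, hu1⟩ := hc1
    have h2 := (Finset.sum_eq_zero_iff_of_nonpos (fun u _ => hcon u)).1 h1 u1 (mem_univ _)
    rcases mul_eq_zero.1 h2 with h3 | h3
    · exact absurd h3 (pow_ne_zero _ (by norm_num))
    · exact hu1 h3
  set c0 : ℝ := (-1 : ℝ) ^ (k + 1) * c u0 with hc0
  have hcu0 : c u0 = (-1 : ℝ) ^ (k + 1) * c0 := by
    have hs1 : ((-1 : ℝ) ^ (k + 1)) * ((-1) ^ (k + 1)) = 1 := by rw [← mul_pow]; norm_num
    rw [hc0]; linear_combination (-c u0) * hs1
  have hc0abs : c0 = |c u0| := by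
    rw [← abs_of_pos hu0, hc0, abs_mul, abs_pow, abs_neg, abs_one, one_pow, one_mul]
  set A : ℝ := ∑ u, |c u| with hA
  have hc0A : c0 ≤ A := by
    rw [hc0abs]
    exact Finset.single_le_sum (f := fun u => |c u|) (fun i _ => abs_nonneg _) (mem_univ u0)
  have hA0 : 0 < A := lt_of_lt_of_le hu0 hc0A
  obtain ⟨n, w, hn, hw, hwa, hkw, hρ, hlog, hbe, hmain⟩ := params C0 q k hC0 hq hk1 a v (c0 / (16 * A)) ha0 hv hkv (by positivity)
  have hκ := kap_pos q k a w hq hw hwa
  set κ := kap q k a w with hκdef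
  set b0 := cl q u0 with hb0
  have hb0c : b0.Coprime q := cl_cop q u0
  set τ : ℝ := min 1 (c0 * κ / (16 * A)) with hτ
  have hτ0 : 0 < τ := by positivity
  have hτ1 : τ ≤ 1 := min_le_left _ _
  have hτ2 : A * τ ≤ c0 * κ / 16 := by
    have : τ ≤ c0 * κ / (16 * A) := min_le_right _ _
    calc A * τ ≤ A * (c0 * κ / (16 * A)) := mul_le_mul_of_nonneg_left this hA0.le
      _ = c0 * κ / 16 := by field_simp
  have hη2 : A * ((1 / 2 : ℝ) ^ n * (k + 1)) ≤ c0 * κ / 16 := by
    calc A * ((1 / 2 : ℝ) ^ n * (k + 1)) ≤ A * (c0 / (16 * A) * κ) := mul_le_mul_of_nonneg_left hmain hA0.le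
      _ = c0 * κ / 16 := by field_simp
  set θ : ℝ := min (1 / 4) (c0 * κ / (32 * A)) with hθ
  have hθ0 : 0 < θ := by positivity
  have hθ1 : θ ≤ 1 / 4 := min_le_left _ _
  have hθ2 : A * (4 * θ) ≤ c0 * κ / 8 := by
    have : θ ≤ c0 * κ / (32 * A) := min_le_right _ _
    calc A * (4 * θ) ≤ A * (4 * (c0 * κ / (32 * A))) := by gcongr
      _ = c0 * κ / 8 := by field_simp; norm_num
  set Z : ℕ := max q (⌈2 / θ⌉₊ + 1) with hZ
  have hα0 := al_pos k a w hwa
  have hαβ : al k a w < be k a w := (al_lt_ga k a w hw).trans (ga_lt_be k a w hw)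
  have hβ0 : 0 < be k a w := by linarith
  have hwα : w < al k a w := by
    have hkr : (1 : ℝ) ≤ k := by exact_mod_cast hk1
    have : 0 ≤ 6 * w * C0 * n := by positivity
    nlinarith
  refine ⟨c0 * κ / 8, by positivity, Z, 6, by norm_num, ?_⟩
  have hlogt := Real.tendsto_log_atTop
  have hloglog := Real.tendsto_log_atTop.comp Real.tendsto_log_atTop
  have ev0 : ∀ᶠ X : ℝ in atTop, 6 / (Real.log (Real.log X)) ^ 2 ≤ θ / 2 := by
    have h1 : Tendsto (fun L : ℝ => 6 / (Real.log L) ^ 2) atTop (𝓝 0) :=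
      tendsto_const_nhds.div_atTop ((tendsto_pow_atTop (by norm_num)).comp Real.tendsto_log_atTop)
    filter_upwards [hlogt.eventually (h1.eventually_lt_const (show (0 : ℝ) < θ / 2 by positivity))] with X hX
    exact hX.le
  filter_upwards [hlogt.eventually (hclean q b0 k n a w τ hq hb0c (dvd_mul_right _ _) hk1 hn hw hwa hkw hρ hlog hτ0),
    s_props q Z hq (le_max_left _ _) (be k a w) v hβ0 hbe hv1, ev0, hlogt.eventually_gt_atTop (1 : ℝ),
    hlogt.eventually ((tendsto_rpow_atTop ha0).eventually_ge_atTop 2)] with X h1 h2 h3 h4 h5 ps S hps hS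
  obtain ⟨g1, g2, E0, g3, g4⟩ := h1
  set L := Real.log X with hL
  have hL0 : 0 < L := by linarith
  have p3 : 0 ≤ L ^ be k a w := Real.rpow_nonneg hL0.le _
  have p4 : 0 ≤ L ^ w := Real.rpow_nonneg hL0.le _
  have hmono : ∀ x y : ℝ, x ≤ y → L ^ x ≤ L ^ y := fun x y h => Real.rpow_le_rpow_of_exponent_le h4.le h
  set P := Pq q b0 (L ^ al k a w) (L ^ be k a w) with hP
  set B := BB q (L ^ w) with hB
  set Y := ⌊L ^ a⌋₊ with hY
  have hLa : 0 < L ^ a := Real.rpow_pos_of_pos hL0 a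
  have hY1 : (Y : ℝ) ≤ L ^ a := Nat.floor_le hLa.le
  have hY2 : L ^ a / 2 ≤ Y := by
    have := Nat.lt_floor_add_one (L ^ a)
    rw [← hY] at this
    linarith
  have hBP : ∀ p ∈ B ∪ P, p.Prime ∧ ¬ p ∣ q ∧ (p : ℝ) ≤ L ^ be k a w := fun p hp => by
    rcases mem_union.1 hp with hp | hp
    · obtain ⟨q1, q2, q3, q4⟩ := (mem_BB p4).1 hp
      exact ⟨q1, q2, q4.trans (hmono _ _ (by linarith))⟩
    · obtain ⟨q1, q2, q3, q4⟩ := (mem_Pq p3).1 hp
      refine ⟨q1, fun hpq => ?_, q4⟩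
      have h8 : p ≡ b0 [MOD p] := q2.of_dvd hpq
      have h9 : p ∣ b0 := (Nat.ModEq.dvd_iff h8 dvd_rfl).1 dvd_rfl
      have h10 := Nat.dvd_gcd h9 hpq
      rw [hb0c] at h10
      exact q1.one_lt.ne' (Nat.dvd_one.1 h10)
  set E := (B ∪ P).filter (fun p => p ∈ S ∨ p = ps) with hE
  have hEsub : E ⊆ B ∪ P := filter_subset _ _
  have hEp : ∀ p ∈ E, p.Prime := fun p hp => (hBP p (hEsub hp)).1
  have hEθ : ∑ p ∈ E, (p : ℝ)⁻¹ ≤ θ := by
    have hnn : ∀ p : ℕ, 0 ≤ (p : ℝ)⁻¹ := fun p => inv_nonneg.2 (Nat.cast_nonneg p)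
    have e1 : E ⊆ S ∪ E.filter (fun p => p = ps) := by
      intro p hp
      rcases (mem_filter.1 hp).2 with h6 | h6
      · exact mem_union_left _ h6
      · exact mem_union_right _ (mem_filter.2 ⟨hp, h6⟩)
    calc ∑ p ∈ E, (p : ℝ)⁻¹ ≤ ∑ p ∈ S ∪ E.filter (fun p => p = ps), (p : ℝ)⁻¹ :=
          sum_le_sum_of_subset_of_nonneg e1 fun p _ _ => hnn p
      _ ≤ ∑ p ∈ S, (p : ℝ)⁻¹ + ∑ p ∈ E.filter (fun p => p = ps), (p : ℝ)⁻¹ := by
          rw [← sum_union_inter]
          have : 0 ≤ ∑ p ∈ S ∩ E.filter (fun p => p = ps), (p : ℝ)⁻¹ := sum_nonneg fun p _ => hnn p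
          linarith
      _ ≤ θ / 2 + θ / 2 := by
          apply add_le_add
          · have := hS.2
            simp only [one_div] at this
            exact this.trans h3
          · rcases hps with h6 | h6
            · have : E.filter (fun p => p = ps) = ∅ := by
                rw [filter_eq_empty_iff]
                intro p hp hpp
                rw [h6] at hpp
                exact (hEp p hp).ne_one hpp
              rw [this, sum_empty]
              positivity
            · have e2 : ∑ p ∈ E.filter (fun p => p = ps), (p : ℝ)⁻¹ ≤ ∑ p ∈ ({ps} : Finset ℕ), (p : ℝ)⁻¹ := by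
                apply sum_le_sum_of_subset_of_nonneg
                · intro p hp
                  rw [mem_singleton]; exact (mem_filter.1 hp).2
                · intro p _ _; exact hnn p
              rw [sum_singleton] at e2
              refine e2.trans ?_
              have e3 : ⌈2 / θ⌉₊ + 1 ≤ ps := le_trans (le_max_right _ _) h6.2.le
              have e4 : 2 / θ ≤ ps := by
                refine (Nat.le_ceil _).trans ?_
                exact_mod_cast (by omega : ⌈2 / θ⌉₊ ≤ ps)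
              have e5 : (θ / 2)⁻¹ ≤ ps := by rw [inv_div]; exact e4
              exact inv_le_of_inv_le₀ (by positivity) e5
      _ = θ := by ring
  set B' := B \ E with hB'
  set P' := P \ E with hP'
  set T := B' ∪ P' with hT
  have hTE : ∀ p ∈ T, p ∈ B ∪ P ∧ p ∉ E := by
    intro p hp
    rcases mem_union.1 hp with hp | hp
    · exact ⟨mem_union_left _ (Finset.mem_sdiff.1 hp).1, (Finset.mem_sdiff.1 hp).2⟩
    · exact ⟨mem_union_right _ (Finset.mem_sdiff.1 hp).1, (Finset.mem_sdiff.1 hp).2⟩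
  obtain ⟨s1, s2, s3, s4, s5⟩ := h2 ps S hps hS T (by
    intro p hp
    obtain ⟨q1, q2⟩ := hTE p hp
    obtain ⟨q3, q4, q5⟩ := hBP p q1
    refine ⟨q3, q4, q5, fun h6 => q2 (mem_filter.2 ⟨q1, Or.inl h6⟩), fun h6 => q2 (mem_filter.2 ⟨q1, Or.inr h6⟩)⟩)
  refine ⟨T ∪ q.primeFactors, s1, s2, s3, s4, ?_⟩
  -- the products
  have hBp : ∀ p ∈ B, p.Prime := fun p hp => (hBP p (mem_union_left _ hp)).1
  have hPp : ∀ p ∈ P, p.Prime := fun p hp => (hBP p (mem_union_right _ hp)).1
  have hB'p : ∀ p ∈ B', p.Prime := fun p hp => hBp p (Finset.mem_sdiff.1 hp).1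
  have hP'p : ∀ p ∈ P', p.Prime := fun p hp => hPp p (Finset.mem_sdiff.1 hp).1
  have hVB := VV_pos B hBp
  have hVB' := VV_pos B' hB'p
  have hVP' := VV_pos P' hP'p
  have hVP'1 := VV_le_one P' hP'p
  have hVP'2 : 1 / 2 ≤ VV' P' := by
    have e1 := VV_ge P' hP'p
    have e2 : ∑ p ∈ P', (p : ℝ)⁻¹ ≤ ∑ p ∈ P, (p : ℝ)⁻¹ :=
      sum_le_sum_of_subset_of_nonneg sdiff_subset fun p _ _ => inv_nonneg.2 (Nat.cast_nonneg p)
    rw [ee_one] at g1
    linarith
  have hVBB' : VV' B ≤ VV' B' := VV_anti _ _ sdiff_subset hBp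
  have hVB'2 : VV' B' ≤ 2 * VV' B := by
    have e1 : VV' B = VV' B' * VV' (B ∩ E) := by
      unfold VV'
      rw [hB', ← prod_sdiff (inter_subset_left : B ∩ E ⊆ B), Finset.sdiff_inter_self_left]
    have e2 := VV_ge (B ∩ E) fun p hp => hBp p (mem_inter.1 hp).1
    have e3 : ∑ p ∈ B ∩ E, (p : ℝ)⁻¹ ≤ ∑ p ∈ E, (p : ℝ)⁻¹ :=
      sum_le_sum_of_subset_of_nonneg inter_subset_right fun p _ _ => inv_nonneg.2 (Nat.cast_nonneg p)
    rw [e1]
    nlinarith
  have hdisjBP : Disjoint B' P' := by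
    rw [Finset.disjoint_left]
    intro p hp hp2
    have q1 := ((mem_BB p4).1 (Finset.mem_sdiff.1 hp).1).2.2.2
    have q2 := ((mem_Pq p3).1 (Finset.mem_sdiff.1 hp2).1).2.2.1
    have := hmono w (al k a w) hwα.le
    linarith
  have hVT : VV' T = VV' B' * VV' P' := by
    unfold VV'
    rw [hT, prod_union hdisjBP]
  set Un : ℝ := (Y : ℝ) / q * VV' B with hUn
  set Un' : ℝ := (Y : ℝ) / q * VV' B' with hUn'
  have hYq : 0 < (Y : ℝ) / q := by
    have : 0 < (Y : ℝ) := by linarith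
    positivity
  have hUn0 : 0 < Un := mul_pos hYq hVB
  have hUn'1 : Un ≤ Un' := mul_le_mul_of_nonneg_left hVBB' hYq.le
  have hUn'2 : Un' ≤ 2 * Un := by
    rw [hUn, hUn']
    nlinarith
  have hη1 : (1 / 2 : ℝ) ^ n ≤ 1 := pow_le_one₀ (by norm_num) (by norm_num)
  have hLβ1 : L ^ (-be k a w) ≤ 1 := Real.rpow_le_one_of_one_le_of_nonpos h4.le (by linarith)
  have hLβ0 : 0 < L ^ (-be k a w) := Real.rpow_pos_of_pos hL0 _
  -- values of the counts
  set N : (ZMod q)ˣ → ℝ := fun u => (cntq (B ∪ P) q (cl q u) Y : ℝ) with hN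
  set N' : (ZMod q)ˣ → ℝ := fun u => (cntq T q (cl q u) Y : ℝ) with hN'
  have hval : ∀ u, cXq (T ∪ q.primeFactors) q (cl q u) L a = q / (L ^ a * VV' T) * N' u := by
    intro u
    rw [s5 (cl q u) a (cl_cop q u)]
    simp only [hN']
    ring
  have hVTpos : 0 < VV' T := by rw [hVT]; positivity
  have hfac0 : 0 < (q : ℝ) / (L ^ a * VV' T) := by positivity
  have hdiff : ∀ u, |N' u - N u| ≤ (4 * θ + τ) * Un := by
    intro u
    obtain ⟨e1, e2⟩ := exc B P E q (cl q u) Y hEsub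
    have e1' : N u ≤ N' u := by simp only [hN, hN']; exact_mod_cast e1
    have e2' : N' u ≤ N u + ∑ x ∈ E, (((HH B' q (cl q u) Y).filter (fun h => x ∣ h)).card : ℝ) := by
      simp only [hN, hN']; exact_mod_cast e2
    have e3 : ∀ x ∈ E, (((HH B' q (cl q u) Y).filter (fun h => x ∣ h)).card : ℝ) ≤ 2 * Un' * (x : ℝ)⁻¹ + τ * L ^ (-be k a w) * Un := by
      intro x hx
      have hxp := hEp x hx
      obtain ⟨r', hr'⟩ := HH_div B' hB'p q (cl q u) Y {x} (by
        intro p hp
        rw [mem_singleton] at hp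
        subst hp
        exact ⟨hxp, (hBP p (hEsub hx)).2.1, fun h6 => (Finset.mem_sdiff.1 h6).2 hx⟩)
      rw [prod_singleton] at hr'
      rw [hr']
      have q1 := (abs_le.1 (g2 B' sdiff_subset (Y / x) r')).2
      have hx0 : (0 : ℝ) < x := by exact_mod_cast hxp.pos
      have q2 : ((Y / x : ℕ) : ℝ) / q * VV' B' ≤ Un' * (x : ℝ)⁻¹ := by
        have q3 : ((Y / x : ℕ) : ℝ) ≤ Y / x := Nat.cast_div_le
        calc ((Y / x : ℕ) : ℝ) / q * VV' B' ≤ (Y / x : ℝ) / q * VV' B' := by gcongr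
          _ = Un' * (x : ℝ)⁻¹ := by rw [hUn']; field_simp
      have q4 : (1 / 2 : ℝ) ^ n * (((Y / x : ℕ) : ℝ) / q * VV' B') ≤ 1 * (Un' * (x : ℝ)⁻¹) :=
        mul_le_mul hη1 q2 (by positivity) (by norm_num)
      linarith
    have e4 : ∑ x ∈ E, (((HH B' q (cl q u) Y).filter (fun h => x ∣ h)).card : ℝ) ≤ 2 * Un' * θ + τ * Un := by
      refine (sum_le_sum e3).trans ?_
      rw [sum_add_distrib, ← mul_sum, sum_const, nsmul_eq_mul]
      apply add_le_add
      · apply mul_le_mul_of_nonneg_left hEθ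
        linarith
      · have q5 : (E.card : ℝ) ≤ L ^ be k a w := card_le E hEp _ p3 fun p hp => (hBP p (hEsub hp)).2.2
        calc (E.card : ℝ) * (τ * L ^ (-be k a w) * Un) ≤ L ^ be k a w * (τ * L ^ (-be k a w) * Un) :=
              mul_le_mul_of_nonneg_right q5 (by positivity)
          _ = (L ^ be k a w * L ^ (-be k a w)) * (τ * Un) := by ring
          _ = τ * Un := by rw [← Real.rpow_add hL0, add_neg_cancel, Real.rpow_zero, one_mul]
    rw [abs_of_nonneg (by linarith)]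
    nlinarith
  constructor
  · intro u
    rw [hval u]
    have e1 : N' u ≤ 3 * Un' := by
      have q1 : (cntq T q (cl q u) Y : ℝ) ≤ cntq B' q (cl q u) Y := by
        have : cntq T q (cl q u) Y ≤ cntq B' q (cl q u) Y := by
          unfold cntq
          apply card_le_card
          intro h hh
          rw [mem_filter] at hh ⊢
          exact ⟨hh.1, hh.2.1, fun p hp => hh.2.2 p (mem_union_left _ hp)⟩
        exact_mod_cast this
      have q2 := (abs_le.1 (g2 B' sdiff_subset Y (cl q u))).2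
      have q3 : (1 / 2 : ℝ) ^ n * ((Y : ℝ) / q * VV' B') ≤ 1 * Un' := mul_le_mul_of_nonneg_right hη1 (by positivity)
      have q4 : τ * L ^ (-be k a w) * Un ≤ 1 * 1 * Un' := by gcongr
      simp only [hN']
      linarith
    calc (q : ℝ) / (L ^ a * VV' T) * N' u ≤ q / (L ^ a * VV' T) * (3 * Un') := mul_le_mul_of_nonneg_left e1 hfac0.le
      _ = 3 * ((Y : ℝ) / L ^ a) * (VV' P')⁻¹ := by rw [hVT, hUn']; field_simp
      _ ≤ 3 * 1 * 2 := by
          have q1 : (Y : ℝ) / L ^ a ≤ 1 := by rw [div_le_one hLa]; exact hY1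
          have q2 : (VV' P')⁻¹ ≤ 2 := by
            calc (VV' P')⁻¹ ≤ (1 / 2 : ℝ)⁻¹ := inv_anti₀ (by norm_num) hVP'2
              _ = 2 := by norm_num
          apply mul_le_mul _ q2 (by positivity) (by norm_num)
          linarith
      _ = 6 := by norm_num
  · rw [hc, zero_add]
    set ε1 : ℝ := (1 / 2 : ℝ) ^ n * (k + 1) + τ with hε1
    have hε1A : A * ε1 ≤ c0 * κ / 8 := by
      rw [hε1, mul_add]; linarith
    -- the clean sum
    have m1 : (c0 * κ - 2 * (A * ε1)) * Un ≤ ∑ u, c u * N u := by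
      have e1 : ∑ u, c u * N u = ∑ u, c u * (N u - E0) := by
        simp only [mul_sub]
        rw [sum_sub_distrib, ← sum_mul, hc]; ring
      rw [e1, ← Finset.add_sum_erase univ (fun u => c u * (N u - E0)) (mem_univ u0)]
      have e2 : c0 * ((κ - ε1) * Un) ≤ c u0 * (N u0 - E0) := by
        have e6 : c u0 * (N u0 - E0) = c0 * ((-1) ^ (k + 1) * (N u0 - E0)) := by
          linear_combination (N u0 - E0) * hcu0
        rw [e6]
        exact mul_le_mul_of_nonneg_left g4 hu0.le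
      have e3 : -(A * (ε1 * Un)) ≤ ∑ u ∈ univ.erase u0, c u * (N u - E0) := by
        have e4 : |∑ u ∈ univ.erase u0, c u * (N u - E0)| ≤ A * (ε1 * Un) := by
          refine (abs_sum_le_sum_abs _ _).trans ?_
          calc ∑ u ∈ univ.erase u0, |c u * (N u - E0)| ≤ ∑ u ∈ univ.erase u0, |c u| * (ε1 * Un) := by
                refine sum_le_sum fun u hu => ?_
                rw [abs_mul]
                apply mul_le_mul_of_nonneg_left _ (abs_nonneg _)
                apply g3 (cl q u) (cl_cop q u)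
                intro h6
                exact (ne_of_mem_erase hu) (cl_inj q u u0 h6)
            _ ≤ ∑ u, |c u| * (ε1 * Un) := by
                apply sum_le_sum_of_subset_of_nonneg (erase_subset _ _)
                intro u _ _
                have : 0 ≤ ε1 := by positivity
                positivity
            _ = A * (ε1 * Un) := by rw [← sum_mul]
        linarith [(abs_le.1 e4).1]
      have e5 : c0 * ε1 ≤ A * ε1 := mul_le_mul_of_nonneg_right hc0A (by positivity)
      nlinarith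
    have m2 : ∑ u, c u * N u - A * ((4 * θ + τ) * Un) ≤ ∑ u, c u * N' u := by
      have e1 : |∑ u, c u * N' u - ∑ u, c u * N u| ≤ A * ((4 * θ + τ) * Un) := by
        rw [← sum_sub_distrib]
        refine (abs_sum_le_sum_abs _ _).trans ?_
        calc ∑ u, |c u * N' u - c u * N u| ≤ ∑ u, |c u| * ((4 * θ + τ) * Un) := by
              refine sum_le_sum fun u _ => ?_
              rw [← mul_sub, abs_mul]
              exact mul_le_mul_of_nonneg_left (hdiff u) (abs_nonneg _)
          _ = A * ((4 * θ + τ) * Un) := by rw [← sum_mul]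
      linarith [(abs_le.1 e1).1]
    have m3 : c0 * κ / 2 * Un ≤ ∑ u, c u * N' u := by
      have e1 : A * ((4 * θ + τ) * Un) = (A * (4 * θ) + A * τ) * Un := by ring
      rw [e1] at m2
      have e2 : c0 * κ / 2 * Un ≤ (c0 * κ - 2 * (A * ε1)) * Un - (A * (4 * θ) + A * τ) * Un := by
        rw [← sub_mul]
        apply mul_le_mul_of_nonneg_right _ hUn0.le
        have e3 : 0 < c0 * κ := mul_pos hu0 hκ
        linarith
      linarith
    have m4 : ∑ u, c u * cXq (T ∪ q.primeFactors) q (cl q u) L a = q / (L ^ a * VV' T) * ∑ u, c u * N' u := by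
      rw [mul_sum]
      refine sum_congr rfl fun u _ => ?_
      rw [hval u]; ring
    rw [m4]
    calc c0 * κ / 8 = c0 * κ / 2 * ((1 / 2) * (1 / 2)) := by ring
      _ ≤ c0 * κ / 2 * (((Y : ℝ) / L ^ a) * (VV' B / VV' B')) := by
          apply mul_le_mul_of_nonneg_left _ (by positivity)
          apply mul_le_mul
          · rw [le_div_iff₀ hLa]; linarith
          · rw [le_div_iff₀ hVB']; linarith
          · norm_num
          · positivity
      _ ≤ c0 * κ / 2 * (((Y : ℝ) / L ^ a) * (VV' B / VV' B') * (VV' P')⁻¹) := by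
          apply mul_le_mul_of_nonneg_left _ (by positivity)
          apply le_mul_of_one_le_right (by positivity)
          exact (one_le_inv₀ hVP').2 hVP'1
      _ = q / (L ^ a * VV' T) * (c0 * κ / 2 * Un) := by rw [hVT, hUn]; field_simp
      _ ≤ _ := mul_le_mul_of_nonneg_left m3 hfac0.le

end Pool.Agent.W5h25.PR
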