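import Pool.Agent.W5h25.PR.J

/-! The model for linear forms with nonvanishing sum. -/

set_option autoImplicit false

open Finset Filter Topology
open Pool.Agent.H378R2 Pool.Agent.H510R2.Maier
open Pool.Agent.W5h22.JM

namespace Pool.Agent.W5h25.PR

theorem exk (σ x : ℝ) (hσ : σ ≠ 0) : ∃ k : ℕ, 2 ≤ k ∧ x ≤ k ∧ (-1 : ℝ) ^ (k + 1) * σ = |σ| := by
  set k0 := 2 * (⌈x⌉₊ + 1) with hk0
  have hx : x ≤ k0 := by
    refine (Nat.le_ceil x).trans ?_
    exact_mod_cast (by omega : ⌈x⌉₊ ≤ k0)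
  rcases lt_or_gt_of_ne hσ with h | h
  · refine ⟨k0, by omega, hx, ?_⟩
    rw [hk0, pow_succ, pow_mul, abs_of_neg h]; norm_num
  · refine ⟨k0 + 1, by omega, by push_cast; linarith, ?_⟩
    rw [hk0, pow_succ, pow_succ, pow_mul, abs_of_pos h]; norm_num

theorem modelA (q : ℕ) [NeZero q] (a v : ℝ) (ha : 1 < a) (hv : 0 < v) (hv1 : v < 1)
    (c : (ZMod q)ˣ → ℝ) (hc : ∑ u, c u ≠ 0) : Model q a v c := by
  classical
  have hq : 0 < q := Nat.pos_of_ne_zero (NeZero.ne q)
  have hq0 : (0 : ℝ) < q := by exact_mod_cast hq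
  have hq1 : (1 : ℝ) ≤ q := by exact_mod_cast hq
  have ha0 : 0 < a := by linarith
  set σ : ℝ := ∑ u, c u with hσ
  set A : ℝ := ∑ u, |c u| with hA
  have hσA : |σ| ≤ A := abs_sum_le_sum_abs _ _
  have hσ0 : 0 < |σ| := abs_pos.2 hc
  have hA0 : 0 < A := by linarith
  obtain ⟨k, hk2, hkx, hsign⟩ := exk σ (2 * a / v) hc
  have hkr : (2 : ℝ) ≤ k := by exact_mod_cast hk2
  have hk0 : (0 : ℝ) < k := by linarith
  have hkv : a / k ≤ v / 2 := by
    rw [div_le_iff₀ hv] at hkx
    rw [div_le_div_iff₀ hk0 (by norm_num)]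
    linarith
  set ζ : ℝ := min (1 / (2 * k)) (|σ| / (16 * A)) with hζ
  have hζ0 : 0 < ζ := by positivity
  have hζ1 : ζ ≤ 1 / (2 * k) := min_le_left _ _
  have hζ2 : ζ * (16 * A) ≤ |σ| := by
    have : ζ ≤ |σ| / (16 * A) := min_le_right _ _
    rwa [le_div_iff₀ (by positivity)] at this
  have hζ3 : ζ * (2 * k) ≤ 1 := by rwa [le_div_iff₀ (by positivity)] at hζ1
  have hζ4 : ζ ≤ 1 / 4 := by nlinarith
  set u0 : ℝ := a / k with hu0
  set v0 : ℝ := u0 * (1 + ζ) with hv0
  have hu00 : 0 < u0 := by positivity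
  have huv : u0 < v0 := by rw [hv0]; nlinarith
  have hv0v : v0 ≤ v := by rw [hv0]; nlinarith
  have hv01 : v0 < 1 := by linarith
  have hv00 : 0 < v0 := by linarith
  have hkv0 : (k - 1 : ℝ) * v0 < a := by
    have e1 : (k : ℝ) * u0 = a := by rw [hu0]; field_simp
    have e2 : (k - 1 : ℝ) * v0 = (k * u0 - u0) * (1 + ζ) := by rw [hv0]; ring
    rw [e2, e1]
    have e3 : a * ζ ≤ u0 / 2 := by
      rw [← e1]; nlinarith
    nlinarith
  set ν : ℝ := Real.log (v0 / u0) with hν
  have hvu : v0 / u0 = 1 + ζ := by rw [hv0]; field_simp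
  have hν0 : 0 < ν := by
    rw [hν, hvu]; exact Real.log_pos (by linarith)
  have hνζ : ν ≤ ζ := by
    rw [hν, hvu]
    have := Real.log_le_sub_one_of_pos (show 0 < 1 + ζ by linarith)
    linarith
  set el : ℝ := (ν / 4) ^ k / k.factorial with hel
  have hel0 : 0 < el := by positivity
  set ε2 : ℝ := |σ| * el / (4 * A) with hε2
  have hε20 : 0 < ε2 := by positivity
  have hAε2 : A * ε2 = |σ| * el / 4 := by rw [hε2]; field_simp
  refine ⟨|σ| * el / 2, by positivity, q, 4, by norm_num, ?_⟩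
  have hlogt := Real.tendsto_log_atTop
  have ev3 : ∀ᶠ L : ℝ in atTop, (k : ℝ) / L ^ u0 ≤ ν / 4 := by
    have h1 : Tendsto (fun L : ℝ => (k : ℝ) / L ^ u0) atTop (𝓝 0) :=
      tendsto_const_nhds.div_atTop (tendsto_rpow_atTop hu00)
    filter_upwards [h1.eventually_lt_const (show (0 : ℝ) < ν / 4 by positivity)] with L hL
    exact hL.le
  have ev4 := ev_pow ((k - 1 : ℝ) * v0) a (2 * q * k + k) ε2 (mul_nonneg (by linarith) hv00.le) hkv0 (by positivity) hε20
  filter_upwards [s_props q q hq le_rfl v0 v hv00 hv0v hv1, mertens_sX u0 v0 (ν / 2) hu00 huv hv01 (by positivity),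
    hlogt.eventually ev3, hlogt.eventually ev4, hlogt.eventually_gt_atTop (1 : ℝ),
    hlogt.eventually ((tendsto_rpow_atTop hu00).eventually_ge_atTop (q : ℝ)),
    hlogt.eventually ((tendsto_rpow_atTop ha0).eventually_ge_atTop (q : ℝ))] with X h1 h2 h3 h4 h5 h6 h7 ps S hps hS
  set L := Real.log X with hL
  have hL0 : 0 < L := by linarith
  set T := sX X ps S u0 v0 with hT
  have hTm : ∀ p ∈ T, p.Prime ∧ L ^ u0 < p ∧ (p : ℝ) ≤ L ^ v0 ∧ p ∉ S ∧ p ≠ ps := by
    intro p hp
    rw [hT, sX, mem_filter, mem_PW] at hp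
    exact ⟨hp.1.2.1, hp.2.1, hp.2.2, hp.1.2.2.1, hp.1.2.2.2⟩
  have hTp : ∀ p ∈ T, p.Prime := fun p hp => (hTm p hp).1
  have hTq : ∀ p ∈ T, ¬ p ∣ q := by
    intro p hp hpq
    have e1 : (p : ℝ) ≤ q := by exact_mod_cast Nat.le_of_dvd hq hpq
    have := (hTm p hp).2.1
    linarith
  obtain ⟨s1, s2, s3, s4, s5⟩ := h1 ps S hps hS T (by
    intro p hp
    obtain ⟨q1, q2, q3, q4, q5⟩ := hTm p hp
    exact ⟨q1, hTq p hp, q3, q4, q5⟩)
  refine ⟨T ∪ q.primeFactors, s1, s2, s3, s4, ?_⟩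
  have hLa : 0 < L ^ a := Real.rpow_pos_of_pos hL0 a
  set Y := ⌊L ^ a⌋₊ with hY
  have hY1 : (Y : ℝ) ≤ L ^ a := Nat.floor_le hLa.le
  have hY2 : L ^ a < Y + 1 := Nat.lt_floor_add_one _
  have hee := abs_le.1 (h2 ps S hS)
  rw [← hT, ← hν] at hee
  have he1 : ν / 2 ≤ ee T 1 := by linarith [hee.1]
  have he2 : ee T 1 ≤ 3 / 2 * ν := by linarith [hee.2]
  have he3 : ee T 1 ≤ 1 / 2 := by linarith
  have hVT := VV_pos T hTp
  have hVT1 := VV_le_one T hTp
  have hVT2 : 1 / 2 ≤ VV' T := by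
    have := VV_ge T hTp
    rw [ee_one] at he3
    linarith
  have hVT3 : VV' T = PP T := (PP_prod T hTp).symm
  -- the counts
  have hcardT : (T.card : ℝ) ≤ L ^ v0 := card_le T hTp _ (Real.rpow_nonneg hL0.le _) fun p hp => (hTm p hp).2.2.1
  set E : ℝ := ∑ j ∈ range k, (-1 : ℝ) ^ j * ee T j with hE
  have hcount : ∀ r : ℕ, |(cntq T q r Y : ℝ) - (Y : ℝ) / q * E| ≤ 2 * ∑ j ∈ range k, (T.card : ℝ) ^ j := by
    intro r
    have hprodT : ∀ j : ℕ, k ≤ j → ∀ U ∈ T.powersetCard j, Y < ∏ p ∈ U, p := by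
      intro j hj U hU
      rw [mem_powersetCard] at hU
      have e2 : L ^ a < ((∏ p ∈ U, p : ℕ) : ℝ) := by
        push_cast
        have hne : U.Nonempty := card_pos.1 (by omega)
        calc L ^ a ≤ L ^ ((j : ℕ) * u0) := by
              apply Real.rpow_le_rpow_of_exponent_le h5.le
              have e3 : (k : ℝ) ≤ j := by exact_mod_cast hj
              have e4 : (k : ℝ) * u0 = a := by rw [hu0]; field_simp
              rw [← e4]
              exact mul_le_mul_of_nonneg_right e3 hu00.le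
          _ = ∏ _p ∈ U, L ^ u0 := by
              rw [prod_const, hU.2, mul_comm, Real.rpow_mul hL0.le, Real.rpow_natCast]
          _ < ∏ p ∈ U, (p : ℝ) := by
              apply Finset.prod_lt_prod_of_nonempty
              · intro p _
                exact Real.rpow_pos_of_pos hL0 _
              · intro p hp
                exact (hTm p (hU.1 hp)).2.1
              · exact hne
      have e3 : (Y : ℝ) < ((∏ p ∈ U, p : ℕ) : ℝ) := lt_of_le_of_lt hY1 e2
      exact_mod_cast e3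
    have e1 := leg_fl ∅ T q r Y k hq (fun p hp => absurd hp (notMem_empty p))
      (fun p hp => ⟨hTp p hp, hTq p hp, notMem_empty p⟩) 1 0 1 le_rfl zero_le_one zero_le_one le_rfl
      (fun N r' => by
        have e2 := res_count q hq N r'
        unfold cntq
        simp only [notMem_empty, false_imp_iff, implies_true, and_true, mul_one, zero_mul, zero_add]
        exact e2) (hprodT (k + 1) (by omega)) (by linarith)
    have e2 : ∑ U ∈ T.powersetCard k, (((HH ∅ q r Y).filter (fun h => (∏ p ∈ U, p) ∣ h)).card : ℝ) = 0 := by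
      apply sum_eq_zero
      intro U hU
      rw [Nat.cast_eq_zero, card_eq_zero, filter_eq_empty_iff]
      intro h hh hd
      unfold HH at hh
      rw [mem_filter, mem_Ioc] at hh
      have q1 := Nat.le_of_dvd hh.1.1 hd
      have q2 := hprodT k le_rfl U hU
      omega
    rw [e2, mul_zero, sub_zero, empty_union, mul_one] at e1
    refine e1.trans (le_of_eq ?_)
    ring
  have hsumT : ∑ j ∈ range k, (T.card : ℝ) ^ j ≤ k * L ^ ((k - 1 : ℝ) * v0) := by
    obtain ⟨k', rfl⟩ : ∃ k', k = k' + 1 := ⟨k - 1, by omega⟩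
    have q1 := pow_sum_le T (L ^ v0) (Real.one_le_rpow h5.le hv00.le) hcardT k'
    have q2 : (L ^ v0) ^ k' = L ^ ((((k' + 1 : ℕ) : ℝ) - 1) * v0) := by
      rw [← Real.rpow_natCast, ← Real.rpow_mul hL0.le]
      congr 1
      push_cast; ring
    rw [q2] at q1
    push_cast at q1 ⊢
    exact q1
  have hEabs : |E| ≤ k := by
    rw [hE]
    refine (abs_sum_le_sum_abs _ _).trans ?_
    calc ∑ j ∈ range k, |(-1 : ℝ) ^ j * ee T j| ≤ ∑ j ∈ range k, (1 : ℝ) := by
          refine sum_le_sum fun j _ => ?_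
          rw [abs_mul, abs_pow, abs_neg, abs_one, one_pow, one_mul, abs_of_nonneg (ee_nonneg T j)]
          exact ee_le_one T (by linarith) j
      _ = k := by simp
  set M : (ZMod q)ˣ → ℝ := fun u => q * (cntq T q (cl q u) Y : ℝ) / L ^ a with hM
  have hME : ∀ u, |M u - E| ≤ ε2 := by
    intro u
    have e1 := hcount (cl q u)
    have e2 : M u - E = (q * ((cntq T q (cl q u) Y : ℝ) - (Y : ℝ) / q * E) - (L ^ a - Y) * E) / L ^ a := by
      simp only [hM]; field_simp; ring
    rw [e2, abs_div, abs_of_pos hLa, div_le_iff₀ hLa]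
    refine (abs_sub _ _).trans ?_
    rw [abs_mul, abs_mul, abs_of_pos hq0]
    have e3 : |L ^ a - (Y : ℝ)| ≤ 1 := by
      rw [abs_le]; constructor <;> linarith
    have e4 : |L ^ a - (Y : ℝ)| * |E| ≤ 1 * k := mul_le_mul e3 hEabs (abs_nonneg _) zero_le_one
    have e5 : (q : ℝ) * |(cntq T q (cl q u) Y : ℝ) - (Y : ℝ) / q * E| ≤ q * (2 * (k * L ^ ((k - 1 : ℝ) * v0))) := by
      apply mul_le_mul_of_nonneg_left _ hq0.le
      exact e1.trans (mul_le_mul_of_nonneg_left hsumT (by norm_num))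
    have e6 : (1 : ℝ) ≤ L ^ ((k - 1 : ℝ) * v0) := Real.one_le_rpow h5.le (mul_nonneg (by linarith) hv00.le)
    have e7 : (k : ℝ) ≤ k * L ^ ((k - 1 : ℝ) * v0) := le_mul_of_one_le_right hk0.le e6
    nlinarith
  have hval : ∀ u, cXq (T ∪ q.primeFactors) q (cl q u) L a = (VV' T)⁻¹ * M u := by
    intro u
    rw [s5 (cl q u) a (cl_cop q u), ← hY]
    simp only [hM]
    field_simp
  have hekl : el ≤ ee T k := by
    have q2 := ee_ge T k (L ^ u0) (Real.rpow_pos_of_pos hL0 _) (fun p hp => (hTm p hp).2.1.le) (by linarith)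
    refine le_trans ?_ q2
    rw [hel]
    apply div_le_div_of_nonneg_right _ (by positivity)
    apply pow_le_pow_left₀ (by positivity)
    linarith
  constructor
  · intro u
    rw [hval u]
    have e1 : M u ≤ 2 := by
      simp only [hM]
      rw [div_le_iff₀ hLa]
      have q1 : (cntq T q (cl q u) Y : ℝ) ≤ (((Ioc 0 Y).filter (fun n => n ≡ cl q u [MOD q])).card : ℝ) := by
        have : cntq T q (cl q u) Y ≤ ((Ioc 0 Y).filter (fun n => n ≡ cl q u [MOD q])).card := by
          unfold cntq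
          apply card_le_card
          intro h hh
          rw [mem_filter] at hh ⊢
          exact ⟨hh.1, hh.2.1⟩
        exact_mod_cast this
      have q2 := (abs_le.1 (res_count q hq Y (cl q u))).2
      have q3 : (cntq T q (cl q u) Y : ℝ) ≤ Y / q + 1 := by linarith
      calc (q : ℝ) * (cntq T q (cl q u) Y : ℝ) ≤ q * (Y / q + 1) := mul_le_mul_of_nonneg_left q3 hq0.le
        _ = Y + q := by field_simp
        _ ≤ 2 * L ^ a := by linarith
    have e2 : (VV' T)⁻¹ ≤ 2 := by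
      calc (VV' T)⁻¹ ≤ (1 / 2 : ℝ)⁻¹ := inv_anti₀ (by norm_num) hVT2
        _ = 2 := by norm_num
    have e3 : 0 ≤ M u := by simp only [hM]; positivity
    calc (VV' T)⁻¹ * M u ≤ 2 * 2 := mul_le_mul e2 e1 e3 (by norm_num)
      _ = 4 := by norm_num
  · have m1 : σ * E - A * ε2 ≤ ∑ u, c u * M u := by
      have e1 : |∑ u, c u * M u - σ * E| ≤ A * ε2 := by
        rw [hσ, sum_mul, ← sum_sub_distrib]
        refine (abs_sum_le_sum_abs _ _).trans ?_
        calc ∑ u, |c u * M u - c u * E| ≤ ∑ u, |c u| * ε2 := by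
              refine sum_le_sum fun u _ => ?_
              rw [← mul_sub, abs_mul]
              exact mul_le_mul_of_nonneg_left (hME u) (abs_nonneg _)
          _ = A * ε2 := by rw [← sum_mul]
      linarith [(abs_le.1 e1).1]
    have m2 : |VV' T - (E + (-1) ^ k * ee T k)| ≤ ee T (k + 1) := by
      have e1 := bonf_prod T hTp (k + 1) (by omega)
      rw [sum_range_succ] at e1
      rw [hVT3]
      exact e1
    have m3 : ee T (k + 1) ≤ ee T 1 * ee T k := by
      have e1 := ee_up T k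
      have e2 := ee_nonneg T (k + 1)
      nlinarith
    have hek0 := ee_nonneg T k
    have hek10 := ee_nonneg T (k + 1)
    have m4 : A * ee T (k + 1) ≤ |σ| * ee T k / 4 := by
      have e1 : A * ee T 1 ≤ |σ| / 4 := by
        calc A * ee T 1 ≤ A * (3 / 2 * ζ) := by
              apply mul_le_mul_of_nonneg_left _ hA0.le
              linarith
          _ ≤ |σ| / 4 := by linarith
      calc A * ee T (k + 1) ≤ A * (ee T 1 * ee T k) := mul_le_mul_of_nonneg_left m3 hA0.le
        _ = (A * ee T 1) * ee T k := by ring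
        _ ≤ |σ| / 4 * ee T k := mul_le_mul_of_nonneg_right e1 hek0
        _ = _ := by ring
    have m5 : σ * VV' T + |σ| * ee T k - |σ| * ee T (k + 1) ≤ σ * E := by
      have e1 : |σ * (VV' T - (E + (-1) ^ k * ee T k))| ≤ |σ| * ee T (k + 1) := by
        rw [abs_mul]; exact mul_le_mul_of_nonneg_left m2 (abs_nonneg _)
      have e2 := (abs_le.1 e1).2
      have e3 : σ * (VV' T - (E + (-1) ^ k * ee T k)) = σ * VV' T - σ * E + ((-1) ^ (k + 1) * σ) * ee T k := by
        rw [pow_succ]; ring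
      rw [e3, hsign] at e2
      linarith
    have m6 : σ * VV' T + |σ| * el / 2 ≤ ∑ u, c u * M u := by
      have e1 : |σ| * ee T (k + 1) ≤ A * ee T (k + 1) := mul_le_mul_of_nonneg_right hσA hek10
      have e2 : |σ| * el ≤ |σ| * ee T k := mul_le_mul_of_nonneg_left hekl hσ0.le
      linarith
    have m7 : ∑ u, c u * cXq (T ∪ q.primeFactors) q (cl q u) L a = (VV' T)⁻¹ * ∑ u, c u * M u := by
      rw [mul_sum]
      refine sum_congr rfl fun u _ => ?_
      rw [hval u]; ring
    rw [m7]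
    have m8 : (VV' T)⁻¹ * (σ * VV' T + |σ| * el / 2) ≤ (VV' T)⁻¹ * ∑ u, c u * M u :=
      mul_le_mul_of_nonneg_left m6 (by positivity)
    refine le_trans ?_ m8
    have m9 : (VV' T)⁻¹ * (σ * VV' T + |σ| * el / 2) = σ + (VV' T)⁻¹ * (|σ| * el / 2) := by field_simp
    rw [m9]
    have m10 : |σ| * el / 2 ≤ (VV' T)⁻¹ * (|σ| * el / 2) := le_mul_of_one_le_left (by positivity) ((one_le_inv₀ hVT).2 hVT1)
    linarith

end Pool.Agent.W5h25.PR
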