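import Pool.Agent.W5h22.JM.K
import Pool.Agent.W5h25.PR.C
import Pool.Agent.W5h25.PR.K
import Pool.Agent.W5h25.PR.L

/-! Linear forms in the normalised numbers of primes of the residue classes; the convex hull. -/

set_option autoImplicit false

open Finset Filter Topology
open Pool.Agent.H378R2 Pool.Agent.H510R2.Maier
open Pool.Agent.W5h22.JM

namespace Pool.Agent.W5h25.PR

/-- the modulus divided by its radical -/
def gq (q : ℕ) : ℕ := q / ∏ p ∈ q.primeFactors, p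

theorem gq_mul (q : ℕ) : gq q * ∏ p ∈ q.primeFactors, p = q :=
  Nat.div_mul_cancel (Nat.prod_primeFactors_dvd q)

theorem gq_pos (q : ℕ) (hq : 0 < q) : 0 < gq q := by
  rcases Nat.eq_zero_or_pos (gq q) with h | h
  · have := gq_mul q
    rw [h, zero_mul] at this
    omega
  · exact h

theorem gq_dvd (q : ℕ) : gq q ∣ q := Dvd.intro _ (gq_mul q)

theorem dvd_gq (q : ℕ) (s : Finset ℕ) (h : q.primeFactors ⊆ s) : q ∣ gq q * ∏ p ∈ s, p := by
  conv_lhs => rw [← gq_mul q]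
  exact Nat.mul_dvd_mul_left _ (prod_dvd_prod_of_subset _ _ _ h)

theorem model (q : ℕ) [NeZero q] (a v : ℝ) (ha : 1 < a) (hv : 0 < v) (hv1 : v < 1)
    (c : (ZMod q)ˣ → ℝ) (hc : ∃ u, c u ≠ 0) : Model q a v c := by
  by_cases h : ∑ u, c u = 0
  · exact modelB q a v ha hv hv1 c h hc
  · exact modelA q a v ha hv hv1 c h

/-- means along the multiples of a suitable modulus -/
theorem core (q : ℕ) [NeZero q] (a v : ℝ) (ha : 1 < a) (hv1 : v < 1) (c : (ZMod q)ˣ → ℝ)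
    (δ : ℝ) (Z : ℕ) (C : ℝ) (hC : 0 < C)
    (hm : ∀ᶠ X : ℝ in atTop, ∀ (ps : ℕ) (S : Finset ℕ), GoodP Z ps → GoodS X S →
    ∃ s ⊆ PW X S ps, (PP s)⁻¹ ≤ (Real.log X) ^ v ∧ q.primeFactors ⊆ s ∧ (∀ p ∈ s, (p : ℝ) ≤ (Real.log X) ^ v) ∧
      (∀ u, cXq s q (cl q u) (Real.log X) a ≤ C) ∧ ∑ u, c u + δ ≤ ∑ u, c u * cXq s q (cl q u) (Real.log X) a)
    (ε : ℝ) (hε : 0 < ε) : ∀ᶠ X : ℝ in atTop, ∃ s : Finset ℕ, (∀ p ∈ s, p.Prime) ∧
      (∀ p ∈ s, (p : ℝ) ≤ (Real.log X) ^ v) ∧ 0 < NQ X (gq q * ∏ p ∈ s, p) ∧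
      X / (40 * ((gq q * ∏ p ∈ s, p : ℕ) : ℝ)) ≤ NQ X (gq q * ∏ p ∈ s, p) ∧
      (∀ u, |EX X (gq q * ∏ p ∈ s, p) (fun n => RR q (cl q u) a n) - cXq s q (cl q u) (Real.log X) a| ≤ ε) ∧
      (∀ u, 0 ≤ cXq s q (cl q u) (Real.log X) a ∧ cXq s q (cl q u) (Real.log X) a ≤ C) ∧
      ∑ u, c u + δ ≤ ∑ u, c u * cXq s q (cl q u) (Real.log X) a := by
  have hq : 0 < q := Nat.pos_of_ne_zero (NeZero.ne q)
  have h1 := mean_RR q (gq q) Z ⌈a⌉₊ hq (gq_pos q hq) v hv1 (ε / (1 + C)) (by positivity)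
  filter_upwards [h1, hm, Real.tendsto_log_atTop.eventually_gt_atTop (0 : ℝ)] with X h2 h3 h4
  obtain ⟨ps, S, hps, hS, h5⟩ := h2
  obtain ⟨s, s1, s2, s3, s4, s5, s6⟩ := h3 ps S hps hS
  obtain ⟨m1, m2, m3⟩ := h5 s s1 (fun p hp hpg => s3 (Nat.mem_primeFactors.2 ⟨hp, hpg.trans (gq_dvd q), hq.ne'⟩)) s2 (dvd_gq q s s3)
  have hsp : ∀ p ∈ s, p.Prime := fun p hp => (mem_PW.1 (s1 hp)).2.1
  have hnn : ∀ u, 0 ≤ cXq s q (cl q u) (Real.log X) a := by
    intro u
    unfold cXq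
    have := PP_pos s hsp
    have := Real.rpow_pos_of_pos h4 a
    positivity
  refine ⟨s, hsp, s4, m1, m2, fun u => ?_, fun u => ⟨hnn u, s5 u⟩, s6⟩
  refine (m3 (cl q u) a ha.le (Nat.le_ceil a)).trans ?_
  have := s5 u
  calc ε / (1 + C) * (1 + cXq s q (cl q u) (Real.log X) a) ≤ ε / (1 + C) * (1 + C) := by gcongr
    _ = ε := by field_simp

theorem EX_sum (X : ℝ) (Q : ℕ) {ι : Type*} (t : Finset ι) (c : ι → ℝ) (f : ι → ℕ → ℝ) :
    EX X Q (fun n => ∑ i ∈ t, c i * f i n) = ∑ i ∈ t, c i * EX X Q (f i) := by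
  unfold EX
  simp only [mul_div_assoc', ← sum_div]
  congr 1
  simp only [mul_sum]
  rw [sum_comm]
  refine sum_congr rfl fun i _ => ?_
  exact sum_congr rfl fun n _ => by ring

/-- **oscillation of the linear forms** -/
theorem lin_main (q : ℕ) [NeZero q] (a : ℝ) (ha : 1 < a) (c : (ZMod q)ˣ → ℝ) (hc : ∃ u, c u ≠ 0)
    (ε0 : ℝ) (hε0 : 0 < ε0) :
    ∃ δ : ℝ, 0 < δ ∧ ∀ᶠ X : ℝ in atTop, X * Real.exp (-(Real.log X) ^ ε0) ≤
      ((big X (∑ u, c u + δ) (fun n => ∑ u, c u * RR q (cl q u) a n)).card : ℝ) := by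
  set v : ℝ := min (1 / 2) (ε0 / 2) with hv
  have hv0 : 0 < v := by positivity
  have hv1 : v < 1 := lt_of_le_of_lt (min_le_left _ _) (by norm_num)
  have hvε : v < ε0 := lt_of_le_of_lt (min_le_right _ _) (by linarith)
  obtain ⟨δ, hδ, Z, C, hC, hm⟩ := model q a v ha hv0 hv1 c hc
  set A : ℝ := ∑ u, |c u| with hA
  have hA0 : 0 ≤ A := sum_nonneg fun u _ => abs_nonneg _
  set ε : ℝ := δ / (2 * (A + 1)) with hε
  have hεp : 0 < ε := by positivity
  have hεA : A * ε ≤ δ / 2 := by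
    calc A * ε ≤ (A + 1) * ε := mul_le_mul_of_nonneg_right (by linarith) hεp.le
      _ = δ / 2 := by rw [hε]; field_simp
  have hφ1 : (1 : ℝ) ≤ q.totient := by exact_mod_cast Nat.totient_pos.2 (Nat.pos_of_ne_zero (NeZero.ne q))
  set W : ℝ := q.totient * A + A + 1 with hW
  have hW0 : 0 < W := by positivity
  set g : ℝ := (gq q : ℝ) with hg
  have hg0 : 0 < g := by
    rw [hg]; exact_mod_cast gq_pos q (Nat.pos_of_ne_zero (NeZero.ne q))
  refine ⟨δ / 4, by positivity, ?_⟩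
  filter_upwards [core q a v ha hv1 c δ Z C hC hm ε hεp, eventually_gt_atTop (1 : ℝ),
    ev_cnt v ε0 (160 * (W * g) / δ) hv0 hvε (by positivity)] with X hcore hX hcntX
  obtain ⟨s, hsp, hsr, hN, hN40, hmean, hbd, hmod⟩ := hcore
  have hX0 : 0 < X := by linarith
  have hL : 0 < Real.log X := Real.log_pos hX
  have hlog3 : Real.log X ≤ Real.log (3 * X) := Real.log_le_log hX0 (by linarith)
  have e4 : ∑ u, c u + δ / 4 + δ / 4 ≤ EX X (gq q * ∏ p ∈ s, p) (fun n => ∑ u, c u * RR q (cl q u) a n) := by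
    rw [EX_sum]
    have e1 : |∑ u, c u * EX X (gq q * ∏ p ∈ s, p) (fun n => RR q (cl q u) a n) - ∑ u, c u * cXq s q (cl q u) (Real.log X) a| ≤ A * ε := by
      rw [← sum_sub_distrib]
      refine (abs_sum_le_sum_abs _ _).trans ?_
      calc _ ≤ ∑ u, |c u| * ε := by
            refine sum_le_sum fun u _ => ?_
            rw [← mul_sub, abs_mul]
            exact mul_le_mul_of_nonneg_left (hmean u) (abs_nonneg _)
        _ = A * ε := by rw [← sum_mul]
    linarith [(abs_le.1 e1).1]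
  have hsumA : -∑ u, c u ≤ A := by
    rw [← sum_neg_distrib]
    exact sum_le_sum fun u _ => neg_le_abs _
  have hcount := EX_count X hX0 (gq q * ∏ p ∈ s, p) hN (fun n => ∑ u, c u * RR q (cl q u) a n)
    (∑ u, c u + δ / 4) (δ / 4) (W * (Real.log (3 * X) + 1)) (by
      intro n hn hn3
      have hn0 : (0 : ℝ) < n := by linarith
      have f1 : ∑ u, c u * RR q (cl q u) a n ≤ A * (q.totient * Real.log (3 * X)) := by
        rw [hA, sum_mul]
        refine sum_le_sum fun u _ => ?_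
        obtain ⟨b1, b2⟩ := RR_bd q (cl q u) a n
        have b3 : Real.log n ≤ Real.log (3 * X) := Real.log_le_log hn0 hn3.le
        have b4 : RR q (cl q u) a n ≤ q.totient * Real.log (3 * X) :=
          b2.trans (mul_le_mul_of_nonneg_left b3 (by positivity))
        calc c u * RR q (cl q u) a n ≤ |c u| * RR q (cl q u) a n := mul_le_mul_of_nonneg_right (le_abs_self _) b1
          _ ≤ _ := mul_le_mul_of_nonneg_left b4 (abs_nonneg _)
      have f4 : W * (Real.log (3 * X) + 1) = A * (q.totient * Real.log (3 * X)) + q.totient * A + A * Real.log (3 * X) + A +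
          Real.log (3 * X) + 1 := by rw [hW]; ring
      have f5 : 0 ≤ q.totient * A := by positivity
      have f6 : 0 ≤ A * Real.log (3 * X) := mul_nonneg hA0 (by linarith)
      rw [f4]
      linarith) (mul_pos hW0 (by linarith)) e4
  -- the final count
  set b := ((big X (∑ u, c u + δ / 4) (fun n => ∑ u, c u * RR q (cl q u) a n)).card : ℝ) with hb
  have hQ0 : (0 : ℝ) < ((∏ p ∈ s, p : ℕ) : ℝ) := by exact_mod_cast prod_ne s hsp (Subset.refl s)
  have hQ := Q_le s hsp ((Real.log X) ^ v) (Real.rpow_nonneg hL.le v) hsr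
  have hQg : ((gq q * ∏ p ∈ s, p : ℕ) : ℝ) ≤ g * Real.exp (2 * (Real.log X) ^ v) := by
    rw [Nat.cast_mul]
    exact mul_le_mul_of_nonneg_left hQ hg0.le
  have hQg0 : (0 : ℝ) < ((gq q * ∏ p ∈ s, p : ℕ) : ℝ) := by
    rw [Nat.cast_mul]
    exact mul_pos hg0 hQ0
  have g1 : X / (40 * (g * Real.exp (2 * (Real.log X) ^ v))) ≤ NQ X (gq q * ∏ p ∈ s, p) := by
    refine le_trans ?_ hN40
    gcongr
  have g2 : X / (40 * (g * Real.exp (2 * (Real.log X) ^ v))) * (δ / 4) ≤ W * (Real.log (3 * X) + 1) * b :=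
    (mul_le_mul_of_nonneg_right g1 (by positivity)).trans hcount
  have g3 : X * (δ / 4) ≤ W * (Real.log (3 * X) + 1) * b * (40 * (g * Real.exp (2 * (Real.log X) ^ v))) := by
    have : X / (40 * (g * Real.exp (2 * (Real.log X) ^ v))) * (δ / 4) * (40 * (g * Real.exp (2 * (Real.log X) ^ v))) = X * (δ / 4) := by
      field_simp
    rw [← this]
    exact mul_le_mul_of_nonneg_right g2 (by positivity)
  have g4 : X ≤ b * (160 * (W * g) / δ * (Real.log (3 * X) + 1) * Real.exp (2 * (Real.log X) ^ v)) := by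
    have h1 : b * (160 * (W * g) / δ * (Real.log (3 * X) + 1) * Real.exp (2 * (Real.log X) ^ v)) =
        W * (Real.log (3 * X) + 1) * b * (40 * (g * Real.exp (2 * (Real.log X) ^ v))) / (δ / 4) := by
      field_simp
      ring
    rw [h1, le_div_iff₀ (by positivity)]
    exact g3
  have hb0 : 0 ≤ b := Nat.cast_nonneg _
  have g5 := g4.trans (mul_le_mul_of_nonneg_left hcntX hb0)
  rw [Real.exp_neg, ← div_eq_mul_inv, div_le_iff₀ (Real.exp_pos _)]
  exact g5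

/-- means are points of the convex hull -/
theorem hull_pt (q : ℕ) [NeZero q] (a X : ℝ) (hX : 0 < X) (Q : ℕ) (hN : 0 < NQ X Q) :
    (fun u : (ZMod q)ˣ => EX X Q (fun n => RR q (cl q u) a n)) ∈
      convexHull ℝ {r : (ZMod q)ˣ → ℝ | ∃ n : ℕ, X < n ∧ (n : ℝ) < 3 * X ∧ r = fun u => RR q (cl q u) a n} := by
  classical
  set T := (Icc 1 ⌊3 * X⌋₊).filter (fun n : ℕ => X < n ∧ (n : ℝ) < 3 * X) with hT
  have hres : ∀ f : ℕ → ℝ, ∑ n ∈ Icc 1 ⌊3 * X⌋₊, nu X Q 0 n * f n = ∑ n ∈ T, nu X Q 0 n * f n := by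
    intro f
    rw [hT, sum_filter]
    refine sum_congr rfl fun n _ => ?_
    split_ifs with h
    · rfl
    · rw [nu_eq_zero hX h, zero_mul]
  have hNT : NQ X Q = ∑ n ∈ T, nu X Q 0 n := by
    have := hres (fun _ => 1)
    simpa [NQ] using this
  have h1 : (fun u : (ZMod q)ˣ => EX X Q (fun n => RR q (cl q u) a n)) =
      ∑ n ∈ T, (nu X Q 0 n / NQ X Q) • (fun u => RR q (cl q u) a n : (ZMod q)ˣ → ℝ) := by
    ext i
    rw [Finset.sum_apply]
    simp only [Pi.smul_apply, smul_eq_mul]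
    unfold EX
    rw [hres, sum_div]
    exact sum_congr rfl fun n _ => by ring
  rw [h1]
  apply (convex_convexHull ℝ _).sum_mem
  · intro n _
    exact div_nonneg (nu_nonneg _ _ _ _) hN.le
  · rw [← sum_div, ← hNT, div_self hN.ne']
  · intro n hn
    rw [hT, mem_filter] at hn
    exact subset_convexHull ℝ _ ⟨n, hn.2.1, hn.2.2, rfl⟩

/-- **the convex hull** -/
theorem hull_main (q : ℕ) [NeZero q] (a : ℝ) (ha : 1 < a) :
    ∃ ρ : ℝ, 0 < ρ ∧ ∀ᶠ X : ℝ in atTop, ∀ w : (ZMod q)ˣ → ℝ, (∀ u, |w u - 1| ≤ ρ) →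
      w ∈ convexHull ℝ {r : (ZMod q)ˣ → ℝ | ∃ n : ℕ, X < n ∧ (n : ℝ) < 3 * X ∧ r = fun u => RR q (cl q u) a n} := by
  classical
  set K : Set ((ZMod q)ˣ → ℝ) := {α | ∑ i, |α i| = 1} with hK
  have hKne : ∀ α ∈ K, ∃ i, α i ≠ 0 := by
    intro α hα
    by_contra hcon
    push Not at hcon
    have : ∑ i, |α i| = 0 := sum_eq_zero fun i _ => by rw [hcon i, abs_zero]
    rw [hK, Set.mem_ofPred_eq, this] at hα
    exact zero_ne_one hα
  have hKc : IsCompact K := by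
    apply Metric.isCompact_of_isClosed_isBounded
    · exact isClosed_eq (by fun_prop) continuous_const
    · rw [isBounded_iff_forall_norm_le]
      refine ⟨1, fun α hα => ?_⟩
      rw [pi_norm_le_iff_of_nonneg zero_le_one]
      intro i
      rw [Real.norm_eq_abs]
      have h1 := Finset.single_le_sum (f := fun i => |α i|) (fun i _ => abs_nonneg _) (mem_univ i)
      have h2 : ∑ i, |α i| = 1 := hα
      rw [h2] at h1
      exact h1
  choose! δ hδ Z C hC hmod using fun α (hα : α ∈ K) => model q a (1 / 2) ha (by norm_num) (by norm_num) α (hKne α hα)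
  set U : ((ZMod q)ˣ → ℝ) → Set ((ZMod q)ˣ → ℝ) := fun α => {β | (∑ i, |β i - α i|) * (C α + 1) < δ α / 2} with hU
  obtain ⟨t, htK, htU⟩ := hKc.elim_nhds_subcover U (fun α hα => by
    apply IsOpen.mem_nhds
    · exact isOpen_lt (by fun_prop) continuous_const
    · show (∑ i, |α i - α i|) * (C α + 1) < δ α / 2
      simp only [sub_self, abs_zero, sum_const_zero, zero_mul]
      have := hδ α hα
      linarith)
  obtain ⟨δ0, hδ0, hδt⟩ : ∃ δ0 : ℝ, 0 < δ0 ∧ ∀ α ∈ t, δ0 ≤ δ α / 2 := by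
    rcases t.eq_empty_or_nonempty with h | h
    · exact ⟨1, one_pos, fun α hα => by rw [h] at hα; simp at hα⟩
    · obtain ⟨β, hβ, hβm⟩ := Finset.exists_min_image t (fun α => δ α / 2) h
      exact ⟨δ β / 2, by have := hδ β (htK β hβ); linarith, hβm⟩
  refine ⟨δ0 / 2, by positivity, ?_⟩
  have hcore : ∀ᶠ X : ℝ in atTop, ∀ α ∈ t, ∃ s : Finset ℕ, (∀ p ∈ s, p.Prime) ∧
      (∀ p ∈ s, (p : ℝ) ≤ (Real.log X) ^ (1 / 2 : ℝ)) ∧ 0 < NQ X (gq q * ∏ p ∈ s, p) ∧
      X / (40 * ((gq q * ∏ p ∈ s, p : ℕ) : ℝ)) ≤ NQ X (gq q * ∏ p ∈ s, p) ∧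
      (∀ u, |EX X (gq q * ∏ p ∈ s, p) (fun n => RR q (cl q u) a n) - cXq s q (cl q u) (Real.log X) a| ≤ δ0 / 4) ∧
      (∀ u, 0 ≤ cXq s q (cl q u) (Real.log X) a ∧ cXq s q (cl q u) (Real.log X) a ≤ C α) ∧
      ∑ u, α u + δ α ≤ ∑ u, α u * cXq s q (cl q u) (Real.log X) a := by
    rw [Filter.eventually_all_finset]
    intro α hα
    have hαK := htK α hα
    exact core q a (1 / 2) ha (by norm_num) α (δ α) (Z α) (C α) (hC α hαK) (hmod α hαK) (δ0 / 4) (by positivity)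
  filter_upwards [hcore, eventually_gt_atTop (1 : ℝ)] with X hc hX w hw
  have hX0 : 0 < X := by linarith
  have hL : 0 < Real.log X := Real.log_pos hX
  set H := convexHull ℝ {r : (ZMod q)ˣ → ℝ | ∃ n : ℕ, X < n ∧ (n : ℝ) < 3 * X ∧ r = fun u => RR q (cl q u) a n} with hH
  by_contra hwH
  have hfin : {r : (ZMod q)ˣ → ℝ | ∃ n : ℕ, X < n ∧ (n : ℝ) < 3 * X ∧ r = fun u => RR q (cl q u) a n}.Finite := by
    apply ((Set.finite_Iic ⌊3 * X⌋₊).image (fun n : ℕ => (fun u => RR q (cl q u) a n : (ZMod q)ˣ → ℝ))).subset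
    rintro r ⟨n, _, h2, rfl⟩
    exact ⟨n, Nat.le_floor h2.le, rfl⟩
  have hclosed : IsClosed H := hfin.isClosed_convexHull (𝕜 := ℝ)
  obtain ⟨f, c, hf1, hf2⟩ := geometric_hahn_banach_closed_point (convex_convexHull ℝ _) hclosed hwH
  -- a point of the hull
  have hpt : ∃ r, r ∈ H := by
    refine ⟨fun u => RR q (cl q u) a ((⌊X⌋₊ + 1 : ℕ) : ℝ), subset_convexHull ℝ _ ⟨⌊X⌋₊ + 1, ?_, ?_, rfl⟩⟩
    · have := Nat.lt_floor_add_one X
      push_cast; linarith
    · have := Nat.floor_le hX0.le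
      push_cast; linarith
  set β : (ZMod q)ˣ → ℝ := fun i => f (Pi.single i 1) with hβ
  have hfβ : ∀ x : (ZMod q)ˣ → ℝ, f x = ∑ i, x i * β i := by
    intro x
    have h1 : x = ∑ i, x i • (Pi.single i (1 : ℝ) : (ZMod q)ˣ → ℝ) := by
      ext j
      rw [Finset.sum_apply]
      simp [Pi.single_apply]
    conv_lhs => rw [h1]
    rw [map_sum]
    refine sum_congr rfl fun i _ => ?_
    rw [map_smul, smul_eq_mul]
  set S1 := ∑ i, |β i| with hS1
  have hS0 : 0 < S1 := by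
    rcases (sum_nonneg fun i _ => abs_nonneg (β i) : 0 ≤ ∑ i, |β i|).lt_or_eq with h | h
    · exact h
    · exfalso
      have h1 : ∀ i, β i = 0 := by
        intro i
        have h2 := (Finset.sum_eq_zero_iff_of_nonneg (fun i _ => abs_nonneg (β i))).1 h.symm i (mem_univ i)
        exact abs_eq_zero.1 h2
      have h3 : ∀ x : (ZMod q)ˣ → ℝ, f x = 0 := by
        intro x
        rw [hfβ]
        exact sum_eq_zero fun i _ => by rw [h1 i, mul_zero]
      obtain ⟨r, hr⟩ := hpt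
      have h4 := hf1 r hr
      rw [h3] at h4 hf2
      linarith
  set γ : (ZMod q)ˣ → ℝ := fun i => β i / S1 with hγ
  have hγK : γ ∈ K := by
    show ∑ i, |γ i| = 1
    simp only [hγ, abs_div, abs_of_pos hS0]
    rw [← sum_div, ← hS1, div_self hS0.ne']
  have hγf : ∀ x : (ZMod q)ˣ → ℝ, ∑ i, γ i * x i = f x / S1 := by
    intro x
    rw [hfβ, sum_div]
    exact sum_congr rfl fun i _ => by simp only [hγ]; ring
  have hγH : ∀ r ∈ H, ∑ i, γ i * r i < ∑ i, γ i * w i := by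
    intro r hr
    rw [hγf, hγf]
    exact div_lt_div_of_pos_right ((hf1 r hr).trans hf2) hS0
  obtain ⟨α, hα, hαU⟩ := Set.mem_iUnion₂.1 (htU hγK)
  have hαU' : (∑ i, |γ i - α i|) * (C α + 1) < δ α / 2 := hαU
  obtain ⟨s, hsp, hsr, hN, _, hmean, hbd, h1⟩ := hc α hα
  have h2 := hγH _ (hull_pt q a X hX0 (gq q * ∏ p ∈ s, p) hN)
  have hCα := hC α (htK α hα)
  -- compare the three sums
  have h3 : ∑ i, γ i * w i ≤ ∑ i, γ i + δ0 / 2 := by
    have e1 : ∑ i, γ i * w i - ∑ i, γ i = ∑ i, γ i * (w i - 1) := by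
      rw [← sum_sub_distrib]; exact sum_congr rfl fun i _ => by ring
    have e2 : ∑ i, γ i * (w i - 1) ≤ ∑ i, |γ i| * (δ0 / 2) := by
      refine sum_le_sum fun i _ => ?_
      calc γ i * (w i - 1) ≤ |γ i * (w i - 1)| := le_abs_self _
        _ = |γ i| * |w i - 1| := abs_mul _ _
        _ ≤ _ := mul_le_mul_of_nonneg_left (hw i) (abs_nonneg _)
    have e3 : ∑ i, |γ i| = 1 := hγK
    rw [← sum_mul, e3, one_mul] at e2
    linarith
  have h4 : ∑ i, γ i * cXq s q (cl q i) (Real.log X) a - δ0 / 4 ≤ ∑ i, γ i * EX X (gq q * ∏ p ∈ s, p) (fun n => RR q (cl q i) a n) := by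
    have e1 : ∑ i, γ i * cXq s q (cl q i) (Real.log X) a - ∑ i, γ i * EX X (gq q * ∏ p ∈ s, p) (fun n => RR q (cl q i) a n) ≤
        ∑ i, |γ i| * (δ0 / 4) := by
      rw [← sum_sub_distrib]
      refine sum_le_sum fun i _ => ?_
      calc γ i * cXq s q (cl q i) (Real.log X) a - γ i * EX X (gq q * ∏ p ∈ s, p) (fun n => RR q (cl q i) a n)
          = γ i * (-(EX X (gq q * ∏ p ∈ s, p) (fun n => RR q (cl q i) a n) - cXq s q (cl q i) (Real.log X) a)) := by ring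
        _ ≤ |γ i * (-(EX X (gq q * ∏ p ∈ s, p) (fun n => RR q (cl q i) a n) - cXq s q (cl q i) (Real.log X) a))| := le_abs_self _
        _ = |γ i| * |EX X (gq q * ∏ p ∈ s, p) (fun n => RR q (cl q i) a n) - cXq s q (cl q i) (Real.log X) a| := by rw [abs_mul, abs_neg]
        _ ≤ _ := mul_le_mul_of_nonneg_left (hmean i) (abs_nonneg _)
    have e3 : ∑ i, |γ i| = 1 := hγK
    rw [← sum_mul, e3, one_mul] at e1
    linarith
  have h5 : ∑ i, α i * (cXq s q (cl q i) (Real.log X) a - 1) - ∑ i, γ i * (cXq s q (cl q i) (Real.log X) a - 1) ≤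
      (∑ i, |γ i - α i|) * (C α + 1) := by
    rw [← sum_sub_distrib, sum_mul]
    refine sum_le_sum fun i _ => ?_
    obtain ⟨q1, q2⟩ := hbd i
    calc α i * (cXq s q (cl q i) (Real.log X) a - 1) - γ i * (cXq s q (cl q i) (Real.log X) a - 1)
        = -((γ i - α i) * (cXq s q (cl q i) (Real.log X) a - 1)) := by ring
      _ ≤ |-((γ i - α i) * (cXq s q (cl q i) (Real.log X) a - 1))| := le_abs_self _
      _ = |γ i - α i| * |cXq s q (cl q i) (Real.log X) a - 1| := by rw [abs_neg, abs_mul]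
      _ ≤ |γ i - α i| * (C α + 1) := by
          apply mul_le_mul_of_nonneg_left _ (abs_nonneg _)
          rw [abs_le]; constructor <;> linarith
  have h6 : ∀ κ : (ZMod q)ˣ → ℝ, ∑ i, κ i * (cXq s q (cl q i) (Real.log X) a - 1) = ∑ i, κ i * cXq s q (cl q i) (Real.log X) a - ∑ i, κ i := by
    intro κ
    rw [← sum_sub_distrib]; exact sum_congr rfl fun i _ => by ring
  rw [h6, h6] at h5
  have h7 := hδt α hα
  linarith

end Pool.Agent.W5h25.PR
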